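import Mathlib

/-!
# Fixed-point-free involution Little bumps: definitions

Words are lists of integers; `σ * τ` is composition of permutations.
-/

namespace FpfLittle

/-- the simple transposition `s_i = (i, i+1)` of `ℤ` -/
def s (i : ℤ) : Equiv.Perm ℤ := Equiv.swap i (i + 1)

/-- the product `s_{w_1} ⋯ s_{w_l}` of a word -/
def wordPerm (w : List ℤ) : Equiv.Perm ℤ := (w.map s).prod

/-- `S_ℤ`: the permutations of `ℤ` fixing all but finitely many integers -/
def SZ : Set (Equiv.Perm ℤ) := {σ | {i | σ i ≠ i}.Finite}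

/-- `w` is a reduced word for `σ`: `w ∈ R(σ)` -/
def IsReduced (σ : Equiv.Perm ℤ) (w : List ℤ) : Prop :=
  wordPerm w = σ ∧ ∀ w', wordPerm w' = σ → w.length ≤ w'.length

/-- the length of `σ ∈ S_ℤ`: the least length of a word for `σ` -/
noncomputable def len (σ : Equiv.Perm ℤ) : ℕ := sInf {l | ∃ w, wordPerm w = σ ∧ w.length = l}

/-- the function `i ↦ i - (-1)^i` -/
def oneFun (i : ℤ) : ℤ := if Even i then i - 1 else i + 1

lemma oneFun_invol : Function.Involutive oneFun := by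
  intro i
  unfold oneFun
  by_cases h : Even i
  · have h1 : ¬ Even (i - 1) := by
      rw [Int.not_even_iff_odd]; exact h.sub_odd odd_one
    rw [if_pos h, if_neg h1]; ring
  · have h1 : Even (i + 1) := by
      rw [Int.not_even_iff_odd] at h; exact h.add_odd odd_one
    rw [if_neg h, if_pos h1]; ring

/-- `1_fpf`, the involution `i ↦ i - (-1)^i` of `ℤ`, swapping `2k-1` and `2k` -/
def oneFpf : Equiv.Perm ℤ := oneFun_invol.toPerm

/-- `I^fpf_ℤ` -/
def Ifpf : Set (Equiv.Perm ℤ) := {π | ∃ σ ∈ SZ, σ⁻¹ * oneFpf * σ = π}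

/-- `A^Sp(π)`: the `σ ∈ S_ℤ` of minimal length with `σ⁻¹ 1_fpf σ = π` -/
def ASp (π : Equiv.Perm ℤ) : Set (Equiv.Perm ℤ) :=
  {σ | σ ∈ SZ ∧ σ⁻¹ * oneFpf * σ = π ∧ ∀ τ ∈ SZ, τ⁻¹ * oneFpf * τ = π → len σ ≤ len τ}

/-- `R^Sp(π) = ⋃_{σ ∈ A^Sp(π)} R(σ)`: the fpf-involution words for `π` -/
def RSp (π : Equiv.Perm ℤ) : Set (List ℤ) := {w | ∃ σ ∈ ASp π, IsReduced σ w}

/-- `w` is an fpf-involution word (for some element of `I^fpf_ℤ`) -/
def IsFpfWord (w : List ℤ) : Prop := ∃ π ∈ Ifpf, w ∈ RSp π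

/-- `(w, i)` is a `π`-marked word (indices start at `0`) -/
def Marked (π : Equiv.Perm ℤ) (w : List ℤ) (i : ℕ) : Prop :=
  i < w.length ∧ w.eraseIdx i ∈ RSp π

/-- `(w, i)` is semi-reduced (this does not depend on `i`) -/
def SemiReduced (π : Equiv.Perm ℤ) (w : List ℤ) : Prop :=
  ¬ IsFpfWord w ∧ ∃ σ ∈ SZ, σ⁻¹ * oneFpf * σ = π ∧ IsReduced σ w

open Classical in
/-- The map `fpush`: `fpush(w, i) = (v, j)`, where `j = i` if `(w, i)` is semi- or fpf-reduced,
and `j ≠ i` is the index such that `(w, j)` is `π`-marked otherwise; `v` is `w` with `w_j`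
replaced by `w_j + 1`.  (For `π`-marked pairs the index exists, see `exists_marked`; the
values at other pairs are irrelevant.) -/
noncomputable def fpush (π : Equiv.Perm ℤ) (a : List ℤ × ℕ) : List ℤ × ℕ :=
  let j := if IsFpfWord a.1 ∨ SemiReduced π a.1 then a.2
    else Classical.epsilon (fun j => j ≠ a.2 ∧ Marked π a.1 j)
  (a.1.modify j (· + 1), j)

open Classical in
/-- The operator `fb_π`: if there is an `i` such that `(w, i)` is `π`-marked then `fb_π(w)` is the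
word of `fpush^N(w, i)` for the least `N > 0` such that `fpush^N(w, i)` is fpf-reduced (such `N`
exists, see `terminates`); otherwise `fb_π(w) = w`. -/
noncomputable def fb (π : Equiv.Perm ℤ) (w : List ℤ) : List ℤ :=
  if ∃ i, Marked π w i then
    let i := Classical.epsilon (Marked π w)
    ((fpush π)^[sInf {N | 0 < N ∧ IsFpfWord ((fpush π)^[N] (w, i)).1}] (w, i)).1
  else w

/-- `FPush π (w, i) (v, j)` says `fpush(w, i) = (v, j)`: `j = i` if `(w, i)` is semi- or
fpf-reduced, and otherwise `j ≠ i` is such that `(w, j)` is `π`-marked; `v` is `w` with `w_j`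
replaced by `w_j + 1`. -/
def FPush (π : Equiv.Perm ℤ) (a b : List ℤ × ℕ) : Prop :=
  (((IsFpfWord a.1 ∨ SemiReduced π a.1) ∧ b.2 = a.2) ∨
    (¬ IsFpfWord a.1 ∧ ¬ SemiReduced π a.1 ∧ b.2 ≠ a.2 ∧ Marked π a.1 b.2)) ∧
  b.1 = a.1.modify b.2 (· + 1)

/-- `FBump π w v` says `fb_π(w) = v`: either `(w, i)` is `π`-marked for some `i` and `v` is the
word of the first fpf-reduced pair `fpush^N(w, i)`, `N > 0`, or there is no such `i` and
`v = w`. -/
def FBump (π : Equiv.Perm ℤ) (w v : List ℤ) : Prop :=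
  (∃ (i N : ℕ) (x : ℕ → List ℤ × ℕ), Marked π w i ∧ 0 < N ∧ x 0 = (w, i) ∧
    (∀ t < N, FPush π (x t) (x (t + 1))) ∧ (∀ t, 0 < t → t < N → ¬ IsFpfWord (x t).1) ∧
    IsFpfWord (x N).1 ∧ (x N).1 = v) ∨
  ((¬ ∃ i, Marked π w i) ∧ v = w)

end FpfLittle
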