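import Pool.Agent.FpfBump.DynH

/-!
# Abstract dynamics: no slot is visited three times
-/

namespace FpfBump

variable {F : Frame} {A B : Cfg}

/-- who sits directly above `α(k)` at position `k` -/
def Ps (F : Frame) (S : Cfg) (k : ℤ) (A : Cfg) : Prop :=
  (∃ h, F.q < h ∧ A.L k h = S.L k F.q + 1) ∨ (A.L k F.q = S.L k F.q + 1 ∧ k < A.u)

lemma InvH.noq {S : Cfg} {k y g j : ℤ} (hS : Valid F S) (hA : Valid F A) (hI : InvH F S k A)
    (h : RightF F A B y g j) (x : ℤ) (hx : k ≤ x) (hx1 : -j ≤ x) (hx2 : x < -A.u)
    (hnot : ¬ (S.L x g < S.L x F.q)) : g < F.q := by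
  have e3 := F.hpq
  have e2 := h.hg
  have egq := h.hgq
  by_contra hcon
  have hgt : F.q < g := by omega
  have hne := hS.ne h.hgq x
  have hju := h.ju
  have h1 := hS.up F.q g hgt x (-A.u-1) (by omega) (by omega)
  have h2 := hI.B2 (by omega)
  have h3 := h.adjg'
  have h4 := (hI.K (-A.u-1) (by omega) g (by omega) (by omega)
    (h.b1 _ (by omega))).not.mpr (by omega)
  have h5 := InvH.orient (g := g) hS hA hI e2 (by omega) (-A.u-1) (by omega) (by omega)
  omega

/-- one step of the proof of Lemma H' -/
lemma hstep {S : Cfg} {k : ℤ} (hk : 0 < k) (hSu : S.u = k) (hS : Valid F S)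
    (hA : Valid F A) (hB : Valid F B) (hst : Step F A B)
    (hno : ¬ (Stall F A B ∧ k ≤ -A.u))
    (hP : A.L k F.p ≤ S.L k F.q) (hI : InvH F S k A) (hPs : A = S ∨ Ps F S k A) :
    (B.L k F.p ≤ S.L k F.q ∧ InvH F S k B ∧ Ps F S k B) ∨ S.L k F.q + 2 ≤ B.L k F.p := by
  have e3 := F.hpq
  rcases step_cases hA hst with h | ⟨y, g, j, h⟩ | ⟨y, g, j, h⟩
  · left
    have hneg := h.neg
    refine ⟨by rw [h.L']; exact hP, hI.stall hk h ?_, ?_⟩
    · by_contra hc; exact hno ⟨h, by omega⟩
    · rcases hPs with rfl | ⟨h1, h2, h3⟩ | ⟨h1, h2⟩
      · omega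
      · left; exact ⟨h1, h2, by rw [h.L']; exact h3⟩
      · omega
  · have hu := h.u'
    have hju := h.ju
    have e1 := h.hy
    have e2 := h.hg
    by_cases hP' : B.L k F.p ≤ S.L k F.q
    · left
      refine ⟨hP', hI.left hk hSu hS hA h hB hP', ?_⟩
      rcases hPs with hAS | ⟨c, h2, h3⟩ | ⟨h1, h2⟩
      · left
        refine ⟨y, e1, ?_⟩
        have h4 := h.R0 k (Or.inr (by rw [hAS]; omega))
        have h5 := h.adj
        rw [hAS, hSu] at h5
        rw [h4.2, hAS]; exact h5
      · left
        refine ⟨c, h2, ?_⟩
        by_cases hc : c = y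
        · subst hc
          have hnr : ¬ (j ≤ k ∧ k < A.u) := by
            intro hr
            have h4 := h.a1 k hr.1
            have h5 := hI.M k
            have h6 := hI.Fr k le_rfl (by omega)
            omega
          rw [(h.R0 k (by omega)).2]; exact h3
        · rw [h.oth k c (by omega) (by omega) hc (by omega)]; exact h3
      · by_cases hj : j ≤ k
        · left
          refine ⟨y, e1, ?_⟩
          have h4 := h.R1 k hj h2
          omega
        · right
          have h4 := h.R0 k (by omega)
          omega
    · right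
      by_cases hs : -A.u ≤ k ∧ k < -j
      · have h4 := h.S1 k hs.1 hs.2
        have h5 : A.L k g ≠ S.L k F.q + 1 := by
          intro h6
          rcases hPs with hAS | ⟨c, h2, h3⟩ | ⟨h1, h2⟩
          · have h7 := h.adj
            rw [hAS, hSu] at h7
            rw [hAS] at h6
            have : y = g := (S.L k).injective (by rw [h7, h6])
            omega
          · have : c = g := (A.L k).injective (by rw [h3, h6])
            omega
          · have : F.q = g := (A.L k).injective (by rw [h1, h6])
            omega
        omega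
      · have h4 := h.S0 k (by omega)
        omega
  · have hu := h.u'
    have hju := h.ju
    have e1 := h.hy
    have e2 := h.hg
    have e4 := h.hyp
    by_cases hP' : B.L k F.p ≤ S.L k F.q
    · left
      refine ⟨hP', hI.right hk hSu hS hA h hB hP', ?_⟩
      rcases hPs with hAS | ⟨c, h2, h3⟩ | ⟨h1, h2⟩
      · right
        have hAu : A.u = k := by rw [hAS]; exact hSu
        have h4 := h.R1 k (by omega) (by omega)
        have h5 := h.adj
        rw [hAu] at h5
        rw [h4.1, h5]
        exact ⟨by rw [hAS], by omega⟩
      · left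
        refine ⟨c, h2, ?_⟩
        by_cases hc : c = g
        · subst hc
          by_cases hs : -j ≤ k ∧ k < -A.u
          · have h4 := h.S1 k hs.1 hs.2
            omega
          · rw [(h.S0 k (by omega)).2]; exact h3
        · rw [h.oth k c (by omega) (by omega) (by omega) hc]; exact h3
      · right
        have h4 := h.R0 k (by omega)
        omega
    · right
      by_cases hs : -j ≤ k ∧ k < -A.u
      · have h4 := h.S1 k hs.1 hs.2
        have h5 : A.L k g ≠ S.L k F.q + 1 := by
          intro h6
          rcases hPs with hAS | ⟨c, h2, h3⟩ | ⟨h1, h2⟩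
          · rw [hAS] at hs; omega
          · have hcg : c = g := (A.L k).injective (by rw [h3, h6])
            subst hcg
            have h7 := (hI.K k le_rfl c (by omega) (by omega) (h.b1 k hs.1)).not.mp (by omega)
            have h8 := hI.noq hS hA h k le_rfl hs.1 hs.2 h7
            omega
          · omega
        omega
      · have h4 := h.S0 k (by omega)
        omega

variable {C : ℕ → Cfg} {T : ℕ}

/-- `x` is the index of a stalling step at a slot `≥ k` -/
def Big (F : Frame) (C : ℕ → Cfg) (k : ℤ) (x : ℕ) : Prop :=
  Stall F (C x) (C (x+1)) ∧ k ≤ -(C x).u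

/-- Lemma H' -/
lemma hprime (hV : ∀ t ≤ T, Valid F (C t)) (hst : ∀ t < T, Step F (C t) (C (t+1)))
    {s t : ℕ} {k : ℤ} (hst' : s ≤ t) (ht : t ≤ T) (hk : 0 < k) (hu : (C s).u = k)
    (hno : ∀ x, s ≤ x → x < t → ¬ Big F C k x) :
    (C t).L k F.p ≠ (C s).L k F.q + 1 := by
  have key : ∀ d : ℕ, s + d ≤ t →
      (((C (s+d)).L k F.p ≤ (C s).L k F.q ∧ InvH F (C s) k (C (s+d)) ∧
        (C (s+d) = C s ∨ Ps F (C s) k (C (s+d)))) ∨ (C s).L k F.q + 2 ≤ (C (s+d)).L k F.p) := by
    intro d
    induction d with
    | zero =>
      intro _
      left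
      refine ⟨((hV s (by omega)).pq k (by omega)).le, ?_, Or.inl rfl⟩
      have := InvH.base (hV s (by omega)) (by omega)
      rw [hu] at this
      exact this
    | succ d ih =>
      intro hd
      rcases ih (by omega) with ⟨h1, h2, h3⟩ | h1
      · have h4 := hstep hk hu (hV s (by omega)) (hV (s+d) (by omega)) (hV (s+d+1) (by omega))
          (hst (s+d) (by omega)) (hno (s+d) (by omega) (by omega)) h1 h2 h3
        rcases h4 with ⟨h5, h6, h7⟩ | h5
        · exact Or.inl ⟨h5, h6, Or.inr h7⟩
        · exact Or.inr h5
      · right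
        exact h1.trans (step_p (hV (s+d) (by omega)) (hst (s+d) (by omega)) k)
  have h := key (t - s) (by omega)
  rw [show s + (t - s) = t by omega] at h
  rcases h with ⟨h1, _⟩ | h1 <;> omega

lemma mono_q (hV : ∀ t ≤ T, Valid F (C t)) (hst : ∀ t < T, Step F (C t) (C (t+1)))
    {s t : ℕ} (hst' : s ≤ t) (ht : t ≤ T) (x : ℤ) : (C s).L x F.q ≤ (C t).L x F.q := by
  induction t, hst' using Nat.le_induction with
  | base => exact le_rfl
  | succ t h ih => exact (ih (by omega)).trans (step_q (hV t (by omega)) (hst t (by omega)) x)

lemma mono_p (hV : ∀ t ≤ T, Valid F (C t)) (hst : ∀ t < T, Step F (C t) (C (t+1)))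
    {s t : ℕ} (hst' : s ≤ t) (ht : t ≤ T) (x : ℤ) : (C s).L x F.p ≤ (C t).L x F.p := by
  induction t, hst' using Nat.le_induction with
  | base => exact le_rfl
  | succ t h ih => exact (ih (by omega)).trans (step_p (hV t (by omega)) (hst t (by omega)) x)

lemma invG_all (hV : ∀ t ≤ T, Valid F (C t)) (hst : ∀ t < T, Step F (C t) (C (t+1)))
    {s t : ℕ} (hst' : s ≤ t) (ht : t ≤ T) (hu : 0 < (C s).u) :
    InvG F (C s) (C s).u (C t) := by
  induction t, hst' using Nat.le_induction with
  | base => exact InvG.base (hV s ht) hu
  | succ t h ih => exact (ih (by omega)).step (hV t (by omega)) (hst t (by omega))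

/-- same mark, `q`-side -/
lemma same_q (hV : ∀ t ≤ T, Valid F (C t)) (hst : ∀ t < T, Step F (C t) (C (t+1)))
    {s t : ℕ} {k : ℤ} (hst' : s < t) (ht : t ≤ T) (hk : 0 < k) (hus : (C s).u = k)
    (hut : (C t).u = k) (hval : (C t).L k F.q = (C s).L k F.q + 1)
    (hno : ∀ x, s ≤ x → x < t → ¬ Big F C k x) : False := by
  have hAs := hV s (by omega)
  have bs := hAs.blank F.q
  have bt := (hV t ht).blank F.q
  rw [hus] at bs
  rw [hut] at bt
  rcases step_cases hAs (hst s (by omega)) with h | ⟨y, g, j, h⟩ | ⟨y, g, j, h⟩
  · have := h.neg; omega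
  · -- left
    have key : ∀ d : ℕ, s + 1 + d ≤ t →
        (((C (s+1+d)).L k F.q = (C s).L k F.q ∧ (C (s+1+d)).u < k ∧
          (C s).L k F.q + 1 ≤ (C (s+1+d)).L (k-1) F.q) ∨
          (C s).L k F.q + 2 ≤ (C (s+1+d)).L (k-1) F.q) := by
      intro d
      induction d with
      | zero =>
        intro _
        left
        have hju := h.ju
        have h1 := h.R0 k (by omega)
        have h2 := h.R1 (k-1) (by omega) (by omega)
        have h3 := h.u'
        have h4 := h.a1 (k-1) (by omega)
        simp only [add_zero]
        omega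
      | succ d ih =>
        intro hd
        have hA := hV (s+1+d) (by omega)
        have hS := hst (s+1+d) (by omega)
        have mq := step_q hA hS (k-1)
        have hno' := hno (s+1+d) (by omega) (by omega)
        rcases ih (by omega) with ⟨h1, h2, h3⟩ | h1
        · rcases step_cases hA hS with h' | ⟨y', g', j', h'⟩ | ⟨y', g', j', h'⟩
          · left
            have hL := h'.L'
            have hu := h'.u'
            have : ¬ (k ≤ -(C (s+1+d)).u) := fun hh => hno' ⟨h', hh⟩
            rw [show s + 1 + (d+1) = s + 1 + d + 1 by ring, hL, hu]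
            omega
          · left
            have hju := h'.ju
            have h4 := h'.R0 k (by omega)
            have h5 := h'.u'
            rw [show s + 1 + (d+1) = s + 1 + d + 1 by ring]
            omega
          · have hju := h'.ju
            have h5 := h'.u'
            rw [show s + 1 + (d+1) = s + 1 + d + 1 by ring]
            rcases lt_trichotomy j' k with hj | hj | hj
            · left
              have h4 := h'.R0 k (by omega)
              omega
            · have c1 := h'.c1
              have c2 := h'.c2
              rw [hj] at c1 c2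
              omega
            · right
              have h4 := h'.R1 (k-1) (by omega) (by omega)
              have h6 := h'.a1 (k-1) (by omega)
              omega
        · right
          exact h1.trans mq
    have h1 := key (t - (s+1)) (by omega)
    rw [show s + 1 + (t - (s+1)) = t by omega] at h1
    omega
  · -- right
    have key : ∀ d : ℕ, s + 1 + d ≤ t →
        (((C (s+1+d)).L (k-1) F.q = (C s).L k F.q ∧ k < (C (s+1+d)).u ∧
          (C s).L k F.q + 1 ≤ (C (s+1+d)).L k F.q) ∨
          (C s).L k F.q + 2 ≤ (C (s+1+d)).L k F.q) := by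
      intro d
      induction d with
      | zero =>
        intro _
        left
        have hju := h.ju
        have h1 := h.R0 (k-1) (by omega)
        have h2 := h.R1 k (by omega) (by omega)
        have h3 := h.u'
        have h4 := h.a1 k (by omega)
        simp only [add_zero]
        omega
      | succ d ih =>
        intro hd
        have hA := hV (s+1+d) (by omega)
        have hS := hst (s+1+d) (by omega)
        have mq := step_q hA hS k
        rcases ih (by omega) with ⟨h1, h2, h3⟩ | h1
        · rcases step_cases hA hS with h' | ⟨y', g', j', h'⟩ | ⟨y', g', j', h'⟩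
          · have := h'.neg; omega
          · have hju := h'.ju
            have h5 := h'.u'
            rw [show s + 1 + (d+1) = s + 1 + d + 1 by ring]
            rcases lt_trichotomy j' k with hj | hj | hj
            · right
              have h4 := h'.R1 k (by omega) (by omega)
              have h6 := h'.a1 k (by omega)
              omega
            · have c1 := h'.c1
              have c2 := h'.c2
              rw [hj] at c1 c2
              omega
            · left
              have h4 := h'.R0 (k-1) (by omega)
              have h6 := step_q hA hS k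
              omega
          · left
            have hju := h'.ju
            have h4 := h'.R0 (k-1) (by omega)
            have h5 := h'.u'
            rw [show s + 1 + (d+1) = s + 1 + d + 1 by ring]
            omega
        · right
          exact h1.trans mq
    have h1 := key (t - (s+1)) (by omega)
    rw [show s + 1 + (t - (s+1)) = t by omega] at h1
    omega

/-- same mark, `p`-side -/
lemma same_p (hV : ∀ t ≤ T, Valid F (C t)) (hst : ∀ t < T, Step F (C t) (C (t+1)))
    {s t : ℕ} {k : ℤ} (hst' : s < t) (ht : t ≤ T) (hk : 0 < k) (hus : (C s).u = -k)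
    (hut : (C t).u = -k) (hval : (C t).L k F.p = (C s).L k F.p + 1)
    (hno : ∀ x, s ≤ x → x < t → ¬ Big F C k x) : False := by
  have hAs := hV s (by omega)
  have bs := hAs.blank' F.p
  have bt := (hV t ht).blank' F.p
  rw [hus, neg_neg] at bs
  rw [hut, neg_neg] at bt
  rcases step_cases hAs (hst s (by omega)) with h | ⟨y, g, j, h⟩ | ⟨y, g, j, h⟩
  · exact hno s le_rfl hst' ⟨h, by omega⟩
  · -- left
    have key : ∀ d : ℕ, s + 1 + d ≤ t →
        (((C (s+1+d)).L (k-1) F.p = (C s).L k F.p ∧ (C (s+1+d)).u < -k ∧
          (C s).L k F.p + 1 ≤ (C (s+1+d)).L k F.p) ∨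
          (C s).L k F.p + 2 ≤ (C (s+1+d)).L k F.p) := by
      intro d
      induction d with
      | zero =>
        intro _
        left
        have hju := h.ju
        have h1 := h.S0 (k-1) (by omega)
        have h2 := h.S1 k (by omega) (by omega)
        have h3 := h.u'
        have h4 := h.b1 k (by omega)
        simp only [add_zero]
        omega
      | succ d ih =>
        intro hd
        have hA := hV (s+1+d) (by omega)
        have hS := hst (s+1+d) (by omega)
        have mq := step_p hA hS k
        have hno' := hno (s+1+d) (by omega) (by omega)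
        rcases ih (by omega) with ⟨h1, h2, h3⟩ | h1
        · rcases step_cases hA hS with h' | ⟨y', g', j', h'⟩ | ⟨y', g', j', h'⟩
          · exact absurd ⟨h', by omega⟩ hno'
          · left
            have hju := h'.ju
            have h4 := h'.S0 (k-1) (by omega)
            have h5 := h'.u'
            rw [show s + 1 + (d+1) = s + 1 + d + 1 by ring]
            omega
          · have hju := h'.ju
            have h5 := h'.u'
            rw [show s + 1 + (d+1) = s + 1 + d + 1 by ring]
            rcases lt_trichotomy (-j') k with hj | hj | hj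
            · right
              have h4 := h'.S1 k (by omega) (by omega)
              have h6 := h'.b1 k (by omega)
              omega
            · have c1 := h'.d1
              have c2 := h'.d2
              rw [hj] at c1 c2
              omega
            · left
              have h4 := h'.S0 (k-1) (by omega)
              omega
        · right
          exact h1.trans mq
    have h1 := key (t - (s+1)) (by omega)
    rw [show s + 1 + (t - (s+1)) = t by omega] at h1
    omega
  · -- right
    have key : ∀ d : ℕ, s + 1 + d ≤ t →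
        (((C (s+1+d)).L k F.p = (C s).L k F.p ∧ -k < (C (s+1+d)).u ∧
          (C s).L k F.p + 1 ≤ (C (s+1+d)).L (k-1) F.p) ∨
          (C s).L k F.p + 2 ≤ (C (s+1+d)).L (k-1) F.p) := by
      intro d
      induction d with
      | zero =>
        intro _
        left
        have hju := h.ju
        have h1 := h.S0 k (by omega)
        have h2 := h.S1 (k-1) (by omega) (by omega)
        have h3 := h.u'
        have h4 := h.b1 (k-1) (by omega)
        simp only [add_zero]
        omega
      | succ d ih =>
        intro hd
        have hA := hV (s+1+d) (by omega)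
        have hS := hst (s+1+d) (by omega)
        have mq := step_p hA hS (k-1)
        rcases ih (by omega) with ⟨h1, h2, h3⟩ | h1
        · rcases step_cases hA hS with h' | ⟨y', g', j', h'⟩ | ⟨y', g', j', h'⟩
          · left
            have hL := h'.L'
            have hu := h'.u'
            have hneg := h'.neg
            rw [show s + 1 + (d+1) = s + 1 + d + 1 by ring, hL, hu]
            omega
          · have hju := h'.ju
            have h5 := h'.u'
            rw [show s + 1 + (d+1) = s + 1 + d + 1 by ring]
            rcases lt_trichotomy (-j') k with hj | hj | hj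
            · left
              have h4 := h'.S0 k (by omega)
              omega
            · have c1 := h'.d1
              have c2 := h'.d2
              rw [hj] at c1 c2
              omega
            · right
              have h4 := h'.S1 (k-1) (by omega) (by omega)
              have h6 := h'.b1 (k-1) (by omega)
              omega
          · left
            have hju := h'.ju
            have h4 := h'.S0 k (by omega)
            have h5 := h'.u'
            rw [show s + 1 + (d+1) = s + 1 + d + 1 by ring]
            omega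
        · right
          exact h1.trans mq
    have h1 := key (t - (s+1)) (by omega)
    rw [show s + 1 + (t - (s+1)) = t by omega] at h1
    omega

/-- token facts, `q`-side -/
lemma Valid.tokq (hA : Valid F A) {k : ℤ} (hk : 0 < k) (hu : A.u = k) :
    A.L k F.q = A.w k ∧ A.L (k-1) F.q = A.w k := by
  have h1 := hA.tok
  have h2 := hA.blank F.q
  rw [hu, abs_of_pos hk] at h1
  rw [hu] at h2
  exact ⟨h1, h2.trans h1⟩

/-- token facts, `p`-side -/
lemma Valid.tokp (hA : Valid F A) {k : ℤ} (hk : 0 < k) (hu : A.u = -k) :
    A.L k F.p = A.w k ∧ A.L (k-1) F.p = A.w k := by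
  have h1 := hA.tok
  rw [hu, abs_neg, abs_of_pos hk] at h1
  have h2 := hA.blank' F.p
  rw [hu, neg_neg] at h2
  have h3 := hA.mir (k-1) F.q
  rw [F.hq, show -1 - (k-1) = -k by ring] at h3
  omega

lemma step_w_eq (hA : Valid F A) (h : Step F A B) (z : ℤ) :
    B.w z = if z = |B.u| then A.w z + 1 else A.w z := by
  rcases step_cases hA h with h | ⟨y, g, j, h⟩ | ⟨y, g, j, h⟩
  · rw [h.w', h.u', abs_neg]
  · rw [h.w', h.u']
  · rw [h.w', h.u']

/-- letters between consecutive visits -/
lemma letters (hV : ∀ t ≤ T, Valid F (C t)) (hst : ∀ t < T, Step F (C t) (C (t+1)))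
    {a b : ℕ} {k : ℤ} (hab : a < b) (hb : b ≤ T) (hbk : |(C b).u| = k)
    (hno : ∀ x, a < x → x < b → |(C x).u| ≠ k) : (C b).w k = (C a).w k + 1 := by
  have key : ∀ d : ℕ, a + d < b → (C (a+d)).w k = (C a).w k := by
    intro d
    induction d with
    | zero => intro _; rfl
    | succ d ih =>
      intro hd
      have h1 := step_w_eq (hV (a+d) (by omega)) (hst (a+d) (by omega)) k
      have h2 := hno (a+d+1) (by omega) (by omega)
      rw [if_neg (fun h => h2 h.symm)] at h1
      rw [show a + (d+1) = a + d + 1 by ring, h1]
      exact ih (by omega)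
  have h1 := step_w_eq (hV (b-1) (by omega)) (hst (b-1) (by omega)) k
  rw [show b - 1 + 1 = b by omega, if_pos hbk.symm] at h1
  have h2 := key (b - 1 - a) (by omega)
  rw [show a + (b - 1 - a) = b - 1 by omega] at h2
  omega

/-- between consecutive visits of the slot `k` there is a big stalling step -/
lemma exists_big (hV : ∀ t ≤ T, Valid F (C t)) (hst : ∀ t < T, Step F (C t) (C (t+1)))
    {a b : ℕ} {k : ℤ} (hk : 0 < k) (hab : a < b) (hb : b ≤ T) (hak : |(C a).u| = k)
    (hbk : |(C b).u| = k) (hno : ∀ x, a < x → x < b → |(C x).u| ≠ k) :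
    ∃ x, a ≤ x ∧ x < b ∧ Big F C k x := by
  by_contra hcon
  push Not at hcon
  have hw := letters hV hst hab hb hbk hno
  have hA := hV a (by omega)
  have hB := hV b hb
  rcases abs_eq hk.le |>.mp hak with ha | ha <;> rcases abs_eq hk.le |>.mp hbk with hb' | hb'
  · exact same_q hV hst hab hb hk ha hb'
      (by rw [(hA.tokq hk ha).1, (hB.tokq hk hb').1, hw]) hcon
  · exact hprime hV hst hab.le hb hk ha hcon
      (by rw [(hA.tokq hk ha).1, (hB.tokp hk hb').1, hw])
  · have t1 := (hA.tokp hk ha).1
    have t2 := (hB.tokq hk hb').1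
    have m1 := mono_q hV hst hab.le hb k
    have pq := hA.pq k hk.le
    rcases step_cases hA (hst a (by omega)) with h | ⟨y, g, j, h⟩ | ⟨y, g, j, h⟩
    · exact hcon a le_rfl hab ⟨h, by omega⟩
    · have h1 := h.adjg
      rw [ha, neg_neg] at h1
      have h3 := hA.ne (a := g) (b := F.q) (by have := h.hg; have := F.hpq; omega) k
      omega
    · have h1 := h.adjg
      rw [ha, neg_neg] at h1
      have h3 := hA.ne h.hgq k
      omega
  · exact same_p hV hst hab hb hk ha hb'
      (by rw [(hA.tokp hk ha).1, (hB.tokp hk hb').1, hw]) hcon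

/-- three consecutive visits are impossible -/
lemma three_consec (hV : ∀ t ≤ T, Valid F (C t)) (hst : ∀ t < T, Step F (C t) (C (t+1)))
    {a b c : ℕ} {k : ℤ} (hk : 0 < k) (hab : a < b) (hbc : b < c) (hc : c ≤ T)
    (hak : |(C a).u| = k) (hbk : |(C b).u| = k) (hck : |(C c).u| = k)
    (hno1 : ∀ x, a < x → x < b → |(C x).u| ≠ k) (hno2 : ∀ x, b < x → x < c → |(C x).u| ≠ k) :
    False := by
  obtain ⟨x1, hx1, hx1', hS1, hb1⟩ := exists_big hV hst hk hab (by omega) hak hbk hno1
  obtain ⟨x2, hx2, hx2', hS2, hb2⟩ := exists_big hV hst hk hbc (by omega) hbk hck hno2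
  have hw1 := letters hV hst hab (by omega) hbk hno1
  have hw2 := letters hV hst hbc (by omega) hck hno2
  have hVa := hV a (by omega)
  have hVc := hV c hc
  have hV1 := hV x1 (by omega)
  have hV2 := hV x2 (by omega)
  have n1 := hS1.neg
  have n2 := hS2.neg
  -- first: q is high at x1
  have F1 : (C a).w k + 1 ≤ (C x1).L (k-1) F.q := by
    have hm := mono_q hV hst hx1 (by omega) (k-1)
    rcases abs_eq hk.le |>.mp hak with ha | ha
    · have t1 := (hVa.tokq hk ha).2
      have hG := invG_all hV hst hx1 (by omega) (by omega : 0 < (C a).u)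
      have h1 : (C x1).L (k-1) F.q ≠ (C a).L (k-1) F.q := fun h => by
        have := hG.Fr (k-1) (by omega) (by omega) h
        omega
      omega
    · have t1 := (hVa.tokp hk ha).2
      have := hVa.pq (k-1) (by omega)
      omega
  -- Lemma G
  have adj : ∀ x : ℕ, x ≤ T → Stall F (C x) (C (x+1)) →
      (C x).L (-(C x).u - 1) F.q = (C x).L (-(C x).u - 1) F.p + 1 := by
    intro x hx h
    have h1 := h.adj
    have h2 := (hV x hx).mir (C x).u F.p
    have h3 := (hV x hx).mir (C x).u F.q
    rw [F.hp, show -1 - (C x).u = -(C x).u - 1 by ring] at h2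
    rw [F.hq, show -1 - (C x).u = -(C x).u - 1 by ring] at h3
    omega
  have F2 : (C x1).L (k-1) F.q < (C x2).L (k-1) F.p := by
    have hu1 := hS1.u'
    have hL1 := hS1.L'
    have hG := invG_all hV hst (show x1 + 1 ≤ x2 by omega) (by omega) (by omega)
    have h1 := hG.final (hV (x1+1) (by omega)) hV2 (by omega)
      (by rw [hu1, hL1]; exact adj x1 (by omega) hS1) n2 (adj x2 (by omega) hS2) (k-1) (by omega)
      (by omega) (by omega)
    rw [hL1] at h1
    exact h1
  rcases abs_eq hk.le |>.mp hck with h3 | h3
  · have t3 := (hVc.tokq hk h3).2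
    have h4 := hVc.pq (k-1) (by omega)
    have h5 := mono_p hV hst hx2'.le hc (k-1)
    omega
  · have t3 := (hVc.tokp hk h3).2
    have hG := invG_all hV hst (show x2 + 1 ≤ c by omega) hc (by rw [hS2.u']; omega)
    have h5 := hG.N (k-1)
    have h6 : (C c).L (k-1) F.p ≠ (C (x2+1)).L (k-1) F.p := fun h => by
      have := hG.I2 (k-1) (by omega) h
      omega
    rw [hS2.L'] at h5 h6
    omega

/-- **Main theorem of the abstract dynamics**: no slot is visited three times. -/
theorem three (hV : ∀ t ≤ T, Valid F (C t)) (hst : ∀ t < T, Step F (C t) (C (t+1)))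
    {a b c : ℕ} {k : ℤ} (hab : a < b) (hbc : b < c) (hc : c ≤ T)
    (hak : |(C a).u| = k) (hbk : |(C b).u| = k) (hck : |(C c).u| = k) : False := by
  classical
  have hk : 0 < k := by
    rw [← hak]; exact abs_pos.mpr (hV a (by omega)).u0
  have hex : ∃ x, a < x ∧ |(C x).u| = k := ⟨b, hab, hbk⟩
  set b' := Nat.find hex with hb'
  have hb1 := Nat.find_spec hex
  have hb2 : b' ≤ b := Nat.find_min' hex ⟨hab, hbk⟩
  have hex2 : ∃ x, b' < x ∧ |(C x).u| = k := ⟨c, by omega, hck⟩
  set c' := Nat.find hex2 with hc'
  have hc1 := Nat.find_spec hex2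
  have hc2 : c' ≤ c := Nat.find_min' hex2 ⟨by omega, hck⟩
  exact three_consec hV hst hk hb1.1 hc1.1 (by omega) hak hb1.2 hc1.2
    (fun x h1 h2 h3 => Nat.find_min hex h2 ⟨h1, h3⟩)
    (fun x h1 h2 h3 => Nat.find_min hex2 h2 ⟨h1, h3⟩)

end FpfBump
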