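import Pool.Agent.FpfBump.Words
import Pool.Agent.FpfBump.DynMain

/-!
# The doubled wiring diagram of a minimal word crosses each pair of lines at most once
-/

namespace FpfLittle

open Equiv

variable {π : Perm ℤ} {B : ℕ → Option ℤ} {n : ℕ}

/-- the doubled wiring diagram -/
def line (B : ℕ → Option ℤ) (n : ℕ) (π : Perm ℤ) (s : ℤ) : Perm ℤ :=
  if 0 ≤ s then H B n s.toNat else H B n (-1 - s).toNat * π

lemma line_pos (B : ℕ → Option ℤ) (n : ℕ) (π : Perm ℤ) (i : ℕ) :
    line B n π (i : ℤ) = H B n i := by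
  simp [line]

lemma line_neg (B : ℕ → Option ℤ) (n : ℕ) (π : Perm ℤ) (i : ℕ) :
    line B n π (-1 - (i : ℤ)) = H B n i * π := by
  unfold line
  rw [if_neg (by omega)]
  congr 2
  omega

lemma line_mir (hsq : ∀ a, π (π a) = a) (s a : ℤ) :
    line B n π (-1 - s) a = line B n π s (π a) := by
  rcases le_or_gt 0 s with h | h
  · obtain ⟨i, rfl⟩ := Int.eq_ofNat_of_zero_le h
    rw [line_neg, line_pos]; rfl
  · obtain ⟨i, hi⟩ := Int.eq_ofNat_of_zero_le (show 0 ≤ -1 - s by omega)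
    have hs : s = -1 - (i : ℤ) := by omega
    subst hs
    rw [show -1 - (-1 - (i : ℤ)) = (i : ℤ) by ring, line_neg, line_pos]
    show _ = H B n i (π (π a))
    rw [hsq]

lemma P_const (hB : ∀ t, n ≤ t → B t = none) {t : ℕ} (ht : n ≤ t) : P B t = P B n := by
  induction t, ht using Nat.le_induction with
  | base => rfl
  | succ t h ih => rw [P, ih, hB t h]; simp [c]

lemma H_fin (hB : ∀ t, n ≤ t → B t = none) {t : ℕ} (ht : n ≤ t) : H B n t = 1 := by
  unfold H
  rw [P_const hB ht]; simp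

lemma line_fin (hB : ∀ t, n ≤ t → B t = none) (s : ℤ) (hs : (n : ℤ) ≤ s) (a : ℤ) :
    line B n π s a = a := by
  obtain ⟨i, rfl⟩ := Int.eq_ofNat_of_zero_le (show 0 ≤ s by omega)
  rw [line_pos, H_fin hB (by exact_mod_cast hs)]; rfl

lemma flipH {i : ℕ} {x y : ℤ} (hxy : x ≠ y)
    (h : ¬ (H B n i x < H B n i y ↔ H B n (i+1) x < H B n (i+1) y)) : At B n i x y := by
  have hne : H B n (i+1) x ≠ H B n (i+1) y := fun hh => hxy ((H B n (i+1)).injective hh)
  have h1 : H B n i x = c (B i) (H B n (i+1) x) := by rw [H_succ]; rfl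
  have h2 : H B n i y = c (B i) (H B n (i+1) y) := by rw [H_succ]; rfl
  cases hb : B i with
  | none =>
    exfalso
    rw [hb] at h1 h2
    simp only [c, Perm.coe_one, id_eq] at h1 h2
    rw [h1, h2] at h
    exact h Iff.rfl
  | some a =>
    rw [hb] at h1 h2
    simp only [c, s, swap_apply_def] at h1 h2
    refine ⟨a, hb, ?_⟩
    split_ifs at h1 h2 <;> omega

lemma oneFun_flip {X Y : ℤ} (hXY : X ≠ Y) (h : ¬ (oneFun X < oneFun Y ↔ X < Y)) :
    oneFun X = Y := by
  unfold oneFun at *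
  split_ifs at h ⊢ with h1 h2 <;> simp only [Int.even_iff] at * <;> omega

/-- crossing of two lines at a signed slot -/
def Xz (π : Perm ℤ) (B : ℕ → Option ℤ) (n : ℕ) (z x y : ℤ) : Prop :=
  (0 < z ∧ ∃ i : ℕ, (i : ℤ) = z - 1 ∧ At B n i x y) ∨ (z = 0 ∧ y = π x) ∨
    (z < 0 ∧ ∃ i : ℕ, (i : ℤ) = -z - 1 ∧ At B n i (π x) (π y))

lemma Minl.zero (h : Minl π B n) (a : ℤ) : H B n 0 (π a) = oneFun (H B n 0 a) := by
  have h1 : H B n 0 = P B n := by simp [H, P]
  have h2 : P B n (conj (P B n) a) = oneFpf (P B n a) := by simp [conj]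
  rw [h.conj_eq] at h2
  rw [h1, h2]; rfl

lemma Minl.flip (h : Minl π B n) {z x y : ℤ} (hxy : x ≠ y)
    (hf : ¬ (line B n π (z-1) x < line B n π (z-1) y ↔ line B n π z x < line B n π z y)) :
    Xz π B n z x y := by
  rcases lt_trichotomy z 0 with hz | hz | hz
  · right; right
    obtain ⟨i, hi⟩ := Int.eq_ofNat_of_zero_le (show 0 ≤ -z - 1 by omega)
    refine ⟨hz, i, hi.symm, ?_⟩
    have e1 : z = -1 - (i : ℤ) := by omega
    have e2 : z - 1 = -1 - ((i + 1 : ℕ) : ℤ) := by push_cast; omega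
    rw [e2, line_neg, e1, line_neg] at hf
    simp only [Perm.coe_mul, Function.comp_apply] at hf
    exact flipH (fun hh => hxy (π.injective hh)) (fun hh => hf hh.symm)
  · right; left
    refine ⟨hz, ?_⟩
    subst hz
    have e2 : (0 : ℤ) - 1 = -1 - ((0 : ℕ) : ℤ) := by norm_num
    have e1 : (0 : ℤ) = ((0 : ℕ) : ℤ) := rfl
    rw [e2, line_neg, e1, line_pos] at hf
    simp only [Perm.coe_mul, Function.comp_apply] at hf
    rw [h.zero, h.zero] at hf
    have h3 := oneFun_flip (fun hh => hxy ((H B n 0).injective hh)) hf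
    rw [← h.zero] at h3
    exact ((H B n 0).injective h3).symm
  · left
    obtain ⟨i, hi⟩ := Int.eq_ofNat_of_zero_le (show 0 ≤ z - 1 by omega)
    refine ⟨hz, i, hi.symm, ?_⟩
    have e1 : z = ((i + 1 : ℕ) : ℤ) := by push_cast; omega
    rw [show z - 1 = (i : ℤ) by omega, line_pos, e1, line_pos] at hf
    exact flipH hxy hf

lemma At.lt (hB : ∀ t, n ≤ t → B t = none) {i : ℕ} {x y : ℤ} (h : At B n i x y) : i < n := by
  obtain ⟨a, h1, _⟩ := h
  by_contra hc
  rw [hB i (by omega)] at h1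
  simp at h1

lemma Minl.no2 (h : Minl π B n) (hB : ∀ t, n ≤ t → B t = none) {z1 z2 x y : ℤ} (hz : z1 < z2)
    (h1 : Xz π B n z1 x y) (h2 : Xz π B n z2 x y) : False := by
  have sq := h.pi_sq
  rcases h1 with ⟨p1, i1, e1, a1⟩ | ⟨p1, a1⟩ | ⟨p1, i1, e1, a1⟩ <;>
  rcases h2 with ⟨p2, i2, e2, a2⟩ | ⟨p2, a2⟩ | ⟨p2, i2, e2, a2⟩
  · exact h.no_double (by omega) (a2.lt hB) a1 a2
  · omega
  · omega
  · subst a1
    exact h.no_mates (a2.lt hB) a2
  · omega
  · omega
  · rcases lt_trichotomy i1 i2 with hi | hi | hi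
    · exact h.no_double' hi (a2.lt hB) a1 a2
    · subst hi
      rcases a1.unique a2 with ⟨h3, _⟩ | ⟨h3, _⟩
      · exact h.pi_ne _ h3
      · rw [← h3] at a2
        exact h.no_mates (a2.lt hB) a2
    · refine h.no_double' (x := π x) (y := π y) hi (a1.lt hB) ?_ a1
      rw [sq, sq]; exact a2
  · rw [a2, sq] at a1
    exact h.no_mates (a1.lt hB) a1.symm
  · exact h.no_double (by omega) (a1.lt hB) a2 a1

lemma ivt (O : ℤ → Prop) {s s' : ℤ} (h : s ≤ s') (h1 : O s) (h2 : ¬ O s') :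
    ∃ z, s < z ∧ z ≤ s' ∧ O (z-1) ∧ ¬ O z := by
  induction s', h using Int.le_induction with
  | base => exact absurd h1 h2
  | succ m hm ih =>
    by_cases hO : O m
    · exact ⟨m+1, by omega, le_rfl, by simpa using hO, h2⟩
    · obtain ⟨z, h3, h4, h5⟩ := ih hO
      exact ⟨z, h3, by omega, h5⟩

/-- each pair of lines crosses at most once -/
theorem Minl.up (h : Minl π B n) (hB : ∀ t, n ≤ t → B t = none) (a b : ℤ) (hab : a < b)
    (s s' : ℤ) (hs : s ≤ s') (h1 : line B n π s a < line B n π s b) :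
    line B n π s' a < line B n π s' b := by
  by_contra h2
  obtain ⟨z1, h3, h4, h5, h6⟩ := ivt (fun x => line B n π x a < line B n π x b) hs h1 h2
  have hN : s' ≤ max (n : ℤ) s' := le_max_right _ _
  obtain ⟨z2, h7, h8, h9, h10⟩ := ivt (fun x => ¬ (line B n π x a < line B n π x b)) hN h2
    (by
      rw [line_fin hB _ (le_max_left _ _), line_fin hB _ (le_max_left _ _)]
      exact not_not.mpr hab)
  exact h.no2 hB (show z1 < z2 by omega) (h.flip hab.ne (fun hh => h6 (hh.mp h5)))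
    (h.flip hab.ne (fun hh => h10 (fun h11 => h9 (hh.mpr h11))))

end FpfLittle
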