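import Mathlib

/-!
# Abstract dynamics of fixed-point-free involution Little bumps

A configuration is a doubled wiring diagram `L` (position `s : ℤ`, label `a : ℤ` ↦ height), a token
slot `u`, and the letters `w z` of the slots `z > 0`.  The main theorem `FpfBump.three` says that
along a sequence of admissible moves no slot is visited three times.
-/

namespace FpfBump

/-- configuration -/
structure Cfg where
  /-- line heights: position, label -/
  L : ℤ → Equiv.Perm ℤ
  /-- the token slot -/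
  u : ℤ
  /-- letters of the slots `z > 0` -/
  w : ℤ → ℤ

/-- data fixed during the whole process -/
structure Frame where
  /-- the involution on labels -/
  pi : ℤ → ℤ
  /-- smaller label of the moving arc -/
  p : ℤ
  /-- larger label of the moving arc -/
  q : ℤ
  /-- number of slots -/
  n : ℤ
  hpq : p < q
  hp : pi p = q
  hq : pi q = p
  inv : ∀ a, pi (pi a) = a
  fpf : ∀ a, pi a ≠ a

/-- a configuration coming from a reduced diagram -/
structure Valid (F : Frame) (A : Cfg) : Prop where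
  mir : ∀ s a, A.L (-1 - s) a = A.L s (F.pi a)
  fin : ∀ s, F.n ≤ s → ∀ a, A.L s a = a
  up : ∀ a b, a < b → ∀ s s', s ≤ s' → A.L s a < A.L s b → A.L s' a < A.L s' b
  slot : ∀ z, 0 < z → z ≤ F.n → z ≠ A.u → z ≠ -A.u → ∀ a,
    A.L (z - 1) a = Equiv.swap (A.w z) (A.w z + 1) (A.L z a)
  blank : ∀ a, A.L (A.u - 1) a = A.L A.u a
  tok : A.L A.u F.q = A.w |A.u|
  u0 : A.u ≠ 0
  un : |A.u| ≤ F.n

/-- the stalling step (semi-reduced word) -/
structure Stall (F : Frame) (A B : Cfg) : Prop where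
  neg : A.u < 0
  adj : A.L A.u F.p = A.L A.u F.q + 1
  u' : B.u = -A.u
  L' : B.L = A.L
  w' : ∀ z, B.w z = if z = |A.u| then A.w z + 1 else A.w z

/-- `s` lies between the token slots `u` and `j` -/
def Btw (u j s : ℤ) : Prop := (u ≤ s ∧ s < j) ∨ (j ≤ s ∧ s < u)

/-- the moving step along the line `y`, from the slot `A.u` to the slot `j` -/
structure Move (F : Frame) (A B : Cfg) (y j : ℤ) : Prop where
  yp : y ≠ F.p
  yq : y ≠ F.q
  adj : A.L A.u y = A.L A.u F.q + 1
  j0 : j ≠ 0
  ju : j ≠ A.u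
  ju' : j ≠ -A.u
  u' : B.u = j
  w' : ∀ z, B.w z = if z = |j| then A.w z + 1 else A.w z
  cross : (A.L (j-1) F.q = A.w |j| ∧ A.L j F.q = A.w |j| + 1 ∧
      A.L (j-1) y = A.w |j| + 1 ∧ A.L j y = A.w |j|) ∨
    (A.L (j-1) F.q = A.w |j| + 1 ∧ A.L j F.q = A.w |j| ∧
      A.L (j-1) y = A.w |j| ∧ A.L j y = A.w |j| + 1)
  m1 : ∀ s, Btw A.u j s → B.L s F.q = A.L s y ∧ B.L s y = A.L s F.q
  m2 : ∀ s, ¬ Btw A.u j s → B.L s F.q = A.L s F.q ∧ B.L s y = A.L s y
  m3 : ∀ s, Btw A.u j (-1-s) → B.L s F.p = A.L s (F.pi y) ∧ B.L s (F.pi y) = A.L s F.p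
  m4 : ∀ s, ¬ Btw A.u j (-1-s) → B.L s F.p = A.L s F.p ∧ B.L s (F.pi y) = A.L s (F.pi y)
  m5 : ∀ s a, a ≠ F.p → a ≠ F.q → a ≠ y → a ≠ F.pi y → B.L s a = A.L s a

/-- a step -/
def Step (F : Frame) (A B : Cfg) : Prop := Stall F A B ∨ ∃ y j, Move F A B y j

/-- facts about a left move (`g = π y`) -/
structure LeftF (F : Frame) (A B : Cfg) (y g j : ℤ) : Prop where
  hy : F.q < y
  hg : g < F.p
  ju : j < A.u
  ju' : j ≠ -A.u
  j0 : j ≠ 0
  u' : B.u = j
  w' : ∀ z, B.w z = if z = |j| then A.w z + 1 else A.w z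
  a1 : ∀ s, j ≤ s → A.L s F.q < A.L s y
  a2 : ∀ s, s < j → A.L s y < A.L s F.q
  b1 : ∀ s, s < -j → A.L s F.p < A.L s g
  b2 : ∀ s, -j ≤ s → A.L s g < A.L s F.p
  R1 : ∀ s, j ≤ s → s < A.u → B.L s F.q = A.L s y ∧ B.L s y = A.L s F.q
  R0 : ∀ s, (s < j ∨ A.u ≤ s) → B.L s F.q = A.L s F.q ∧ B.L s y = A.L s y
  S1 : ∀ s, -A.u ≤ s → s < -j → B.L s F.p = A.L s g ∧ B.L s g = A.L s F.p
  S0 : ∀ s, (s < -A.u ∨ -j ≤ s) → B.L s F.p = A.L s F.p ∧ B.L s g = A.L s g
  oth : ∀ s a, a ≠ F.p → a ≠ F.q → a ≠ y → a ≠ g → B.L s a = A.L s a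
  adj : A.L A.u y = A.L A.u F.q + 1
  adjg : A.L (-A.u) g = A.L (-A.u) F.p + 1
  adjg' : A.L (-A.u - 1) g = A.L (-A.u - 1) F.p + 1
  c1 : A.L (j-1) F.q = A.w |j| + 1
  c2 : A.L j F.q = A.w |j|
  c3 : A.L (j-1) y = A.w |j|
  c4 : A.L j y = A.w |j| + 1
  d1 : A.L (-j-1) F.p = A.w |j|
  d2 : A.L (-j) F.p = A.w |j| + 1
  d3 : A.L (-j-1) g = A.w |j| + 1
  d4 : A.L (-j) g = A.w |j|

/-- facts about a right move (`g = π y`) -/
structure RightF (F : Frame) (A B : Cfg) (y g j : ℤ) : Prop where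
  hy : y < F.q
  yg : y ≠ g
  hg : F.p < g
  hgq : g ≠ F.q
  hyp : y ≠ F.p
  ju : A.u < j
  ju' : j ≠ -A.u
  j0 : j ≠ 0
  u' : B.u = j
  w' : ∀ z, B.w z = if z = |j| then A.w z + 1 else A.w z
  a1 : ∀ s, s < j → A.L s F.q < A.L s y
  a2 : ∀ s, j ≤ s → A.L s y < A.L s F.q
  b1 : ∀ s, -j ≤ s → A.L s F.p < A.L s g
  b2 : ∀ s, s < -j → A.L s g < A.L s F.p
  R1 : ∀ s, A.u ≤ s → s < j → B.L s F.q = A.L s y ∧ B.L s y = A.L s F.q
  R0 : ∀ s, (s < A.u ∨ j ≤ s) → B.L s F.q = A.L s F.q ∧ B.L s y = A.L s y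
  S1 : ∀ s, -j ≤ s → s < -A.u → B.L s F.p = A.L s g ∧ B.L s g = A.L s F.p
  S0 : ∀ s, (s < -j ∨ -A.u ≤ s) → B.L s F.p = A.L s F.p ∧ B.L s g = A.L s g
  oth : ∀ s a, a ≠ F.p → a ≠ F.q → a ≠ y → a ≠ g → B.L s a = A.L s a
  adj : A.L A.u y = A.L A.u F.q + 1
  adjg : A.L (-A.u) g = A.L (-A.u) F.p + 1
  adjg' : A.L (-A.u - 1) g = A.L (-A.u - 1) F.p + 1
  c1 : A.L (j-1) F.q = A.w |j|
  c2 : A.L j F.q = A.w |j| + 1
  c3 : A.L (j-1) y = A.w |j| + 1
  c4 : A.L j y = A.w |j|
  d1 : A.L (-j-1) F.p = A.w |j| + 1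
  d2 : A.L (-j) F.p = A.w |j|
  d3 : A.L (-j-1) g = A.w |j|
  d4 : A.L (-j) g = A.w |j| + 1

variable {F : Frame} {A B : Cfg}

lemma Valid.ne (_hA : Valid F A) {a b : ℤ} (h : a ≠ b) (s : ℤ) : A.L s a ≠ A.L s b :=
  fun h' => h ((A.L s).injective h')

/-- on positive positions `p` is below `q` -/
lemma Valid.pq (hA : Valid F A) (s : ℤ) (hs : 0 ≤ s) : A.L s F.p < A.L s F.q := by
  have h0 : A.L 0 F.p < A.L 0 F.q := by
    by_contra h
    have hne := hA.ne F.hpq.ne 0
    have h1 : A.L (-1) F.p = A.L 0 F.q := by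
      have := hA.mir 0 F.p
      rw [F.hp] at this; simpa using this
    have h2 : A.L (-1) F.q = A.L 0 F.p := by
      have := hA.mir 0 F.q
      rw [F.hq] at this; simpa using this
    have := hA.up F.p F.q F.hpq (-1) 0 (by norm_num) (by rw [h1, h2]; omega)
    omega
  exact hA.up F.p F.q F.hpq 0 s hs h0

/-- the mirrored slot of the token is blank, too -/
lemma Valid.blank' (hA : Valid F A) (a : ℤ) : A.L (-A.u - 1) a = A.L (-A.u) a := by
  have h := hA.blank (F.pi a)
  have h1 := hA.mir (A.u - 1) a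
  have h2 := hA.mir A.u a
  rw [show -1 - (A.u - 1) = -A.u by ring] at h1
  rw [show -1 - A.u = -A.u - 1 by ring] at h2
  rw [h1, h2, h]

lemma Valid.qp (hA : Valid F A) (s : ℤ) (hs : s < 0) : A.L s F.q < A.L s F.p := by
  have h := hA.pq (-1 - s) (by omega)
  have h1 := hA.mir s F.p
  have h2 := hA.mir s F.q
  rw [F.hp] at h1
  rw [F.hq] at h2
  omega

lemma move_cases (hA : Valid F A) {y j : ℤ} (hM : Move F A B y j) :
    LeftF F A B y (F.pi y) j ∨ RightF F A B y (F.pi y) j := by
  obtain ⟨yp, yq, adj, j0, ju, ju', u', w', cross, m1, m2, m3, m4, m5⟩ := hM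
  have hgp : F.pi y ≠ F.p := fun h => yq (by have := F.inv y; rw [h, F.hp] at this; exact this.symm)
  have hgq : F.pi y ≠ F.q := fun h => yp (by have := F.inv y; rw [h, F.hq] at this; exact this.symm)
  have mp : ∀ s, A.L (-1 - s) F.p = A.L s F.q := fun s => by rw [hA.mir, F.hp]
  have mq : ∀ s, A.L (-1 - s) F.q = A.L s F.p := fun s => by rw [hA.mir, F.hq]
  have mg : ∀ s, A.L (-1 - s) (F.pi y) = A.L s y := fun s => by rw [hA.mir, F.inv]
  have my : ∀ s, A.L (-1 - s) y = A.L s (F.pi y) := fun s => by rw [hA.mir]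
  have bl := hA.blank
  have adj' : A.L (A.u - 1) y = A.L (A.u - 1) F.q + 1 := by rw [bl, bl]; exact adj
  have adjg : A.L (-A.u) (F.pi y) = A.L (-A.u) F.p + 1 := by
    have h1 := mg (A.u - 1)
    have h2 := mp (A.u - 1)
    have e : -1 - (A.u - 1) = -A.u := by ring
    rw [e] at h1 h2
    omega
  have adjg' : A.L (-A.u - 1) (F.pi y) = A.L (-A.u - 1) F.p + 1 := by
    have h1 := mg (A.u)
    have h2 := mp (A.u)
    have e : -1 - (A.u) = -A.u - 1 := by ring
    rw [e] at h1 h2
    omega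
  have e1 : -1 - (j - 1) = -j := by ring
  have e2 : -1 - j = -j - 1 := by ring
  have k1 := mp (j-1)
  have k2 := mp j
  have k3 := mg (j-1)
  have k4 := mg j
  rw [e1] at k1 k3
  rw [e2] at k2 k4
  rcases lt_or_gt_of_ne yq with hlt | hgt
  · -- right move
    right
    have up := hA.up y F.q hlt
    have hgeu : ∀ s, s ≤ A.u → A.L s F.q < A.L s y := by
      intro s hs
      by_contra hcon
      have hne := hA.ne yq s
      have := up s A.u hs (by omega)
      omega
    have hju : A.u < j := by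
      by_contra hcon
      have h1 := hgeu j (by omega)
      have h2 := hgeu (j-1) (by omega)
      rcases cross with c | c <;> omega
    have hc : A.L (j-1) F.q = A.w |j| ∧ A.L j F.q = A.w |j| + 1 ∧
      A.L (j-1) y = A.w |j| + 1 ∧ A.L j y = A.w |j| := by
      rcases cross with c | c
      · exact c
      · exfalso
        have := up (j-1) j (by omega) (by omega)
        omega
    obtain ⟨c1, c2, c3, c4⟩ := hc
    have a1 : ∀ s, s < j → A.L s F.q < A.L s y := by
      intro s hs
      by_contra hcon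
      have hne := hA.ne yq s
      have := up s (j-1) (by omega) (by omega)
      omega
    have a2 : ∀ s, j ≤ s → A.L s y < A.L s F.q := by
      intro s hs
      exact up j s hs (by omega)
    have b1 : ∀ s, -j ≤ s → A.L s F.p < A.L s (F.pi y) := by
      intro s hs
      have h := a1 (-1 - s) (by omega)
      rw [mq s, my s] at h
      exact h
    have b2 : ∀ s, s < -j → A.L s (F.pi y) < A.L s F.p := by
      intro s hs
      have h := a2 (-1 - s) (by omega)
      rw [mq s, my s] at h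
      exact h
    have hg : F.p < F.pi y := by
      have h := b1 (max F.n (-j)) (le_max_right _ _)
      rw [hA.fin _ (le_max_left _ _), hA.fin _ (le_max_left _ _)] at h
      exact h
    refine ⟨hlt, (F.fpf y).symm, hg, hgq, yp, hju, ju', j0, u', w', a1, a2, b1, b2, ?_, ?_, ?_, ?_, m5, adj, adjg, adjg',
      c1, c2, c3, c4, ?_, ?_, ?_, ?_⟩
    · intro s h1 h2; exact m1 s (Or.inl ⟨h1, h2⟩)
    · intro s h; exact m2 s (by unfold Btw; omega)
    · intro s h1 h2; exact m3 s (by unfold Btw; omega)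
    · intro s h; exact m4 s (by unfold Btw; omega)
    · omega
    · omega
    · omega
    · omega
  · left
    have up := hA.up F.q y hgt
    have hgeu : ∀ s, A.u ≤ s → A.L s F.q < A.L s y := by
      intro s hs
      exact up A.u s hs (by omega)
    have hju : j < A.u := by
      by_contra hcon
      have h1 := hgeu j (by omega)
      have h2 := hgeu (j-1) (by omega)
      rcases cross with c | c <;> omega
    have hc : A.L (j-1) F.q = A.w |j| + 1 ∧ A.L j F.q = A.w |j| ∧
      A.L (j-1) y = A.w |j| ∧ A.L j y = A.w |j| + 1 := by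
      rcases cross with c | c
      · exfalso
        have := up (j-1) j (by omega) (by omega)
        omega
      · exact c
    obtain ⟨c1, c2, c3, c4⟩ := hc
    have a1 : ∀ s, j ≤ s → A.L s F.q < A.L s y := by
      intro s hs
      exact up j s hs (by omega)
    have a2 : ∀ s, s < j → A.L s y < A.L s F.q := by
      intro s hs
      by_contra hcon
      have hne := hA.ne yq s
      have := up s (j-1) (by omega) (by omega)
      omega
    have b1 : ∀ s, s < -j → A.L s F.p < A.L s (F.pi y) := by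
      intro s hs
      have h := a1 (-1 - s) (by omega)
      rw [mq s, my s] at h
      exact h
    have b2 : ∀ s, -j ≤ s → A.L s (F.pi y) < A.L s F.p := by
      intro s hs
      have h := a2 (-1 - s) (by omega)
      rw [mq s, my s] at h
      exact h
    have hg : F.pi y < F.p := by
      have h := b2 (max F.n (-j)) (le_max_right _ _)
      rw [hA.fin _ (le_max_left _ _), hA.fin _ (le_max_left _ _)] at h
      exact h
    refine ⟨hgt, hg, hju, ju', j0, u', w', a1, a2, b1, b2, ?_, ?_, ?_, ?_, m5, adj, adjg, adjg',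
      c1, c2, c3, c4, ?_, ?_, ?_, ?_⟩
    · intro s h1 h2; exact m1 s (Or.inr ⟨h1, h2⟩)
    · intro s h; exact m2 s (by unfold Btw; omega)
    · intro s h1 h2; exact m3 s (by unfold Btw; omega)
    · intro s h; exact m4 s (by unfold Btw; omega)
    · omega
    · omega
    · omega
    · omega

/-- slot facts in linear form -/
lemma Valid.slot_lin (hA : Valid F A) {z : ℤ} (hz : 0 < z) (hn : z ≤ F.n) (h1 : z ≠ A.u)
    (h2 : z ≠ -A.u) (a : ℤ) :
    (A.L (z-1) a = A.w z + 1 ∧ A.L z a = A.w z) ∨ (A.L (z-1) a = A.w z ∧ A.L z a = A.w z + 1) ∨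
    (A.L (z-1) a = A.L z a ∧ A.L z a ≠ A.w z ∧ A.L z a ≠ A.w z + 1) := by
  have h := hA.slot z hz hn h1 h2 a
  rw [Equiv.swap_apply_def] at h
  split_ifs at h with h3 h4
  · left; exact ⟨h, h3⟩
  · right; left; exact ⟨h, h4⟩
  · right; right; exact ⟨h, h3, h4⟩

/-- case distinction for a step -/
lemma step_cases (hA : Valid F A) (h : Step F A B) :
    Stall F A B ∨ (∃ y g j, LeftF F A B y g j) ∨ (∃ y g j, RightF F A B y g j) := by
  rcases h with h | ⟨y, j, h⟩
  · exact Or.inl h
  · rcases move_cases hA h with h | h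
    · exact Or.inr (Or.inl ⟨_, _, _, h⟩)
    · exact Or.inr (Or.inr ⟨_, _, _, h⟩)

lemma step_q (hA : Valid F A) (h : Step F A B) (s : ℤ) : A.L s F.q ≤ B.L s F.q := by
  rcases step_cases hA h with h | ⟨y, g, j, h⟩ | ⟨y, g, j, h⟩
  · rw [h.L']
  · by_cases hs : j ≤ s ∧ s < A.u
    · have := h.R1 s hs.1 hs.2
      have := h.a1 s hs.1
      omega
    · have := (h.R0 s (by omega)).1
      omega
  · by_cases hs : A.u ≤ s ∧ s < j
    · have := h.R1 s hs.1 hs.2
      have := h.a1 s hs.2
      omega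
    · have := (h.R0 s (by omega)).1
      omega

lemma step_p (hA : Valid F A) (h : Step F A B) (s : ℤ) : A.L s F.p ≤ B.L s F.p := by
  rcases step_cases hA h with h | ⟨y, g, j, h⟩ | ⟨y, g, j, h⟩
  · rw [h.L']
  · by_cases hs : -A.u ≤ s ∧ s < -j
    · have := h.S1 s hs.1 hs.2
      have := h.b1 s hs.2
      omega
    · have := (h.S0 s (by omega)).1
      omega
  · by_cases hs : -j ≤ s ∧ s < -A.u
    · have := h.S1 s hs.1 hs.2
      have := h.b1 s hs.1
      omega
    · have := (h.S0 s (by omega)).1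
      omega

lemma step_w (hA : Valid F A) (h : Step F A B) (z : ℤ) : A.w z ≤ B.w z := by
  rcases step_cases hA h with h | ⟨y, g, j, h⟩ | ⟨y, g, j, h⟩ <;>
  · rw [h.w']; split_ifs <;> omega

/-- invariants for Lemma G -/
structure InvG (F : Frame) (S : Cfg) (m : ℤ) (A : Cfg) : Prop where
  M : ∀ x, S.L x F.q ≤ A.L x F.q
  W : ∀ z, S.w z ≤ A.w z
  Fr : ∀ x, 0 ≤ x → x < m → A.L x F.q = S.L x F.q → x < A.u
  Z : ∀ x, 0 ≤ x → x < m → ∀ g, g ≠ F.p → g ≠ F.q → A.L x g = S.L x F.q →
    A.L x F.p < A.L x g → F.q < g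
  I : ∀ x, 0 ≤ x → x < m → A.L x F.p = S.L x F.q → -A.u ≤ x
  N : ∀ x, S.L x F.p ≤ A.L x F.p
  I2 : ∀ x, 0 ≤ x → A.L x F.p = S.L x F.p → -A.u ≤ x

lemma InvG.base {S : Cfg} (hS : Valid F S) (hu : 0 < S.u) : InvG F S S.u S where
  M := fun _ => le_rfl
  W := fun _ => le_rfl
  Fr := fun x _ h _ => h
  Z := fun x _ _ g _ hq h => absurd h (hS.ne hq x)
  I := fun x _ _ h => absurd h (hS.ne F.hpq.ne x)
  N := fun _ => le_rfl
  I2 := fun x hx _ => by omega

lemma InvG.step {S : Cfg} {m : ℤ} (hA : Valid F A) (hI : InvG F S m A) (h : Step F A B) :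
    InvG F S m B := by
  have hq := step_q hA h
  have hp := step_p hA h
  have hw := step_w hA h
  have M' : ∀ x, S.L x F.q ≤ B.L x F.q := fun x => (hI.M x).trans (hq x)
  have W' : ∀ z, S.w z ≤ B.w z := fun x => (hI.W x).trans (hw x)
  have N' : ∀ x, S.L x F.p ≤ B.L x F.p := fun x => (hI.N x).trans (hp x)
  rcases step_cases hA h with h | ⟨y, g, j, h⟩ | ⟨y, g, j, h⟩
  · -- stall
    have hu := h.u'
    have hneg := h.neg
    refine ⟨M', W', ?_, ?_, ?_, N', ?_⟩
    · intro x hx hxm hh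
      rw [h.L'] at hh
      have := hI.Fr x hx hxm hh
      omega
    · intro x hx hxm g gp gq h1 h2
      rw [h.L'] at h1 h2
      exact hI.Z x hx hxm g gp gq h1 h2
    · intro x hx hxm hh; omega
    · intro x hx hh; omega
  · -- left
    have hu := h.u'
    have hju := h.ju
    have e1 := h.hy
    have e2 := h.hg
    have e3 := F.hpq
    refine ⟨M', W', ?_, ?_, ?_, N', ?_⟩
    · intro x hx hxm hh
      have h1 := hI.M x
      have h2 := hq x
      have h3 := hI.Fr x hx hxm (by omega)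
      by_contra hc
      have h4 := h.R1 x (by omega) h3
      have h5 := h.a1 x (by omega)
      omega
    · intro x hx hxm c cp cq h1 h2
      by_cases hc : c = y
      · subst hc; exact e1
      by_cases hc' : c = g
      · subst hc'
        by_cases hxr : -A.u ≤ x ∧ x < -j
        · have h3 := h.S1 x hxr.1 hxr.2
          have h4 := h.b1 x hxr.2
          omega
        · have h3 := h.S0 x (by omega)
          rw [h3.2] at h1
          exact hI.Z x hx hxm c cp cq h1 (by omega)
      · have h3 := h.oth x c cp cq hc hc'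
        have h4 := hp x
        rw [h3] at h1 h2
        exact hI.Z x hx hxm c cp cq h1 (by omega)
    · intro x hx hxm hh
      by_cases hxr : -A.u ≤ x ∧ x < -j
      · have h3 := h.S1 x hxr.1 hxr.2
        have h4 := h.b1 x hxr.2
        have h5 := hI.Z x hx hxm g (by omega) (by omega) (by omega) h4
        omega
      · have h3 := h.S0 x (by omega)
        have h4 := hI.I x hx hxm (by omega)
        omega
    · intro x hx hh
      by_cases hxr : -A.u ≤ x ∧ x < -j
      · have h3 := h.S1 x hxr.1 hxr.2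
        have h4 := h.b1 x hxr.2
        have h5 := hI.N x
        omega
      · have h3 := h.S0 x (by omega)
        have h4 := hI.I2 x hx (by omega)
        omega
  · -- right
    have hu := h.u'
    have hju := h.ju
    have e1 := h.hy
    have e2 := h.hg
    have e3 := F.hpq
    refine ⟨M', W', ?_, ?_, ?_, N', ?_⟩
    · intro x hx hxm hh
      have h1 := hI.M x
      have h2 := hq x
      have h3 := hI.Fr x hx hxm (by omega)
      omega
    · intro x hx hxm c cp cq h1 h2
      by_cases hc : c = y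
      · subst hc
        by_cases hxr : A.u ≤ x ∧ x < j
        · have h3 := h.R1 x hxr.1 hxr.2
          have h4 := h.a1 x hxr.2
          have h5 := hI.Fr x hx hxm (by omega)
          omega
        · have h3 := h.R0 x (by omega)
          have h4 := hp x
          rw [h3.2] at h1
          exact hI.Z x hx hxm c cp cq h1 (by omega)
      by_cases hc' : c = g
      · subst hc'
        by_cases hxr : -j ≤ x ∧ x < -A.u
        · have h3 := h.S1 x hxr.1 hxr.2
          have h4 := h.b1 x hxr.1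
          omega
        · have h3 := h.S0 x (by omega)
          rw [h3.2] at h1
          exact hI.Z x hx hxm c cp cq h1 (by omega)
      · have h3 := h.oth x c cp cq hc hc'
        have h4 := hp x
        rw [h3] at h1 h2
        exact hI.Z x hx hxm c cp cq h1 (by omega)
    · intro x hx hxm hh
      by_cases hxr : -j ≤ x ∧ x < -A.u
      · omega
      · have h3 := h.S0 x (by omega)
        have h4 := hI.I x hx hxm (by omega)
        omega
    · intro x hx hh
      by_cases hxr : -j ≤ x ∧ x < -A.u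
      · omega
      · have h3 := h.S0 x (by omega)
        have h4 := hI.I2 x hx (by omega)
        omega

/-- sign propagation -/
lemma InvG.sign {S : Cfg} {m : ℤ} (hS : Valid F S) (hA : Valid F A) (hI : InvG F S m A)
    (hm : m = S.u) (hu : A.u < 0) (hun : -A.u ≤ F.n) (x : ℤ) (hx : 0 ≤ x) (hxm : x + 1 < m)
    (hxu : x + 1 < -A.u) (h : A.L x F.p < S.L x F.q) : A.L (x+1) F.p < S.L (x+1) F.q := by
  by_contra hcon
  have h1 : A.L (x+1) F.p ≠ S.L (x+1) F.q := fun hh => by
    have := hI.I (x+1) (by omega) hxm hh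
    omega
  have s1 := hA.slot_lin (z := x+1) (by omega) (by omega) (by omega) (by omega) F.p
  have s2 := hS.slot_lin (z := x+1) (by omega) (by omega) (by omega) (by omega) F.q
  have e : x + 1 - 1 = x := by ring
  rw [e] at s1 s2
  have hw := hI.W (x+1)
  obtain ⟨g, hg⟩ := (A.L x).surjective (A.L x F.p + 1)
  have gp : g ≠ F.p := fun hh => by rw [hh] at hg; omega
  have gq : g ≠ F.q := fun hh => by
    rw [hh] at hg
    have h3 := hI.M x
    have h4 : A.L x F.q ≠ S.L x F.q := fun h5 => by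
      have := hI.Fr x hx (by omega) h5
      omega
    omega
  have hz := hI.Z x hx (by omega) g gp gq (by omega) (by omega)
  have hup := hA.up F.p g (F.hpq.trans hz) x (x+1) (by omega) (by omega)
  have s3 := hA.slot_lin (z := x+1) (by omega) (by omega) (by omega) (by omega) g
  rw [e] at s3
  omega

/-- Lemma G, core -/
lemma InvG.final {S : Cfg} (hS : Valid F S) (hA : Valid F A) (hI : InvG F S S.u A)
    (hSu : 0 < S.u) (hSadj : S.L (S.u - 1) F.q = S.L (S.u - 1) F.p + 1)
    (hu : A.u < 0) (hAadj : A.L (-A.u - 1) F.q = A.L (-A.u - 1) F.p + 1)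
    (x : ℤ) (hx : 0 ≤ x) (hxS : x < S.u) (hxA : x < -A.u) : S.L x F.q < A.L x F.p := by
  have hun : -A.u ≤ F.n := by have := hA.un; rw [abs_of_neg hu] at this; exact this
  by_contra hcon
  have h1 : A.L x F.p ≠ S.L x F.q := fun hh => by
    have := hI.I x hx hxS hh
    omega
  have key : ∀ d : ℕ, x + d < S.u → x + d < -A.u → A.L (x+d) F.p < S.L (x+d) F.q := by
    intro d
    induction d with
    | zero => intro _ _; simp only [Nat.cast_zero, add_zero]; omega
    | succ d ih =>
      intro h2 h3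
      push_cast at h2 h3 ⊢
      have h4 := ih (by omega) (by omega)
      have h5 := hI.sign hS hA rfl hu hun (x+d) (by omega) (by omega) (by omega) h4
      rw [show x + (d + 1 : ℤ) = x + d + 1 by ring]
      exact h5
  rcases le_or_gt (-A.u) S.u with hle | hgt
  · have h2 := key ((-A.u - 1 - x).toNat) (by omega) (by omega)
    rw [show x + ((-A.u - 1 - x).toNat : ℤ) = -A.u - 1 by omega] at h2
    have h3 := hI.M (-A.u-1)
    have h4 : A.L (-A.u-1) F.q ≠ S.L (-A.u-1) F.q := fun h5 => by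
      have := hI.Fr (-A.u-1) (by omega) (by omega) h5
      omega
    omega
  · have h2 := key ((S.u - 1 - x).toNat) (by omega) (by omega)
    rw [show x + ((S.u - 1 - x).toNat : ℤ) = S.u - 1 by omega] at h2
    have h3 := hI.N (S.u-1)
    have h4 := hI.I2 (S.u - 1) (by omega) (by omega)
    omega

end FpfBump
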