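import Pool.Agent.FpfBump.Dyn

/-!
# Abstract dynamics, Lemma H'
-/

namespace FpfBump

variable {F : Frame} {A B : Cfg}

/-- invariants for Lemma H' -/
structure InvH (F : Frame) (S : Cfg) (k : ℤ) (A : Cfg) : Prop where
  M : ∀ x, S.L x F.q ≤ A.L x F.q
  W : ∀ z, S.w z ≤ A.w z
  K : ∀ x, k ≤ x → ∀ g, g ≠ F.p → g ≠ F.q → A.L x F.p < A.L x g →
    (A.L x g < S.L x F.q ↔ S.L x g < S.L x F.q)
  Z : ∀ g, g ≠ F.p → g ≠ F.q → ∀ y0, k ≤ y0 → ∀ x, y0 < x → A.L y0 g = S.L y0 F.q →
    A.L x F.p < A.L x g → A.L x g ≤ S.L x F.q
  Fr : ∀ y0, k ≤ y0 → A.L y0 F.q = S.L y0 F.q → A.u ≤ y0 ∧ ∀ x, y0 ≤ x → A.L x F.q = S.L x F.q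
  B1 : ∀ x, k ≤ x → A.L x F.p ≤ S.L x F.q
  B2 : k < -A.u → A.L (-A.u) F.p < S.L (-A.u) F.q ∧ A.L (-A.u-1) F.p < S.L (-A.u-1) F.q
  Q1 : ∀ z, k < z → ∀ h, h ≠ F.p → h ≠ F.q → A.L (z-1) F.p + 1 = A.L z F.p →
    A.L (z-1) h = A.L z F.p → A.L z h = A.L (z-1) F.p → -A.u < z → S.L z h < S.L z F.q
  Q2 : ∀ z, k < z → ∀ h, h ≠ F.p → h ≠ F.q → A.L (z-1) F.p = A.L z F.p + 1 →
    A.L (z-1) h = A.L z F.p → A.L z h = A.L (z-1) F.p → z < -A.u →
    S.L (z-1) h < S.L (z-1) F.q

lemma InvH.base {S : Cfg} (hS : Valid F S) (hu : 0 < S.u) : InvH F S S.u S where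
  M := fun _ => le_rfl
  W := fun _ => le_rfl
  K := fun _ _ _ _ _ _ => Iff.rfl
  Z := fun g _ hq y0 _ x _ h => absurd h (hS.ne hq y0)
  Fr := fun y0 h _ => ⟨h, fun _ _ => rfl⟩
  B1 := fun x hx => (hS.pq x (by omega)).le
  B2 := fun h => by omega
  Q1 := fun z hz h _ _ h1 h2 h3 _ => by have := hS.pq z (by omega); omega
  Q2 := fun z hz h _ _ h1 h2 h3 _ => by have := hS.pq (z-1) (by omega); omega

/-- the value at the far right identifies labels -/
lemma InvH.orient {S : Cfg} {k : ℤ} (hS : Valid F S) (hA : Valid F A) (hI : InvH F S k A)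
    {g : ℤ} (gp : F.p < g) (gq : g ≠ F.q) (y0 : ℤ) (hy : k ≤ y0)
    (h : A.L y0 g = S.L y0 F.q) : g < F.q := by
  have h1 := hI.Z g (by omega) gq y0 hy (max F.n (y0+1)) (lt_of_lt_of_le (by omega) (le_max_right _ _)) h
  rw [hA.fin _ (le_max_left _ _), hA.fin _ (le_max_left _ _), hS.fin _ (le_max_left _ _)] at h1
  have := h1 gp
  omega

/-- stall step -/
lemma InvH.stall {S : Cfg} {k : ℤ} (hk : 0 < k) (hI : InvH F S k A) (h : Stall F A B)
    (hno : -A.u < k) : InvH F S k B := by
  have hu := h.u'
  have hneg := h.neg
  have hw : ∀ z, A.w z ≤ B.w z := fun z => by rw [h.w']; split_ifs <;> omega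
  obtain ⟨M, W, K, Z, Fr, B1, B2, Q1, Q2⟩ := hI
  refine ⟨?_, fun z => (W z).trans (hw z), ?_, ?_, ?_, ?_, ?_, ?_, ?_⟩
  · rw [h.L']; exact M
  · rw [h.L']; exact K
  · rw [h.L']; exact Z
  · intro y0 hy h1
    rw [h.L'] at h1 ⊢
    exact ⟨by omega, (Fr y0 hy h1).2⟩
  · rw [h.L']; exact B1
  · intro h1; omega
  · intro z hz c cp cq h1 h2 h3 h4
    rw [h.L'] at h1 h2 h3
    exact Q1 z hz c cp cq h1 h2 h3 (by omega)
  · intro z hz c cp cq h1 h2 h3 h4
    omega

/-- left move -/
lemma InvH.left {S : Cfg} {k y g j : ℤ} (hk : 0 < k) (hSu : S.u = k) (hS : Valid F S)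
    (hA : Valid F A) (hI : InvH F S k A) (h : LeftF F A B y g j) (hB : Valid F B)
    (hP : B.L k F.p ≤ S.L k F.q) : InvH F S k B := by
  have hu := h.u'
  have hju := h.ju
  have hju' := h.ju'
  have e1 := h.hy
  have e2 := h.hg
  have e3 := F.hpq
  have hj0 := h.j0
  have jn : |j| ≤ F.n := by have := hB.un; rwa [hu] at this
  have R1 := h.R1
  have R0 := h.R0
  have S1 := h.S1
  have S0 := h.S0
  have a1 := h.a1
  have a2 := h.a2
  have b1 := h.b1
  have b2 := h.b2
  obtain ⟨M, W, K, Z, Fr, B1, B2, Q1, Q2⟩ := hI
  -- values of the new configuration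
  have Bq : ∀ s, A.L s F.q ≤ B.L s F.q := by
    intro s
    by_cases hs : j ≤ s ∧ s < A.u
    · have := R1 s hs.1 hs.2; have := a1 s hs.1; omega
    · have := R0 s (by omega); omega
  have Bp : ∀ s, A.L s F.p ≤ B.L s F.p := by
    intro s
    by_cases hs : -A.u ≤ s ∧ s < -j
    · have := S1 s hs.1 hs.2; have := b1 s hs.2; omega
    · have := S0 s (by omega); omega
  have M' : ∀ x, S.L x F.q ≤ B.L x F.q := fun x => (M x).trans (Bq x)
  have W' : ∀ z, S.w z ≤ B.w z := fun z => (W z).trans (by rw [h.w']; split_ifs <;> omega)
  -- an upper bound for g at the left end of the swept mirrored interval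
  have hstart : ∀ x, k ≤ x → -A.u ≤ x → x < -j → ¬ (S.L x g < S.L x F.q) →
      A.L x g ≤ S.L x F.q := by
    intro x hx hx1 hx2 hnot
    -- S: g < p < q, so g above q at x implies above q at all smaller positions
    have hup : ∀ s, s ≤ x → ¬ (S.L s g < S.L s F.q) := fun s hs hh =>
      hnot (hS.up g F.q (by omega) s x hs hh)
    rcases le_or_gt (-A.u) k with hle | hgt
    · have h1 := S1 k hle (by omega)
      have h2 := b1 k (by omega)
      have h3 := (K k le_rfl g (by omega) (by omega) h2).not.mpr (hup k hx)
      rcases eq_or_lt_of_le hx with heq | hlt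
      · subst heq; omega
      · exact Z g (by omega) (by omega) k le_rfl x hlt (by omega) (b1 x hx2)
    · have h1 := B2 hgt
      have h2 := h.adjg
      have h3 := (K (-A.u) hgt.le g (by omega) (by omega) (b1 _ (by omega))).not.mpr (hup _ hx1)
      rcases eq_or_lt_of_le hx1 with heq | hlt
      · rw [← heq]; omega
      · exact Z g (by omega) (by omega) (-A.u) hgt.le x hlt (by omega) (b1 x hx2)
  -- B1
  have B1' : ∀ x, k ≤ x → B.L x F.p ≤ S.L x F.q := by
    intro x hx
    by_cases hs : -A.u ≤ x ∧ x < -j
    · have h1 := S1 x hs.1 hs.2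
      have h2 := b1 x hs.2
      rw [h1.1]
      by_cases hc : S.L x g < S.L x F.q
      · exact ((K x hx g (by omega) (by omega) h2).mpr hc).le
      · exact hstart x hx hs.1 hs.2 hc
    · have h1 := S0 x (by omega)
      rw [h1.1]
      exact B1 x hx
  refine ⟨M', W', ?_, ?_, ?_, B1', ?_, ?_, ?_⟩
  · -- K
    intro x hx c cp cq hlt
    have hpx := hA.pq x (by omega)
    have hBp := Bp x
    by_cases hc : c = y
    · subst hc
      by_cases hs : j ≤ x ∧ x < A.u
      · have h1 := R1 x hs.1 hs.2
        have h2 := a1 x hs.1
        have h3 := M x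
        have h4 := K x hx c cp cq (by omega)
        constructor
        · intro h5; omega
        · intro h5; have := h4.mpr h5; omega
      · have h1 := R0 x (by omega)
        rw [h1.2] at hlt ⊢
        exact K x hx c cp cq (by omega)
    by_cases hc' : c = g
    · subst hc'
      by_cases hs : -A.u ≤ x ∧ x < -j
      · have h1 := S1 x hs.1 hs.2
        have h2 := b1 x hs.2
        omega
      · have h1 := S0 x (by omega)
        rw [h1.2] at hlt ⊢
        exact K x hx c cp cq (by omega)
    · have h1 := h.oth x c cp cq hc hc'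
      rw [h1] at hlt ⊢
      exact K x hx c cp cq (by omega)
  · -- Z
    intro c cp cq y0 hy0 x hx h1 h2
    have hBp := Bp x
    have hpx := hA.pq x (by omega)
    -- value of c at y0
    have hy0v : A.L y0 c = S.L y0 F.q := by
      by_cases hc : c = y
      · subst hc
        by_cases hs : j ≤ y0 ∧ y0 < A.u
        · have h3 := R1 y0 hs.1 hs.2
          have h4 := Fr y0 hy0 (by omega)
          omega
        · have h3 := R0 y0 (by omega)
          omega
      by_cases hc' : c = g
      · subst hc'
        by_cases hs : -A.u ≤ y0 ∧ y0 < -j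
        · have h3 := S1 y0 hs.1 hs.2
          have h4 := b1 y0 hs.2
          have h5 := B1' y0 hy0
          omega
        · have h3 := S0 y0 (by omega)
          omega
      · have h3 := h.oth y0 c cp cq hc hc'
        omega
    by_cases hc : c = y
    · subst hc
      by_cases hs : j ≤ x ∧ x < A.u
      · have h3 := R1 x hs.1 hs.2
        have h4 := a1 x hs.1
        have h5 := M x
        have h6 := Z c cp cq y0 hy0 x hx hy0v (by omega)
        omega
      · have h3 := R0 x (by omega)
        rw [h3.2] at h2 ⊢
        exact Z c cp cq y0 hy0 x hx hy0v (by omega)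
    by_cases hc' : c = g
    · subst hc'
      by_cases hs : -A.u ≤ x ∧ x < -j
      · have h3 := S1 x hs.1 hs.2
        have h4 := b1 x hs.2
        omega
      · have h3 := S0 x (by omega)
        rw [h3.2] at h2 ⊢
        exact Z c cp cq y0 hy0 x hx hy0v (by omega)
    · have h3 := h.oth x c cp cq hc hc'
      rw [h3] at h2 ⊢
      exact Z c cp cq y0 hy0 x hx hy0v (by omega)
  · -- Fr
    intro y0 hy0 h1
    have h2 := M y0
    have h3 := Bq y0
    have h4 := Fr y0 hy0 (by omega)
    refine ⟨by omega, ?_⟩
    intro x hx
    have h5 := R0 x (by omega)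
    have h6 := h4.2 x hx
    omega
  · -- B2
    rw [hu]
    intro hkj
    have hjabs : |j| = -j := abs_of_neg (by omega)
    have d1 := h.d1
    have d2 := h.d2
    have d3 := h.d3
    have d4 := h.d4
    rw [hjabs] at d1 d2 d3 d4 jn
    have t1 := (S1 (-j-1) (by omega) (by omega)).1
    have t2 := (S0 (-j) (by omega)).1
    have hq1 := Q1 (-j) hkj g (by omega) (by omega) (by omega) (by omega) (by omega) (by omega)
    have hWz := W (-j)
    have hsl := hS.slot_lin (z := -j) (by omega) jn (by omega) (by omega) F.q
    have hslg := hS.slot_lin (z := -j) (by omega) jn (by omega) (by omega) g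
    have hK := K (-j-1) (by omega) g (by omega) (by omega) (by omega)
    have hcl : S.L (-j-1) g < S.L (-j-1) F.q := by
      by_contra hcon
      have h1 := hstart (-j-1) (by omega) (by omega) (by omega) hcon
      have h2 : S.L (-j-1) g ≠ S.L (-j-1) F.q := hS.ne (by omega) _
      omega
    have h3 := hK.mpr hcl
    have h4 := B1 (-j) hkj.le
    refine ⟨?_, ?_⟩
    · omega
    · omega
  · -- Q1
    rw [hu]
    intro z hz c cp cq h1 h2 h3 h4
    have hBp := Bp z
    have hc1 := B1' z hz.le
    have hc2 := B1' (z-1) (by omega)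
    have hMz := M z
    have hMz' := M (z-1)
    -- c is not affected
    have hcB : B.L z c = A.L z c := by
      by_cases hc : c = y
      · subst hc
        by_cases hs : j ≤ z ∧ z < A.u
        · have h5 := R1 z hs.1 hs.2
          omega
        · exact (R0 z (by omega)).2
      by_cases hc' : c = g
      · subst hc'
        exact (S0 z (by omega)).2
      · exact h.oth z c cp cq hc hc'
    have hcB' : B.L (z-1) c = A.L (z-1) c := by
      by_cases hc : c = y
      · subst hc
        by_cases hs : j ≤ z-1 ∧ z-1 < A.u
        · have h5 := R1 (z-1) hs.1 hs.2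
          -- then z = A.u, blank slot
          have hzu : z = A.u := by
            by_contra hne
            have h6 := R1 z (by omega) (by omega)
            omega
          subst hzu
          have bq := hA.blank F.q
          have bc := hA.blank c
          have := a1 A.u (by omega)
          omega
        · exact (R0 (z-1) (by omega)).2
      by_cases hc' : c = g
      · subst hc'
        by_cases hs : -A.u ≤ z-1 ∧ z-1 < -j
        · have h5 := S1 (z-1) hs.1 hs.2
          have := b1 (z-1) hs.2
          omega
        · exact (S0 (z-1) (by omega)).2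
      · exact h.oth (z-1) c cp cq hc hc'
    have tz := S0 z (by omega)
    by_cases hs : -A.u ≤ z - 1 ∧ z - 1 < -j
    · omega
    · have tz' := S0 (z-1) (by omega)
      exact Q1 z hz c cp cq (by omega) (by omega) (by omega) (by omega)
  · -- Q2
    rw [hu]
    intro z hz c cp cq h1 h2 h3 h4
    have hc2 := B1' (z-1) (by omega)
    have hMz := M z
    have hMz' := M (z-1)
    have hBpz := Bp z
    have hBpz' := Bp (z-1)
    have hcB : B.L z c = A.L z c := by
      by_cases hc : c = y
      · subst hc
        by_cases hs : j ≤ z ∧ z < A.u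
        · have h5 := R1 z hs.1 hs.2
          have h6 := R1 (z-1) (by omega) (by omega)
          omega
        · exact (R0 z (by omega)).2
      by_cases hc' : c = g
      · subst hc'
        by_cases hs : -A.u ≤ z ∧ z < -j
        · have h5 := S1 z hs.1 hs.2
          have := b1 z hs.2
          by_cases hs' : -A.u ≤ z - 1
          · have h6 := S1 (z-1) hs' (by omega)
            have := b1 (z-1) (by omega)
            omega
          · -- z = -A.u
            have hzu : z = -A.u := by omega
            have h6 := S0 (z-1) (by omega)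
            have h7 := h.adjg
            have h8 := h.adjg'
            rw [← hzu] at h7 h8
            omega
        · exact (S0 z (by omega)).2
      · exact h.oth z c cp cq hc hc'
    have hcB' : B.L (z-1) c = A.L (z-1) c := by
      by_cases hc : c = y
      · subst hc
        by_cases hs : j ≤ z-1 ∧ z-1 < A.u
        · have h5 := R1 (z-1) hs.1 hs.2
          omega
        · exact (R0 (z-1) (by omega)).2
      by_cases hc' : c = g
      · subst hc'
        by_cases hs : -A.u ≤ z-1 ∧ z-1 < -j
        · have h5 := S1 (z-1) hs.1 hs.2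
          have h6 := S1 z (by omega) (by omega)
          have := b1 (z-1) hs.2
          have := b1 z (by omega)
          omega
        · exact (S0 (z-1) (by omega)).2
      · exact h.oth (z-1) c cp cq hc hc'
    by_cases hs : -A.u ≤ z - 1
    · -- both z-1 and z are swept
      have h5 := S1 (z-1) hs (by omega)
      have h6 := S1 z (by omega) (by omega)
      have h7 := b1 (z-1) (by omega)
      have h8 := b1 z (by omega)
      have hK := K (z-1) (by omega) c cp cq
      have hpne : A.L (z-1) F.p ≠ A.L (z-1) c := hA.ne cp.symm _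
      exact (hK (by omega)).mp (by omega)
    by_cases hs2 : z = -A.u
    · have h5 := S0 (z-1) (by omega)
      have h6 := S1 z (by omega) (by omega)
      have h7 := h.adjg
      have h8 := h.adjg'
      rw [← hs2] at h7 h8
      have h9 := hA.blank' F.p
      rw [← hs2] at h9
      omega
    · have h5 := S0 (z-1) (by omega)
      have h6 := S0 z (by omega)
      exact Q2 z hz c cp cq (by omega) (by omega) (by omega) (by omega)

/-- right move -/
lemma InvH.right {S : Cfg} {k y g j : ℤ} (hk : 0 < k) (hSu : S.u = k) (hS : Valid F S)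
    (hA : Valid F A) (hI : InvH F S k A) (h : RightF F A B y g j) (hB : Valid F B)
    (hP : B.L k F.p ≤ S.L k F.q) : InvH F S k B := by
  have hu := h.u'
  have hju := h.ju
  have hju' := h.ju'
  have e1 := h.hy
  have e2 := h.hg
  have e3 := F.hpq
  have eyg := h.yg
  have egq := h.hgq
  have eyp := h.hyp
  have hj0 := h.j0
  have jn : |j| ≤ F.n := by have := hB.un; rwa [hu] at this
  have R1 := h.R1
  have R0 := h.R0
  have S1 := h.S1
  have S0 := h.S0
  have a1 := h.a1
  have a2 := h.a2
  have b1 := h.b1
  have b2 := h.b2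
  have orient := fun (g : ℤ) => InvH.orient (g := g) hS hA hI
  obtain ⟨M, W, K, Z, Fr, B1, B2, Q1, Q2⟩ := hI
  have Bq : ∀ s, A.L s F.q ≤ B.L s F.q := by
    intro s
    by_cases hs : A.u ≤ s ∧ s < j
    · have := R1 s hs.1 hs.2; have := a1 s hs.2; omega
    · have := R0 s (by omega); omega
  have Bp : ∀ s, A.L s F.p ≤ B.L s F.p := by
    intro s
    by_cases hs : -j ≤ s ∧ s < -A.u
    · have := S1 s hs.1 hs.2; have := b1 s hs.1; omega
    · have := S0 s (by omega); omega
  have M' : ∀ x, S.L x F.q ≤ B.L x F.q := fun x => (M x).trans (Bq x)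
  have W' : ∀ z, S.w z ≤ B.w z := fun z => (W z).trans (by rw [h.w']; split_ifs <;> omega)
  -- no label g > q can be reached
  have hgq : ∀ x, k ≤ x → -j ≤ x → x < -A.u → ¬ (S.L x g < S.L x F.q) → g < F.q := by
    intro x hx hx1 hx2 hnot
    by_contra hcon
    have hgt : F.q < g := by omega
    have hne := hS.ne h.hgq x
    have h1 := hS.up F.q g hgt x (-A.u-1) (by omega) (by omega)
    have h2 := B2 (by omega)
    have h3 := h.adjg'
    have h4 := (K (-A.u-1) (by omega) g (by omega) (by omega) (b1 _ (by omega))).not.mpr (by omega)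
    have h5 := orient g e2 (by omega) (-A.u-1) (by omega) (by omega)
    omega
  have hstart : ∀ x, k ≤ x → -j ≤ x → x < -A.u → ¬ (S.L x g < S.L x F.q) →
      A.L x g ≤ S.L x F.q := by
    intro x hx hx1 hx2 hnot
    have hgq' := hgq x hx hx1 hx2 hnot
    have hup : ∀ s, s ≤ x → ¬ (S.L s g < S.L s F.q) := fun s hs hh =>
      hnot (hS.up g F.q (by omega) s x hs hh)
    rcases le_or_gt (-j) k with hle | hgt
    · have h1 := S1 k hle (by omega)
      have h2 := b1 k hle
      have h3 := (K k le_rfl g (by omega) (by omega) h2).not.mpr (hup k hx)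
      rcases eq_or_lt_of_le hx with heq | hlt
      · subst heq; omega
      · exact Z g (by omega) (by omega) k le_rfl x hlt (by omega) (b1 x hx1)
    · have h1 := Q2 (-j) hgt g (by omega) (by omega) (by rw [h.d1, h.d2]) (by rw [h.d3, h.d2])
        (by rw [h.d4, h.d1]) (by omega)
      exact absurd h1 (hup (-j-1) (by omega))
  have B1' : ∀ x, k ≤ x → B.L x F.p ≤ S.L x F.q := by
    intro x hx
    by_cases hs : -j ≤ x ∧ x < -A.u
    · have h1 := S1 x hs.1 hs.2
      have h2 := b1 x hs.1
      rw [h1.1]
      by_cases hc : S.L x g < S.L x F.q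
      · exact ((K x hx g (by omega) (by omega) h2).mpr hc).le
      · exact hstart x hx hs.1 hs.2 hc
    · have h1 := S0 x (by omega)
      rw [h1.1]
      exact B1 x hx
  refine ⟨M', W', ?_, ?_, ?_, B1', ?_, ?_, ?_⟩
  · -- K
    intro x hx c cp cq hlt
    have hpx := hA.pq x (by omega)
    have hBp := Bp x
    by_cases hc : c = y
    · subst hc
      by_cases hs : A.u ≤ x ∧ x < j
      · have h1 := R1 x hs.1 hs.2
        have h2 := a1 x hs.2
        have h3 := M x
        have h4 := K x hx c cp cq (by omega)
        constructor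
        · intro h5; omega
        · intro h5; have := h4.mpr h5; omega
      · have h1 := R0 x (by omega)
        rw [h1.2] at hlt ⊢
        exact K x hx c cp cq (by omega)
    by_cases hc' : c = g
    · subst hc'
      by_cases hs : -j ≤ x ∧ x < -A.u
      · have h1 := S1 x hs.1 hs.2
        have h2 := b1 x hs.1
        omega
      · have h1 := S0 x (by omega)
        rw [h1.2] at hlt ⊢
        exact K x hx c cp cq (by omega)
    · have h1 := h.oth x c cp cq hc hc'
      rw [h1] at hlt ⊢
      exact K x hx c cp cq (by omega)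
  · -- Z
    intro c cp cq y0 hy0 x hx h1 h2
    have hBp := Bp x
    have hpx := hA.pq x (by omega)
    by_cases hc : c = y
    · subst hc
      by_cases hs0 : A.u ≤ y0 ∧ y0 < j
      · have h3 := R1 y0 hs0.1 hs0.2
        have h4 := Fr y0 hy0 (by omega)
        have h5 := h4.2 x hx.le
        by_cases hs : x < j
        · have h6 := R1 x (by omega) hs
          omega
        · have h6 := R0 x (by omega)
          have h7 := a2 x (by omega)
          omega
      · have hy0v : A.L y0 c = S.L y0 F.q := by
          have h3 := R0 y0 (by omega)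
          omega
        by_cases hs : A.u ≤ x ∧ x < j
        · have h3 := R1 x hs.1 hs.2
          have h4 := a1 x hs.2
          have h5 := M x
          have h6 := Z c cp cq y0 hy0 x hx hy0v (by omega)
          omega
        · have h3 := R0 x (by omega)
          rw [h3.2] at h2 ⊢
          exact Z c cp cq y0 hy0 x hx hy0v (by omega)
    have hy0v : A.L y0 c = S.L y0 F.q := by
      by_cases hc' : c = g
      · subst hc'
        by_cases hs : -j ≤ y0 ∧ y0 < -A.u
        · have h3 := S1 y0 hs.1 hs.2
          have h4 := b1 y0 hs.1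
          have h5 := B1' y0 hy0
          omega
        · have h3 := S0 y0 (by omega)
          omega
      · have h3 := h.oth y0 c cp cq hc hc'
        omega
    by_cases hc' : c = g
    · subst hc'
      by_cases hs : -j ≤ x ∧ x < -A.u
      · have h3 := S1 x hs.1 hs.2
        have h4 := b1 x hs.1
        omega
      · have h3 := S0 x (by omega)
        rw [h3.2] at h2 ⊢
        exact Z c cp cq y0 hy0 x hx hy0v (by omega)
    · have h3 := h.oth x c cp cq hc hc'
      rw [h3] at h2 ⊢
      exact Z c cp cq y0 hy0 x hx hy0v (by omega)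
  · -- Fr
    intro y0 hy0 h1
    have h2 := M y0
    have h3 := Bq y0
    have h4 := Fr y0 hy0 (by omega)
    have h5 : j ≤ y0 := by
      by_contra hcon
      have h6 := R1 y0 h4.1 (by omega)
      have h7 := a1 y0 (by omega)
      omega
    refine ⟨by omega, ?_⟩
    intro x hx
    have h6 := R0 x (by omega)
    have h7 := h4.2 x hx
    omega
  · -- B2
    rw [hu]
    intro hkj
    have hjabs : |j| = -j := abs_of_neg (by omega)
    have d1 := h.d1
    have d2 := h.d2
    have d3 := h.d3
    have d4 := h.d4
    rw [hjabs] at d1 d2 d3 d4 jn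
    have t1 := (S0 (-j-1) (by omega)).1
    have t2 := (S1 (-j) (by omega) (by omega)).1
    have hq2 := Q2 (-j) hkj g (by omega) (by omega) (by omega) (by omega) (by omega) (by omega)
    have hWz := W (-j)
    have hsl := hS.slot_lin (z := -j) (by omega) jn (by omega) (by omega) F.q
    have hK := K (-j) hkj.le g (by omega) (by omega) (by omega)
    have hcl : S.L (-j) g < S.L (-j) F.q := by
      by_contra hcon
      have h1 := hgq (-j) (by omega) (by omega) (by omega) hcon
      have h2 := hS.up g F.q h1 (-j-1) (-j) (by omega) hq2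
      exact hcon h2
    have h3 := hK.mpr hcl
    have h4 := B1 (-j-1) (by omega)
    refine ⟨?_, ?_⟩
    · omega
    · omega
  · -- Q1
    rw [hu]
    intro z hz c cp cq h1 h2 h3 h4
    have hBp := Bp z
    have hBp' := Bp (z-1)
    have hc1 := B1' z hz.le
    have hc2 := B1' (z-1) (by omega)
    have hMz := M z
    have hMz' := M (z-1)
    have hcB : B.L z c = A.L z c := by
      by_cases hc : c = y
      · subst hc
        by_cases hs : A.u ≤ z ∧ z < j
        · have h5 := R1 z hs.1 hs.2
          omega
        · exact (R0 z (by omega)).2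
      by_cases hc' : c = g
      · subst hc'
        by_cases hs : -j ≤ z ∧ z < -A.u
        · have h5 := S1 z hs.1 hs.2
          have h6 := S1 (z-1) (by omega) (by omega)
          have := b1 z hs.1
          have := b1 (z-1) (by omega)
          omega
        · exact (S0 z (by omega)).2
      · exact h.oth z c cp cq hc hc'
    have hcB' : B.L (z-1) c = A.L (z-1) c := by
      by_cases hc : c = y
      · subst hc
        by_cases hs : A.u ≤ z-1 ∧ z-1 < j
        · have h5 := R1 (z-1) hs.1 hs.2
          -- z = j
          have hzj : z = j := by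
            by_contra hne
            have h6 := R1 z (by omega) (by omega)
            omega
          have h6 := a1 (z-1) (by omega)
          have h7 := a2 z (by omega)
          have h8 := R0 z (by omega)
          have hbl := hB.blank c
          rw [hu, ← hzj] at hbl
          omega
        · exact (R0 (z-1) (by omega)).2
      by_cases hc' : c = g
      · subst hc'
        by_cases hs : -j ≤ z-1 ∧ z-1 < -A.u
        · have h5 := S1 (z-1) hs.1 hs.2
          have h9 := b1 (z-1) hs.1
          by_cases hs' : z < -A.u
          · have h6 := S1 z (by omega) hs'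
            have := b1 z (by omega)
            omega
          · have hzu : z = -A.u := by omega
            have h6 := S0 z (by omega)
            have h7 := h.adjg
            have h8 := hA.blank' c
            have h10 := hA.blank' F.p
            rw [← hzu] at h7 h8 h10
            omega
        · exact (S0 (z-1) (by omega)).2
      · exact h.oth (z-1) c cp cq hc hc'
    by_cases hs : z < -A.u
    · -- both swept
      have h5 := S1 (z-1) (by omega) (by omega)
      have h6 := S1 z (by omega) (by omega)
      have h7 := b1 (z-1) (by omega)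
      have h8 := b1 z (by omega)
      have hK := K z (by omega) c cp cq
      have hpne : A.L z F.p ≠ A.L z c := hA.ne cp.symm _
      exact (hK (by omega)).mp (by omega)
    by_cases hs2 : z = -A.u
    · have h5 := S1 (z-1) (by omega) (by omega)
      have h6 := S0 z (by omega)
      have h7 := h.adjg
      have h8 := h.adjg'
      have h9 := hA.blank' F.p
      rw [← hs2] at h7 h8 h9
      omega
    · have h5 := S0 (z-1) (by omega)
      have h6 := S0 z (by omega)
      exact Q1 z hz c cp cq (by omega) (by omega) (by omega) (by omega)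
  · -- Q2
    rw [hu]
    intro z hz c cp cq h1 h2 h3 h4
    have hc2 := B1' (z-1) (by omega)
    have hMz := M z
    have hMz' := M (z-1)
    have hBpz := Bp z
    have hBpz' := Bp (z-1)
    have tz := S0 z (by omega)
    have tz' := S0 (z-1) (by omega)
    have hcB : B.L z c = A.L z c := by
      by_cases hc : c = y
      · subst hc
        exact (R0 z (by omega)).2
      by_cases hc' : c = g
      · subst hc'
        exact tz.2
      · exact h.oth z c cp cq hc hc'
    have hcB' : B.L (z-1) c = A.L (z-1) c := by
      by_cases hc : c = y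
      · subst hc
        exact (R0 (z-1) (by omega)).2
      by_cases hc' : c = g
      · subst hc'
        exact tz'.2
      · exact h.oth (z-1) c cp cq hc hc'
    exact Q2 z hz c cp cq (by omega) (by omega) (by omega) (by omega)

end FpfBump
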