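import Pool.Agent.FpfBump.Final

/-!
# Existence of the second index, and termination
-/

namespace FpfLittle

open Equiv FpfBump

/-! ## `S_ℤ` is generated by the simple transpositions -/

lemma exists_word_swap (a : ℤ) (d : ℕ) : ∃ w, wordPerm w = swap a (a + 1 + d) := by
  induction d with
  | zero => exact ⟨[a], by simp [wordPerm, s]⟩
  | succ d ih =>
    obtain ⟨w, hw⟩ := ih
    refine ⟨[a + 1 + d] ++ w ++ [a + 1 + d], ?_⟩
    rw [wordPerm_append, wordPerm_append, hw]
    have e : wordPerm [a + 1 + (d : ℤ)] = swap (a + 1 + d) (a + 1 + d + 1) := by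
      simp [wordPerm, s]
    rw [e, Equiv.mul_swap_eq_swap_mul (swap (a + 1 + d) (a + 1 + d + 1)) a (a + 1 + d),
      mul_assoc, swap_mul_self, mul_one,
      swap_apply_of_ne_of_ne (by omega) (by omega), swap_apply_left]
    push_cast
    rw [add_assoc (a + 1)]

lemma exists_word_swap' (a b : ℤ) (hab : a ≠ b) : ∃ w, wordPerm w = swap a b := by
  rcases lt_or_gt_of_ne hab with h | h
  · obtain ⟨w, hw⟩ := exists_word_swap a (b - a - 1).toNat
    exact ⟨w, by rw [hw]; congr 1; omega⟩
  · obtain ⟨w, hw⟩ := exists_word_swap b (a - b - 1).toNat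
    exact ⟨w, by rw [hw, swap_comm]; congr 1; omega⟩

lemma exists_word {σ : Perm ℤ} (h : σ ∈ SZ) : ∃ w, wordPerm w = σ := by
  have hfin : Set.Finite {i | σ i ≠ i} := h
  induction hn : hfin.toFinset.card using Nat.strong_induction_on generalizing σ with
  | _ n ih =>
    by_cases h1 : ∃ x, σ x ≠ x
    · obtain ⟨x, hx⟩ := h1
      set τ := swap x (σ x) * σ with hτ
      have hsub : {i | τ i ≠ i} ⊆ {i | σ i ≠ i} := by
        intro i hi
        by_contra hc
        have hc' : σ i = i := by simpa using hc
        apply (show τ i ≠ i from hi)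
        rw [hτ, Perm.coe_mul, Function.comp_apply, hc']
        have h2 : i ≠ x := fun hh => hx (by rw [← hh]; exact hc')
        have h3 : i ≠ σ x := fun hh => hx (σ.injective (by rw [← hh, hc', hh]))
        exact swap_apply_of_ne_of_ne h2 h3
      have hfin' : Set.Finite {i | τ i ≠ i} := hfin.subset hsub
      have hlt : hfin'.toFinset.card < n := by
        rw [← hn]
        apply Finset.card_lt_card
        refine ⟨fun i hi => by
          rw [Set.Finite.mem_toFinset] at hi ⊢
          exact hsub hi, fun hcon => ?_⟩
        have h4 : x ∈ hfin.toFinset := by rw [Set.Finite.mem_toFinset]; exact hx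
        have h5 := hcon h4
        rw [Set.Finite.mem_toFinset] at h5
        apply h5
        rw [hτ, Perm.coe_mul, Function.comp_apply, swap_apply_right]
      obtain ⟨w, hw⟩ := ih _ hlt (σ := τ) hfin' hfin' rfl
      obtain ⟨w', hw'⟩ := exists_word_swap' x (σ x) (Ne.symm hx)
      exact ⟨w' ++ w, by rw [wordPerm_append, hw, hw', hτ, ← mul_assoc, swap_mul_self, one_mul]⟩
    · push Not at h1
      exact ⟨[], by ext i; simp [wordPerm, h1 i]⟩

/-- minimal words are fpf-involution words -/
lemma rsp_of_min {π : Perm ℤ} {l : List ℤ} (h1 : conj (wordPerm l) = π)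
    (h2 : ∀ l', conj (wordPerm l') = π → l.length ≤ l'.length) : l ∈ RSp π := by
  refine ⟨wordPerm l, ⟨wordPerm_mem_SZ l, h1, ?_⟩, rfl, ?_⟩
  · intro τ hτ hτ2
    obtain ⟨w, hw⟩ := exists_word hτ
    have h3 : ∃ w, wordPerm w = τ ∧ w.length = len τ :=
      Nat.sInf_mem (s := {l | ∃ w, wordPerm w = τ ∧ w.length = l}) ⟨_, _, hw, rfl⟩
    obtain ⟨w', hw', hw''⟩ := h3
    have h4 : len (wordPerm l) ≤ l.length := Nat.sInf_le ⟨l, rfl, rfl⟩
    have h5 := h2 w' (by rw [hw']; exact hτ2)
    omega
  · intro w' hw'
    exact h2 w' (by rw [hw']; exact h1)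

lemma cnt_const {B : ℕ → Option ℤ} {n : ℕ} (hB : ∀ t, n ≤ t → B t = none) {t : ℕ}
    (ht : n ≤ t) : cnt B t = cnt B n := by
  induction t, ht using Nat.le_induction with
  | base => rfl
  | succ t h ih => rw [cnt, ih, hB t h]; simp

lemma ofList_none (l : List ℤ) : ∀ t, l.length ≤ t → ofList l t = none := fun _ ht =>
  List.getElem?_eq_none ht

lemma P_pad (l : List ℤ) {n : ℕ} (h : l.length ≤ n) : P (ofList l) n = wordPerm l := by
  rw [P_const (ofList_none l) h, P_ofList_length]

lemma cnt_pad (l : List ℤ) {n : ℕ} (h : l.length ≤ n) : cnt (ofList l) n = l.length := by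
  rw [cnt_const (ofList_none l) h, cnt_ofList l _ le_rfl]

/-- mates are ordered at time `0` -/
lemma Minl.mate_order {π : Perm ℤ} {B : ℕ → Option ℤ} {n : ℕ} (h : Minl π B n)
    (hB : ∀ t, n ≤ t → B t = none) {x : ℤ} (hx : x < π x) :
    H B n 0 x < H B n 0 (π x) := by
  have e0 : line B n π 0 = H B n 0 := by
    have := line_pos B n π 0
    simpa using this
  rw [← e0]
  by_contra hcon
  have hne : line B n π 0 x ≠ line B n π 0 (π x) := fun hh =>
    hx.ne ((line B n π 0).injective hh)
  have h1 : line B n π (-1) x = line B n π 0 (π x) := by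
    have := line_mir (B := B) (n := n) h.pi_sq 0 x
    simpa using this
  have h2 : line B n π (-1) (π x) = line B n π 0 x := by
    have := line_mir (B := B) (n := n) h.pi_sq 0 (π x)
    rw [h.pi_sq] at this
    simpa using this
  have := h.up hB x (π x) hx (-1) 0 (by norm_num) (by rw [h1, h2]; omega)
  omega

/-- lines whose order differs at the two ends cross somewhere -/
lemma Minl.exists_cross {π : Perm ℤ} {B : ℕ → Option ℤ} {n : ℕ} (h : Minl π B n)
    (hB : ∀ t, n ≤ t → B t = none) {x y : ℤ} (hxy : x ≠ y) (hyx : y ≠ π x)
    (ho : ¬ (x < y ↔ π x < π y)) : ∃ i, i < n ∧ (At B n i x y ∨ At B n i (π x) (π y)) := by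
  have hL : ∀ a, line B n π (-1 - (n : ℤ)) a = π a := fun a => by
    rw [line_neg, H_fin hB le_rfl]; rfl
  have hR : ∀ a, line B n π (n : ℤ) a = a := fun a => line_fin hB _ le_rfl a
  have hz : ∃ z, ¬ (line B n π (z-1) x < line B n π (z-1) y ↔
      line B n π z x < line B n π z y) := by
    by_contra hcon
    push Not at hcon
    by_cases h1 : π x < π y
    · have h2 : ¬ (x < y) := fun h3 => ho ⟨fun _ => h1, fun _ => h3⟩
      obtain ⟨z, _, _, h5, h6⟩ := ivt (fun s => line B n π s x < line B n π s y)
        (show -1 - (n : ℤ) ≤ n by omega) (by rw [hL, hL]; exact h1) (by rw [hR, hR]; exact h2)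
      exact h6 ((hcon z).mp h5)
    · have h2 : x < y := by
        by_contra h3
        exact ho ⟨fun h4 => absurd h4 h3, fun h4 => absurd h4 h1⟩
      obtain ⟨z, _, _, h5, h6⟩ := ivt (fun s => ¬ (line B n π s x < line B n π s y))
        (show -1 - (n : ℤ) ≤ n by omega) (by rw [hL, hL]; exact h1)
        (by rw [hR, hR]; exact not_not.mpr h2)
      exact h6 (fun h7 => h5 ((hcon z).mpr h7))
  obtain ⟨z, hz⟩ := hz
  rcases h.flip hxy hz with ⟨_, i, _, hat⟩ | ⟨_, h1⟩ | ⟨_, i, _, hat⟩
  · exact ⟨i, hat.lt hB, Or.inl hat⟩
  · exact absurd h1 hyx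
  · exact ⟨i, hat.lt hB, Or.inr hat⟩

/-- conjugation by a transposition and its mirror image agree -/
lemma conj_mirror {π : Perm ℤ} (sq : ∀ a, π (π a) = a) (ne : ∀ a, π a ≠ a) {x y : ℤ}
    (hyx : y ≠ π x) :
    swap (π x) (π y) * (swap x y * π * swap x y) * swap (π x) (π y) = π := by
  have hx' : x ≠ π y := fun hh => hyx (by rw [hh, sq])
  have comm : swap x y * swap (π x) (π y) = swap (π x) (π y) * swap x y := by
    rw [Equiv.mul_swap_eq_swap_mul (swap x y), swap_apply_of_ne_of_ne (ne x) hyx.symm,
      swap_apply_of_ne_of_ne hx'.symm (ne y)]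
  have e6 : π * swap (π x) (π y) = swap x y * π := by
    rw [Equiv.mul_swap_eq_swap_mul, sq, sq]
  calc swap (π x) (π y) * (swap x y * π * swap x y) * swap (π x) (π y)
      = swap (π x) (π y) * swap x y * π * (swap x y * swap (π x) (π y)) := by
        simp only [mul_assoc]
    _ = swap (π x) (π y) * swap x y * (π * swap (π x) (π y)) * swap x y := by
        rw [comm]; simp only [mul_assoc]
    _ = swap (π x) (π y) * (swap x y * swap x y) * (π * swap x y) := by
        rw [e6]; simp only [mul_assoc]
    _ = swap (π x) (π y) * (swap (π x) (π y) * π) := by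
        rw [swap_mul_self, mul_one, Equiv.mul_swap_eq_swap_mul π x y]
    _ = π := by rw [← mul_assoc, swap_mul_self, one_mul]

/-- If a push runs into a word that is neither fpf-reduced nor semi-reduced, then there is
another marked index. -/
theorem exists_marked {π : Perm ℤ} {v : List ℤ} {j : ℕ} (hj : j < v.length)
    (hm : Minl π (del (ofList v) j) v.length) (h1 : ¬ IsFpfWord v) (h2 : ¬ SemiReduced π v) :
    ∃ j', j' ≠ j ∧ Marked π v j' := by
  have sq := hm.pi_sq
  have ne := hm.pi_ne
  have hBj : ofList v j = some v[j] := by simp [ofList, hj]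
  have hPD := P_del_n (ofList v) hj hBj
  have hcnt := cnt_del (ofList v) hj hBj
  rw [cnt_ofList v _ le_rfl] at hcnt
  obtain ⟨x, y, hxy, hτ⟩ : ∃ x y, x ≠ y ∧ tau (ofList v) v.length j v[j] = swap x y := by
    refine ⟨_, _, ?_, rfl⟩
    intro hh
    have := (H (ofList v) v.length (j+1))⁻¹.injective hh
    omega
  rw [hτ] at hPD
  have hPB : P (ofList v) v.length = P (del (ofList v) j) v.length * swap x y := by
    rw [hPD, mul_assoc, swap_mul_self, mul_one]
  have hconj : conj (P (ofList v) v.length) = swap x y * π * swap x y := by
    rw [hPB, conj_mul, hm.conj_eq, swap_inv]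
  -- lower bound for all words
  have hlow : ∀ l, conj (wordPerm l) = π → v.length ≤ l.length + 1 := by
    intro l hl
    by_contra hcon
    have h3 := hm.min (ofList l) (by rw [P_pad l (by omega)]; exact hl)
    rw [cnt_pad l (by omega)] at h3
    omega
  by_cases hyx : y = π x
  · exfalso
    apply h2
    have hcπ : conj (P (ofList v) v.length) = π := by
      rw [hconj, hyx]
      have h5 : π * swap x (π x) = swap x (π x) * π := by
        rw [Equiv.mul_swap_eq_swap_mul, sq, swap_comm]
      rw [mul_assoc, h5, ← mul_assoc, swap_mul_self, one_mul]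
    rw [P_ofList_length] at hcπ
    refine ⟨h1, wordPerm v, wordPerm_mem_SZ v, hcπ, rfl, ?_⟩
    intro w' hw'
    by_contra hcon
    have hM : Minl π (ofList w') v.length := by
      refine ⟨by rw [P_pad w' (by omega), hw']; exact hcπ, ?_⟩
      intro B' hB'
      have h3 := hm.min B' hB'
      rw [cnt_pad w' (by omega)]
      omega
    have hord : ∀ z, z < π z → (P (ofList w') v.length) z < (P (ofList w') v.length) (π z) := by
      intro z hz
      have := hM.mate_order (fun t ht => ofList_none w' t (by omega)) hz
      simpa [H, P] using this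
    have hord' : ∀ z, z < π z → (P (del (ofList v) j) v.length) z <
        (P (del (ofList v) j) v.length) (π z) := by
      intro z hz
      have := hm.mate_order (del_none j) hz
      simpa [H, P] using this
    have e : P (ofList w') v.length = P (del (ofList v) j) v.length * swap x y := by
      rw [P_pad w' (by omega), hw', ← P_ofList_length, hPB]
    rcases lt_or_gt_of_ne hxy with h | h
    · have a1 := hord x (by rw [← hyx]; exact h)
      have a2 := hord' x (by rw [← hyx]; exact h)
      rw [e] at a1
      simp only [Perm.coe_mul, Function.comp_apply, ← hyx, swap_apply_left,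
        swap_apply_right] at a1 a2
      omega
    · have hy2 : π y = x := by rw [hyx, sq]
      have a1 := hord y (by rw [hy2]; exact h)
      have a2 := hord' y (by rw [hy2]; exact h)
      rw [e] at a1
      simp only [Perm.coe_mul, Function.comp_apply, hy2, swap_apply_left,
        swap_apply_right] at a1 a2
      omega
  · by_cases ho : x < y ↔ π x < π y
    · -- the lines do not cross: then `v` is minimal
      exfalso
      apply h1
      have hπ'x : (swap x y * π * swap x y) x = π y := by
        simp only [Perm.coe_mul, Function.comp_apply, swap_apply_left]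
        exact swap_apply_of_ne_of_ne (fun hh => hyx (by rw [← hh, sq])) (ne y)
      have hπ'y : (swap x y * π * swap x y) y = π x := by
        simp only [Perm.coe_mul, Function.comp_apply, swap_apply_right]
        exact swap_apply_of_ne_of_ne (ne x) (Ne.symm hyx)
      rw [P_ofList_length] at hconj
      refine ⟨swap x y * π * swap x y, ⟨wordPerm v, wordPerm_mem_SZ v, hconj⟩,
        rsp_of_min hconj ?_⟩
      -- minimality
      intro l0 hl0
      by_contra hcon
      obtain ⟨l, hl, hlmin⟩ : ∃ l : List ℤ, conj (wordPerm l) = swap x y * π * swap x y ∧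
          ∀ l', conj (wordPerm l') = swap x y * π * swap x y → l.length ≤ l'.length := by
        obtain ⟨l, hl1, hl2⟩ := WellFounded.has_min (measure List.length).wf
          {l : List ℤ | conj (wordPerm l) = swap x y * π * swap x y} ⟨l0, hl0⟩
        exact ⟨l, hl1, fun l' h' => not_lt.mp (hl2 l' h')⟩
      have hll0 := hlmin l0 hl0
      have hM : Minl (swap x y * π * swap x y) (ofList l) v.length := by
        refine ⟨by rw [P_pad l (by omega)]; exact hl, ?_⟩
        intro B' hB'
        obtain ⟨l', hl'1, hl'2⟩ := realize B' v.length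
        rw [cnt_pad l (by omega), ← hl'2]
        exact hlmin l' (by rw [hl'1]; exact hB')
      obtain ⟨i, hi, hat⟩ := hM.exists_cross (fun t ht => ofList_none l t (by omega)) hxy
        (by rw [hπ'x]; exact (ne y).symm) (by
          rw [hπ'x, hπ'y]
          have hne : π x ≠ π y := fun hh => hxy (π.injective hh)
          intro hh
          by_cases h3 : x < y
          · have := ho.mp h3
            have := hh.mp h3
            omega
          · have h4 : ¬ (π x < π y) := fun h5 => h3 (ho.mpr h5)
            have h5 : ¬ (π y < π x) := fun h5 => h3 (hh.mpr h5)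
            omega)
      rw [hπ'x, hπ'y] at hat
      obtain ⟨a, ha, hc⟩ : ∃ a, ofList l i = some a ∧
          conj (P (del (ofList l) i) v.length) = π := by
        rcases hat with hat | hat
        · obtain ⟨a, ha, hta⟩ := hat.tau
          refine ⟨a, ha, ?_⟩
          rw [P_del_n _ hi ha, conj_mul, hM.conj_eq, hta, swap_inv]
          simp only [← mul_assoc]
          rw [swap_mul_self, one_mul, mul_assoc, swap_mul_self, mul_one]
        · obtain ⟨a, ha, hta⟩ := hat.tau
          refine ⟨a, ha, ?_⟩
          rw [P_del_n _ hi ha, conj_mul, hM.conj_eq, hta, swap_inv, swap_comm (π y)]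
          exact conj_mirror sq ne hyx
      have h3 := hm.min _ hc
      have h4 := cnt_del (ofList l) hi ha
      rw [cnt_pad l (by omega)] at h4
      omega
    · -- the lines cross
      obtain ⟨i, hi, hat⟩ := hm.exists_cross (del_none j) hxy hyx ho
      have hij : i ≠ j := by
        rintro rfl
        rcases hat with ⟨a, ha, _⟩ | ⟨a, ha, _⟩ <;> simp [del] at ha
      have hBi : ofList v i = some v[i] := by simp [ofList, hi]
      have hDi : del (ofList v) j i = some v[i] := by unfold del; rw [if_neg hij]; exact hBi
      have hx' : x ≠ π y := fun hh => hyx (by rw [hh, sq])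
      have comm : swap x y * swap (π x) (π y) = swap (π x) (π y) * swap x y := by
        rw [Equiv.mul_swap_eq_swap_mul (swap x y), swap_apply_of_ne_of_ne (ne x) (Ne.symm hyx),
          swap_apply_of_ne_of_ne hx'.symm (ne y)]
      have htd := tau_del (a := v[i]) hj hBj hij
      rw [hτ] at htd
      have hc : conj (P (del (ofList v) i) v.length) = π := by
        rw [P_del_n _ hi hBi, conj_mul, hconj]
        have hinv : (tau (ofList v) v.length i v[i])⁻¹ = tau (ofList v) v.length i v[i] := by
          unfold tau; rw [swap_inv]
        rw [hinv]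
        rcases hat with hat | hat
        · obtain ⟨a, ha, hta⟩ := hat.tau
          rw [hDi] at ha
          simp only [Option.some.injEq] at ha
          subst ha
          have e : tau (ofList v) v.length i v[i] = swap x y := by
            rw [htd] at hta
            split_ifs at hta
            · have := congrArg (fun f => swap x y * f * swap x y) hta
              simp only [mul_assoc, swap_mul_self, mul_one] at this
              simp only [← mul_assoc, swap_mul_self, one_mul] at this
              exact this
            · exact hta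
          rw [e]
          simp only [← mul_assoc]
          rw [swap_mul_self, one_mul, mul_assoc, swap_mul_self, mul_one]
        · obtain ⟨a, ha, hta⟩ := hat.tau
          rw [hDi] at ha
          simp only [Option.some.injEq] at ha
          subst ha
          have e : tau (ofList v) v.length i v[i] = swap (π x) (π y) := by
            rw [htd] at hta
            split_ifs at hta
            · have := congrArg (fun f => swap x y * f * swap x y) hta
              simp only [mul_assoc, swap_mul_self, mul_one] at this
              simp only [← mul_assoc, swap_mul_self, one_mul] at this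
              rw [this, comm, mul_assoc, swap_mul_self, mul_one]
            · exact hta
          rw [e]
          exact conj_mirror sq ne hyx
      refine ⟨i, hij, hi, rsp_of_min (by rw [← P_eraseIdx v hi]; exact hc) ?_⟩
      intro l' hl'
      have h3 := hlow l' hl'
      have h4 := List.length_eraseIdx_of_lt hi
      omega

end FpfLittle
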