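import Pool.Agent.FpfBump.Trans

/-!
# Letter increments under fixed-point-free involution Little bumps
-/

namespace FpfLittle

open Equiv FpfBump

lemma jump (f : ℕ → ℤ) (N : ℕ) (hf : ∀ t < N, f (t+1) = f t ∨ f (t+1) = f t + 1) (m : ℤ)
    (h0 : f 0 ≤ m) (hN : m + 1 ≤ f N) : ∃ t < N, f t = m ∧ f (t+1) = m + 1 := by
  induction N with
  | zero => omega
  | succ N ih =>
    by_cases h : m + 1 ≤ f N
    · obtain ⟨t, h1, h2⟩ := ih (fun t ht => hf t (by omega)) h
      exact ⟨t, by omega, h2⟩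
    · rcases hf N (by omega) with h1 | h1
      · omega
      · exact ⟨N, by omega, by omega, by omega⟩

lemma jump_mono (f : ℕ → ℤ) (N : ℕ) (hf : ∀ t < N, f (t+1) = f t ∨ f (t+1) = f t + 1)
    {a b : ℕ} (hab : a ≤ b) (hb : b ≤ N) : f a ≤ f b := by
  induction b, hab using Nat.le_induction with
  | base => exact le_rfl
  | succ b h ih =>
    have := ih (by omega)
    rcases hf b (by omega) with h1 | h1 <;> omega

/-- three jumps -/
lemma three_jumps (f : ℕ → ℤ) (N : ℕ) (hf : ∀ t < N, f (t+1) = f t ∨ f (t+1) = f t + 1)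
    (hN : f 0 + 3 ≤ f N) : ∃ a b c, a < b ∧ b < c ∧ c < N ∧ f (a+1) ≠ f a ∧ f (b+1) ≠ f b ∧
      f (c+1) ≠ f c := by
  obtain ⟨a, ha, ha1, ha2⟩ := jump f N hf (f 0) le_rfl (by omega)
  obtain ⟨b, hb, hb1, hb2⟩ := jump f N hf (f 0 + 1) (by omega) (by omega)
  obtain ⟨c, hc, hc1, hc2⟩ := jump f N hf (f 0 + 2) (by omega) (by omega)
  refine ⟨a, b, c, ?_, ?_, hc, by omega, by omega, by omega⟩
  · by_contra h
    have := jump_mono f N hf (show b ≤ a by omega) (by omega)
    omega
  · by_contra h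
    have := jump_mono f N hf (show c ≤ b by omega) (by omega)
    omega

lemma exists_seq {G : ℕ → ℤ → Prop} {R : ℕ → ℤ → ℤ → Prop} (M : ℕ) (h0 : ∃ u, G 0 u)
    (hs : ∀ t < M, ∀ u, G t u → ∃ u', G (t+1) u' ∧ R t u u') :
    ∃ U : ℕ → ℤ, (∀ t ≤ M, G t (U t)) ∧ ∀ t < M, R t (U t) (U (t+1)) := by
  induction M with
  | zero =>
    obtain ⟨u, hu⟩ := h0
    refine ⟨fun _ => u, ?_, ?_⟩
    · intro t ht
      rw [show t = 0 by omega]; exact hu
    · intro t ht; omega
  | succ M ih =>
    obtain ⟨U, h1, h2⟩ := ih (fun t ht => hs t (by omega))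
    obtain ⟨u', h3, h4⟩ := hs M (by omega) (U M) (h1 M le_rfl)
    refine ⟨fun t => if t ≤ M then U t else u', ?_, ?_⟩
    · intro t ht
      by_cases htM : t ≤ M
      · simp only [if_pos htM]; exact h1 t htM
      · simp only [if_neg htM]
        rw [show t = M + 1 by omega]; exact h3
    · intro t ht
      by_cases htM : t < M
      · simp only [if_pos (show t ≤ M by omega), if_pos (show t + 1 ≤ M by omega)]
        exact h2 t htM
      · have htM' : t = M := by omega
        subst htM'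
        simp only [if_pos le_rfl, if_neg (show ¬ t + 1 ≤ t by omega)]
        exact h4

lemma getD_modify' {v : List ℤ} {k : ℕ} (j : ℕ) (hk : k < v.length) :
    (v.modify j (· + 1)).getD k 0 = if j = k then v.getD k 0 + 1 else v.getD k 0 := by
  rw [List.getD_eq_getElem?_getD, List.getD_eq_getElem?_getD, List.getElem?_modify]
  by_cases h : j = k
  · subst h
    simp [hk]
  · simp [h]

/-- the increments in the chain version -/
theorem chain_increments {π : Perm ℤ} {w : List ℤ} (hw : IsFpfWord w) {i N : ℕ}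
    {x : ℕ → List ℤ × ℕ} (hmk : Marked π w i) (hN : 0 < N) (hx0 : x 0 = (w, i))
    (hx : ∀ t < N, FPush π (x t) (x (t+1))) (hx' : ∀ t, 0 < t → t < N → ¬ IsFpfWord (x t).1) :
    (x N).1.length = w.length ∧ ∀ k < w.length, w.getD k 0 ≤ (x N).1.getD k 0 ∧
      (x N).1.getD k 0 ≤ w.getD k 0 + 2 := by
  -- lengths
  have hlen : ∀ t ≤ N, (x t).1.length = w.length := by
    intro t
    induction t with
    | zero => intro _; rw [hx0]
    | succ t ih =>
      intro ht
      rw [(hx t (by omega)).2, List.length_modify]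
      exact ih (by omega)
  refine ⟨hlen N le_rfl, ?_⟩
  intro k hk
  set f : ℕ → ℤ := fun t => (x t).1.getD k 0 with hf
  have hf0 : f 0 = w.getD k 0 := by simp [hf, hx0]
  have hfs : ∀ t < N, f (t+1) = if (x (t+1)).2 = k then f t + 1 else f t := by
    intro t ht
    show (x (t+1)).1.getD k 0 = _
    rw [(hx t ht).2]
    exact getD_modify' _ (by rw [hlen t ht.le]; exact hk)
  have hfs' : ∀ t < N, f (t+1) = f t ∨ f (t+1) = f t + 1 := by
    intro t ht
    rw [hfs t ht]
    split_ifs <;> simp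
  have hmono := jump_mono f N hfs' (Nat.zero_le N) le_rfl
  rw [← hf0]
  refine ⟨hmono, ?_⟩
  by_contra hcon
  obtain ⟨a, b, c, hab, hbc, hcN, ja, jb, jc⟩ := three_jumps f N hfs' (by
    have : ¬ f N ≤ f 0 + 2 := hcon
    omega)
  -- the frame
  have hi : i < w.length := hmk.1
  have hm := minl_of_marked hmk
  have h01 : x 1 = (w.modify i (· + 1), i) := by
    have h := hx 0 hN
    rw [hx0] at h
    obtain ⟨h1, h2⟩ := h
    rcases h1 with ⟨_, h3⟩ | ⟨h3, _⟩
    · simp only [zero_add] at h3 h2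
      rw [h3] at h2
      exact Prod.ext h2 h3
    · exact absurd hw h3
  have sq := hm.pi_sq
  have ne := hm.pi_ne
  set D := del (ofList w) i with hD
  obtain ⟨m0, hm0⟩ := (H D w.length (i+1)).surjective (w[i] + 1)
  have hbl : D i = none := by simp [hD, del]
  have hgetw : (w.modify i (· + 1)).getD i 0 = w[i] + 1 := by
    rw [getD_modify _ hi, if_pos rfl]
    simp [List.getD_eq_getElem?_getD, hi]
  obtain ⟨F, hFπ, hFn, hbase⟩ : ∃ F : Frame, (∀ a, F.pi a = π a) ∧ F.n = w.length ∧
      ∃ u : ℤ, u.natAbs = i + 1 ∧ Valid F (cfg π (w.modify i (· + 1)) u) := by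
    have hlen1 : (w.modify i (· + 1)).length = w.length := List.length_modify _ _ _
    rcases lt_or_gt_of_ne (ne m0) with h | h
    · -- π m0 < m0 = q
      let F : Frame := ⟨π, π m0, m0, w.length, h, sq m0, rfl, sq, ne⟩
      have habs : |((i : ℤ) + 1)| = (i : ℤ) + 1 := abs_of_pos (by omega)
      refine ⟨F, fun _ => rfl, rfl, (i : ℤ) + 1, by omega, ?_⟩
      refine valid_cfg (fun _ => rfl) (by rw [hlen1]) (by omega) (by rw [habs, hlen1]; omega) ?_ ?_
      · rw [hlen1, show ((i : ℤ) + 1).natAbs - 1 = i by omega, del_modify]; exact hm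
      · show line (del (ofList _) (((i : ℤ) + 1).natAbs - 1)) (List.length _) π ((i : ℤ) + 1) m0 =
          (if 0 < |((i : ℤ) + 1)| then
            (w.modify i (· + 1)).getD (|((i : ℤ) + 1)| - 1).toNat 0 else 0)
        rw [hlen1, show ((i : ℤ) + 1).natAbs - 1 = i by omega, del_modify, habs,
          if_pos (by omega), show ((i : ℤ) + 1 - 1).toNat = i by omega, hgetw,
          show ((i : ℤ) + 1) = ((i + 1 : ℕ) : ℤ) by push_cast; rfl, line_pos]
        exact hm0
    · -- m0 = p
      let F : Frame := ⟨π, m0, π m0, w.length, h, rfl, sq m0, sq, ne⟩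
      have habs : |(-((i : ℤ) + 1))| = (i : ℤ) + 1 := by rw [abs_neg]; exact abs_of_pos (by omega)
      refine ⟨F, fun _ => rfl, rfl, -((i : ℤ) + 1), by omega, ?_⟩
      refine valid_cfg (fun _ => rfl) (by rw [hlen1]) (by omega) (by rw [habs, hlen1]; omega) ?_ ?_
      · rw [hlen1, show (-((i : ℤ) + 1)).natAbs - 1 = i by omega, del_modify]; exact hm
      · show line (del (ofList _) ((-((i : ℤ) + 1)).natAbs - 1)) (List.length _) π
          (-((i : ℤ) + 1)) (π m0) = (if 0 < |(-((i : ℤ) + 1))| then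
            (w.modify i (· + 1)).getD (|(-((i : ℤ) + 1))| - 1).toNat 0 else 0)
        rw [hlen1, show (-((i : ℤ) + 1)).natAbs - 1 = i by omega, del_modify, habs,
          if_pos (by omega), show ((i : ℤ) + 1 - 1).toNat = i by omega, hgetw,
          show -((i : ℤ) + 1) = -1 - (i : ℤ) by ring, line_neg, H_blank hbl]
        show H D w.length (i+1) (π (π m0)) = _
        rw [sq]; exact hm0
  -- the sequence of tokens
  let G : ℕ → ℤ → Prop := fun t u => u.natAbs = (x (t+1)).2 + 1 ∧ (x (t+1)).2 < w.length ∧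
    Minl π (del (ofList (x (t+1)).1) (x (t+1)).2) w.length ∧ Valid F (cfg π (x (t+1)).1 u)
  let R : ℕ → ℤ → ℤ → Prop := fun t u u' =>
    Step F (cfg π (x (t+1)).1 u) (cfg π (x (t+1+1)).1 u')
  obtain ⟨U, hU1, hU2⟩ := exists_seq (G := G) (R := R) (N - 1)
    (by
      obtain ⟨u, hu1, hu2⟩ := hbase
      refine ⟨u, ?_, ?_, ?_, ?_⟩
      · rw [zero_add, h01]; exact hu1
      · rw [zero_add, h01]; exact hi
      · rw [zero_add, h01, del_modify]; exact hm
      · rw [zero_add, h01]; exact hu2)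
    (by
      rintro t ht u ⟨h1, h2, h3, h4⟩
      have h5 := hx (t+1) (by omega)
      have h6 := hlen (t+1) (by omega)
      have h7 := trans (v := (x (t+1)).1) (j := (x (t+1)).2) hFπ (by rw [hFn, h6])
        (by rw [h6]; exact h2) h1 (by rw [h6]; exact h3) h4 (hx' (t+1) (by omega) (by omega)) h5
      obtain ⟨_, h9, h10, u', h11, h12, h13⟩ := h7
      exact ⟨u', ⟨h11, by rw [← h6]; exact h9, by rw [← h6]; exact h10, h13⟩, h12⟩)
  have hvis : ∀ t < N, f (t+1) ≠ f t → |U t| = (k : ℤ) + 1 := by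
    intro t ht hne
    have h1 := hfs t ht
    have h2 : (x (t+1)).2 = k := by
      by_contra hc
      rw [if_neg hc] at h1
      exact hne h1
    have h3 := (hU1 t (by omega)).1
    rw [Int.abs_eq_natAbs, h3, h2]
    push_cast; rfl
  exact three (F := F) (C := fun t => cfg π (x (t+1)).1 (U t)) (T := N - 1)
    (fun t ht => (hU1 t ht).2.2.2) (fun t ht => hU2 t ht) hab hbc (by omega)
    (hvis a (by omega) ja) (hvis b (by omega) jb) (hvis c hcN jc)

/-- **Theorem.** All letter increments under a fixed-point-free involution Little bump are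
in `{0, 1, 2}` (relational form). -/
theorem bump_increments {π : Perm ℤ} {w v : List ℤ} (hw : IsFpfWord w) (h : FBump π w v) :
    v.length = w.length ∧ ∀ k (h1 : k < w.length) (h2 : k < v.length),
      v[k] - w[k] ∈ ({0, 1, 2} : Set ℤ) := by
  rcases h with ⟨i, N, x, h1, h2, h3, h4, h5, _, rfl⟩ | ⟨_, rfl⟩
  · obtain ⟨h6, h7⟩ := chain_increments hw h1 h2 h3 h4 h5
    refine ⟨h6, fun k hk hk' => ?_⟩
    have h8 := h7 k hk
    rw [List.getD_eq_getElem _ _ hk, List.getD_eq_getElem _ _ hk'] at h8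
    simp only [Set.mem_insert_iff, Set.mem_singleton_iff]
    omega
  · exact ⟨rfl, fun k hk hk' => by simp⟩

end FpfLittle
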