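import Pool.Agent.FpfBump.Exist

/-!
# The functional form of the main theorem
-/

namespace FpfLittle

open Equiv FpfBump

lemma fpush_spec {π : Perm ℤ} {v : List ℤ} {j : ℕ} (hj : j < v.length)
    (hm : Minl π (del (ofList v) j) v.length) :
    FPush π (v, j) (fpush π (v, j)) ∧ (fpush π (v, j)).2 < v.length ∧
    Minl π (del (ofList (fpush π (v, j)).1) (fpush π (v, j)).2) v.length := by
  classical
  by_cases h : IsFpfWord v ∨ SemiReduced π v
  · have e : fpush π (v, j) = (v.modify j (· + 1), j) := by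
      unfold fpush
      simp only [if_pos h]
    rw [e]
    exact ⟨⟨Or.inl ⟨h, rfl⟩, rfl⟩, hj, by rw [del_modify]; exact hm⟩
  · have hex := exists_marked hj hm (fun h' => h (Or.inl h')) (fun h' => h (Or.inr h'))
    have hsp := Classical.epsilon_spec (p := fun j' => j' ≠ j ∧ Marked π v j') hex
    have e : fpush π (v, j) = (v.modify (Classical.epsilon (fun j' => j' ≠ j ∧ Marked π v j'))
        (· + 1), Classical.epsilon (fun j' => j' ≠ j ∧ Marked π v j')) := by
      unfold fpush
      simp only [if_neg h]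
    rw [e]
    exact ⟨⟨Or.inr ⟨fun h' => h (Or.inl h'), fun h' => h (Or.inr h'), hsp.1, hsp.2⟩, rfl⟩,
      hsp.2.1, by rw [del_modify]; exact minl_of_marked hsp.2⟩

lemma iter_spec {π : Perm ℤ} {w : List ℤ} {i : ℕ} (hmk : Marked π w i) (t : ℕ) :
    ((fpush π)^[t] (w, i)).2 < w.length ∧ ((fpush π)^[t] (w, i)).1.length = w.length ∧
    Minl π (del (ofList ((fpush π)^[t] (w, i)).1) ((fpush π)^[t] (w, i)).2) w.length := by
  induction t with
  | zero => exact ⟨hmk.1, rfl, minl_of_marked hmk⟩
  | succ t ih =>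
    obtain ⟨h1, h2, h3⟩ := ih
    rw [Function.iterate_succ_apply']
    have h4 := fpush_spec (π := π) (v := ((fpush π)^[t] (w, i)).1)
      (j := ((fpush π)^[t] (w, i)).2) (by rw [h2]; exact h1) (by rw [h2]; exact h3)
    obtain ⟨⟨_, h5⟩, h6, h7⟩ := h4
    rw [h2] at h6 h7
    refine ⟨h6, ?_, h7⟩
    have h8 := congrArg List.length h5
    rw [List.length_modify] at h8
    exact h8.trans h2

lemma iter_FPush {π : Perm ℤ} {w : List ℤ} {i : ℕ} (hmk : Marked π w i) (t : ℕ) :
    FPush π ((fpush π)^[t] (w, i)) ((fpush π)^[t+1] (w, i)) := by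
  obtain ⟨h1, h2, h3⟩ := iter_spec hmk t
  rw [Function.iterate_succ_apply']
  exact (fpush_spec (π := π) (v := ((fpush π)^[t] (w, i)).1)
      (j := ((fpush π)^[t] (w, i)).2) (by rw [h2]; exact h1) (by rw [h2]; exact h3)).1

/-- Termination: some `fpush^N(w, i)` with `N > 0` is fpf-reduced; indeed `N ≤ 2 * length`. -/
theorem terminates {π : Perm ℤ} {w : List ℤ} (hw : IsFpfWord w) {i : ℕ} (hmk : Marked π w i) :
    ∃ N, 0 < N ∧ N ≤ 2 * w.length ∧ IsFpfWord ((fpush π)^[N] (w, i)).1 := by
  by_contra hcon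
  push Not at hcon
  have hinc := chain_increments hw hmk (N := 2 * w.length + 1)
    (x := fun t => (fpush π)^[t] (w, i)) (by omega) rfl (fun t _ => iter_FPush hmk t)
    (fun t h1 h2 => hcon t h1 (by omega))
  set S : ℕ → ℤ := fun t => ∑ k ∈ Finset.range w.length, ((fpush π)^[t] (w, i)).1.getD k 0
    with hS
  have hstep : ∀ t, S (t+1) = S t + 1 := by
    intro t
    obtain ⟨h1, h2, _⟩ := iter_spec hmk t
    obtain ⟨h3, _, _⟩ := iter_spec hmk (t+1)
    have h4 := (iter_FPush hmk t).2
    show ∑ k ∈ Finset.range w.length, ((fpush π)^[t+1] (w, i)).1.getD k 0 =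
      ∑ k ∈ Finset.range w.length, ((fpush π)^[t] (w, i)).1.getD k 0 + 1
    rw [h4]
    have h5 : ∀ k ∈ Finset.range w.length,
        (((fpush π)^[t] (w, i)).1.modify ((fpush π)^[t+1] (w, i)).2 (· + 1)).getD k 0 =
        ((fpush π)^[t] (w, i)).1.getD k 0 +
          (if ((fpush π)^[t+1] (w, i)).2 = k then 1 else 0) := by
      intro k hk
      rw [getD_modify' _ (by rw [h2]; exact Finset.mem_range.mp hk)]
      split_ifs <;> simp
    rw [Finset.sum_congr rfl h5, Finset.sum_add_distrib, Finset.sum_ite_eq,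
      if_pos (Finset.mem_range.mpr h3)]
  have hSt : ∀ t : ℕ, S t = S 0 + t := by
    intro t
    induction t with
    | zero => simp
    | succ t ih => rw [hstep, ih]; push_cast; ring
  have hle : S (2 * w.length + 1) ≤ S 0 + 2 * w.length := by
    have h1 : S (2 * w.length + 1) ≤ ∑ k ∈ Finset.range w.length, (w.getD k 0 + 2) :=
      Finset.sum_le_sum (fun k hk => (hinc.2 k (Finset.mem_range.mp hk)).2)
    rw [Finset.sum_add_distrib] at h1
    have h2 : S 0 = ∑ k ∈ Finset.range w.length, w.getD k 0 := rfl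
    rw [h2]
    refine h1.trans (le_of_eq ?_)
    simp
    ring
  have := hSt (2 * w.length + 1)
  push_cast at this
  omega

/-- **Main theorem.** For every `π ∈ I^fpf_ℤ` and every fpf-involution word `w`, the word
`fb_π(w)` has the length of `w`, and every letter of `fb_π(w)` exceeds the corresponding letter
of `w` by `0`, `1` or `2`. -/
theorem fb_increments (π : Perm ℤ) (w : List ℤ) (hw : IsFpfWord w) :
    (fb π w).length = w.length ∧ ∀ k (h1 : k < w.length) (h2 : k < (fb π w).length),
      (fb π w)[k] - w[k] ∈ ({0, 1, 2} : Set ℤ) := by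
  classical
  by_cases h : ∃ i, Marked π w i
  · set i := Classical.epsilon (Marked π w) with hi
    have hmk : Marked π w i := Classical.epsilon_spec h
    set A := {N | 0 < N ∧ IsFpfWord ((fpush π)^[N] (w, i)).1} with hA
    have hne : A.Nonempty := by
      obtain ⟨N, h1, _, h2⟩ := terminates hw hmk
      exact ⟨N, h1, h2⟩
    have hmem : sInf A ∈ A := Nat.sInf_mem hne
    have hfb : fb π w = ((fpush π)^[sInf A] (w, i)).1 := by
      unfold fb
      rw [if_pos h]
    rw [hfb]
    refine bump_increments hw (π := π) (Or.inl ⟨i, sInf A, fun t => (fpush π)^[t] (w, i),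
      hmk, hmem.1, rfl, fun t _ => iter_FPush hmk t, ?_, hmem.2, rfl⟩)
    intro t h1 h2 h3
    exact Nat.notMem_of_lt_sInf h2 ⟨h1, h3⟩
  · have hfb : fb π w = w := by
      unfold fb
      rw [if_neg h]
    rw [hfb]
    exact ⟨rfl, fun k hk hk' => by simp⟩

end FpfLittle
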