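import Pool.Agent.FpfBump.Diag

/-!
# From pushes of words to moves of configurations
-/

namespace FpfLittle

open Equiv FpfBump

/-- products of simple transpositions have finite support -/
lemma wordPerm_mem_SZ (w : List ℤ) : wordPerm w ∈ SZ := by
  induction w with
  | nil =>
    show Set.Finite _
    simp [wordPerm]
  | cons a w ih =>
    have ih' : Set.Finite {i | wordPerm w i ≠ i} := ih
    have h : {i | wordPerm (a :: w) i ≠ i} ⊆ {i | wordPerm w i ≠ i} ∪ {a, a + 1} := by
      intro i hi
      by_contra hcon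
      simp only [Set.mem_union, Set.mem_ofPred_eq, Set.mem_insert_iff, Set.mem_singleton_iff,
        not_or, not_not] at hcon
      obtain ⟨h1, h2, h3⟩ := hcon
      apply hi
      have : wordPerm (a :: w) i = s a (wordPerm w i) := by simp [wordPerm]
      rw [this, h1, s, swap_apply_of_ne_of_ne h2 h3]
    exact ((ih'.union (by simp)).subset h : Set.Finite _)

/-- marked words give minimal words with blanks -/
lemma minl_of_marked {π : Perm ℤ} {v : List ℤ} {j : ℕ} (h : Marked π v j) :
    Minl π (del (ofList v) j) v.length := by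
  obtain ⟨hj, σ, ⟨hσ, hσ2, hσ3⟩, hr1, hr2⟩ := h
  have hP := P_eraseIdx v hj
  have hBj : ofList v j = some v[j] := by simp [ofList, hj]
  refine ⟨?_, ?_⟩
  · rw [hP, hr1]; exact hσ2
  · intro B' hB'
    obtain ⟨l, h1, h2⟩ := realize B' v.length
    have h3 := hσ3 (wordPerm l) (wordPerm_mem_SZ l) (by rw [h1]; exact hB')
    have h4 : len (wordPerm l) ≤ l.length := Nat.sInf_le ⟨l, rfl, rfl⟩
    have h5 : ∃ w, wordPerm w = σ ∧ w.length = len σ :=
      Nat.sInf_mem (s := {l | ∃ w, wordPerm w = σ ∧ w.length = l}) ⟨_, _, hr1, rfl⟩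
    obtain ⟨w, h6, h7⟩ := h5
    have h8 := hr2 w h6
    have h9 := cnt_del (ofList v) hj hBj
    rw [cnt_ofList v _ le_rfl] at h9
    have h10 := List.length_eraseIdx_of_lt hj
    omega

/-- the configuration of a pushed word -/
def cfg (π : Perm ℤ) (v : List ℤ) (u : ℤ) : Cfg where
  L := line (del (ofList v) (u.natAbs - 1)) v.length π
  u := u
  w := fun z => if 0 < z then v.getD (z - 1).toNat 0 else 0

lemma del_none {v : List ℤ} (j : ℕ) : ∀ t, v.length ≤ t → del (ofList v) j t = none := by
  intro t ht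
  unfold del ofList
  split_ifs
  · rfl
  · exact List.getElem?_eq_none ht

lemma H_blank {B : ℕ → Option ℤ} {n j : ℕ} (h : B j = none) : H B n j = H B n (j+1) := by
  rw [H_succ, h]; simp [c]

lemma valid_cfg {F : Frame} {π : Perm ℤ} {v : List ℤ} {u : ℤ} (hF : ∀ a, F.pi a = π a)
    (hn : F.n = v.length) (hu0 : u ≠ 0) (hun : |u| ≤ v.length)
    (hm : Minl π (del (ofList v) (u.natAbs - 1)) v.length)
    (htok : (cfg π v u).L u F.q = (cfg π v u).w |u|) : Valid F (cfg π v u) := by
  have hbl : del (ofList v) (u.natAbs - 1) (u.natAbs - 1) = none := by simp [del]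
  refine ⟨?_, ?_, ?_, ?_, ?_, htok, hu0, by rw [hn]; exact hun⟩
  · intro s a
    rw [hF]
    exact line_mir hm.pi_sq s a
  · intro s hs a
    exact line_fin (del_none _) s (by rw [← hn]; exact hs) a
  · intro a b hab s s' hs h
    exact hm.up (del_none _) a b hab s s' hs h
  · intro z hz hzn hzu hzu' a
    have hzu1 : z ≠ u := hzu
    have hzu2 : z ≠ -u := hzu'
    obtain ⟨i, hi⟩ := Int.eq_ofNat_of_zero_le (show 0 ≤ z - 1 by omega)
    have e1 : z = ((i + 1 : ℕ) : ℤ) := by push_cast; omega
    have hi2 : i < v.length := by omega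
    have hD : del (ofList v) (u.natAbs - 1) i = some v[i] := by
      unfold del ofList
      rw [if_neg (by omega)]
      simp [hi2]
    show line _ _ _ (z - 1) a = swap (if 0 < z then v.getD (z-1).toNat 0 else 0)
      ((if 0 < z then v.getD (z-1).toNat 0 else 0) + 1) (line _ _ _ z a)
    rw [if_pos hz, hi, e1, line_pos, line_pos, H_succ, hD]
    simp [c, s, List.getD_eq_getElem?_getD, hi2]
  · intro a
    show line _ _ _ (u - 1) a = line _ _ _ u a
    rcases lt_or_gt_of_ne hu0 with h | h
    · obtain ⟨i, hi⟩ := Int.eq_ofNat_of_zero_le (show 0 ≤ -1 - u by omega)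
      have e1 : u = -1 - (i : ℤ) := by omega
      have e2 : u - 1 = -1 - ((i + 1 : ℕ) : ℤ) := by push_cast; omega
      have e3 : u.natAbs - 1 = i := by omega
      rw [e3] at hbl ⊢
      rw [e2, line_neg]
      conv_rhs => rw [e1]
      rw [line_neg, H_blank hbl]
    · obtain ⟨i, hi⟩ := Int.eq_ofNat_of_zero_le (show 0 ≤ u - 1 by omega)
      have e1 : u = ((i + 1 : ℕ) : ℤ) := by push_cast; omega
      have e3 : u.natAbs - 1 = i := by omega
      rw [e3] at hbl ⊢
      rw [hi, line_pos]
      conv_rhs => rw [e1]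
      rw [line_pos, H_blank hbl]

/-- values of the diagram with a blank, in terms of the full diagram -/
lemma eval_del {B : ℕ → Option ℤ} {n j : ℕ} {a u p q y g : ℤ} (hj : j < n)
    (ha : B j = some a) (hpq : p ≠ q) (hyq : y ≠ q) (hyp : y ≠ p) (hgp : g ≠ p) (hgq : g ≠ q)
    (hgy : g ≠ y)
    (h : (u = j + 1 ∧ tau B n j a = swap q y) ∨ (u = -(j+1) ∧ tau B n j a = swap p g)) (t : ℕ) :
    H (del B j) n t q = H B n t (if (t : ℤ) < u then y else q) ∧
    H (del B j) n t y = H B n t (if (t : ℤ) < u then q else y) ∧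
    H (del B j) n t p = H B n t (if (t : ℤ) < -u then g else p) ∧
    H (del B j) n t g = H B n t (if (t : ℤ) < -u then p else g) ∧
    ∀ b, b ≠ p → b ≠ q → b ≠ y → b ≠ g → H (del B j) n t b = H B n t b := by
  rcases le_or_gt t j with ht | ht
  · rw [H_del_le B hj ha ht]
    simp only [Perm.coe_mul, Function.comp_apply]
    rcases h with ⟨h1, h2⟩ | ⟨h1, h2⟩
    · rw [if_pos (by omega), if_pos (by omega), if_neg (by omega), if_neg (by omega), h2]
      refine ⟨by rw [swap_apply_left], by rw [swap_apply_right],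
        by rw [swap_apply_of_ne_of_ne hpq hyp.symm], by rw [swap_apply_of_ne_of_ne hgq hgy], ?_⟩
      intro b b1 b2 b3 b4
      rw [swap_apply_of_ne_of_ne b2 b3]
    · rw [if_neg (by omega), if_neg (by omega), if_pos (by omega), if_pos (by omega), h2]
      refine ⟨by rw [swap_apply_of_ne_of_ne hpq.symm hgq.symm],
        by rw [swap_apply_of_ne_of_ne hyp hgy.symm],
        by rw [swap_apply_left], by rw [swap_apply_right], ?_⟩
      intro b b1 b2 b3 b4
      rw [swap_apply_of_ne_of_ne b1 b4]
  · rw [H_del_gt B hj ht]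
    rcases h with ⟨h1, h2⟩ | ⟨h1, h2⟩
    · rw [if_neg (by omega), if_neg (by omega), if_neg (by omega), if_neg (by omega)]
      exact ⟨rfl, rfl, rfl, rfl, fun _ _ _ _ _ => rfl⟩
    · rw [if_neg (by omega), if_neg (by omega), if_neg (by omega), if_neg (by omega)]
      exact ⟨rfl, rfl, rfl, rfl, fun _ _ _ _ _ => rfl⟩

/-- two transpositions of labels whose product commutes with the involution -/
lemma comm_lemma {π : Perm ℤ} (sq : ∀ a, π (π a) = a) (ne : ∀ a, π a ≠ a) {x y a b : ℤ}
    (hxy : x ≠ y) (h : swap a b * (swap x y * π * swap x y) * swap a b = π) (hyx : y ≠ π x) :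
    (a = x ∧ b = y) ∨ (a = y ∧ b = x) ∨ (a = π x ∧ b = π y) ∨ (a = π y ∧ b = π x) := by
  have h1 : ∀ z, swap a b (swap x y (π z)) = π (swap a b (swap x y z)) := by
    intro z
    have h2 := congrArg (fun f : Perm ℤ => f (swap a b (swap x y z))) h
    simpa using h2
  have hπ : π x ≠ π y := fun hh => hxy (π.injective hh)
  have hxy' : π y ≠ x := fun hh => hyx (by rw [← hh, sq])
  have hx := h1 x
  have hy := h1 y
  rw [swap_apply_of_ne_of_ne (ne x) hyx.symm, swap_apply_left] at hx
  rw [swap_apply_of_ne_of_ne hxy' (ne y), swap_apply_right] at hy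
  by_cases c1 : y = a
  · subst c1
    by_cases c2 : x = b
    · exact Or.inr (Or.inl ⟨rfl, c2.symm⟩)
    · exfalso
      rw [swap_apply_of_ne_of_ne hxy c2] at hy
      by_cases c3 : π y = b
      · rw [c3, swap_apply_right] at hy
        exact hyx hy
      · rw [swap_apply_of_ne_of_ne (ne y) c3] at hy
        exact hπ hy.symm
  · by_cases c2 : y = b
    · subst c2
      by_cases c3 : x = a
      · exact Or.inl ⟨c3.symm, rfl⟩
      · exfalso
        rw [swap_apply_of_ne_of_ne c3 hxy] at hy
        by_cases c4 : π y = a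
        · rw [c4, swap_apply_left] at hy
          exact hyx hy
        · rw [swap_apply_of_ne_of_ne c4 (ne y)] at hy
          exact hπ hy.symm
    · rw [swap_apply_of_ne_of_ne c1 c2] at hx
      by_cases c3 : π x = a
      · rw [c3, swap_apply_left] at hx
        exact Or.inr (Or.inr (Or.inl ⟨c3.symm, hx⟩))
      · by_cases c4 : π x = b
        · rw [c4, swap_apply_right] at hx
          exact Or.inr (Or.inr (Or.inr ⟨hx, c4.symm⟩))
        · rw [swap_apply_of_ne_of_ne c3 c4] at hx
          exact absurd hx hπ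

lemma getD_modify {v : List ℤ} {j : ℕ} (i : ℕ) (hj : j < v.length) :
    (v.modify j (· + 1)).getD i 0 = if i = j then v.getD i 0 + 1 else v.getD i 0 := by
  rw [List.getD_eq_getElem?_getD, List.getD_eq_getElem?_getD, List.getElem?_modify]
  by_cases h : i = j
  · subst h
    simp [hj]
  · rw [if_neg h]
    have h' : j ≠ i := fun hh => h hh.symm
    simp [h']

lemma del_modify (v : List ℤ) (j : ℕ) (f : ℤ → ℤ) :
    del (ofList (v.modify j f)) j = del (ofList v) j := by
  funext t
  unfold del ofList
  by_cases h : t = j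
  · simp [h]
  · rw [if_neg h, if_neg h, List.getElem?_modify]
    have h' : j ≠ t := fun hh => h hh.symm
    simp [h']

/-- the transposition of labels at the token slot, in terms of line labels -/
lemma tau_line {F : Frame} {π : Perm ℤ} {v : List ℤ} {u : ℤ} {j : ℕ} (hF : ∀ a, F.pi a = π a)
    (hj : j < v.length) (hu : u.natAbs = j + 1)
    (hm : Minl π (del (ofList v) j) v.length)
    (htok : (cfg π v u).L u F.q = (cfg π v u).w |u|)
    {y : ℤ} (hy : (cfg π v u).L u y = (cfg π v u).L u F.q + 1) :
    (u = j + 1 ∧ tau (ofList v) v.length j v[j] = swap F.q y) ∨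
    (u = -(j+1) ∧ tau (ofList v) v.length j v[j] = swap F.p (π y)) := by
  have hbl : del (ofList v) j j = none := by simp [del]
  have hu' : u.natAbs - 1 = j := by omega
  have habs : |u| = (j : ℤ) + 1 := by rw [Int.abs_eq_natAbs]; omega
  have hw : (cfg π v u).w |u| = v[j] := by
    show (if 0 < |u| then v.getD (|u| - 1).toNat 0 else 0) = v[j]
    rw [if_pos (by omega), show (|u| - 1).toNat = j by omega]
    simp [List.getD_eq_getElem?_getD, hj]
  rw [hw] at htok
  rw [htok] at hy
  have htok' : line (del (ofList v) (u.natAbs - 1)) v.length π u F.q = v[j] := htok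
  have hy' : line (del (ofList v) (u.natAbs - 1)) v.length π u y = v[j] + 1 := hy
  rw [hu'] at htok' hy'
  unfold tau
  rw [← H_del_gt (ofList v) hj (Nat.lt_succ_self j)]
  rcases Int.natAbs_eq u with h | h
  · left
    have e : u = ((j+1 : ℕ) : ℤ) := by omega
    rw [e, line_pos] at htok' hy'
    refine ⟨by rw [e]; push_cast; rfl, ?_⟩
    rw [← hy', ← htok']
    simp
  · right
    have e : u = -1 - (j : ℤ) := by omega
    rw [e, line_neg, H_blank hbl] at htok' hy'
    refine ⟨by rw [e]; ring, ?_⟩
    have hq : π F.q = F.p := by rw [← hF]; exact F.hq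
    simp only [Perm.coe_mul, Function.comp_apply, hq] at htok' hy'
    rw [← hy', ← htok']
    simp

end FpfLittle
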