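import Pool.Agent.FpfBump.Link

/-!
# One push is one step of the abstract dynamics
-/

namespace FpfLittle

open Equiv FpfBump

lemma at_of_tau {B : ℕ → Option ℤ} {n i : ℕ} {a x y : ℤ} (ha : B i = some a)
    (h : tau B n i a = swap x y) : At B n i x y := by
  unfold tau at h
  set k := H B n (i+1) with hk
  have hne : k⁻¹ a ≠ k⁻¹ (a+1) := fun hh => by have := k⁻¹.injective hh; omega
  have h1 := congrArg (fun f : Perm ℤ => f (k⁻¹ a)) h
  simp only [swap_apply_left] at h1
  rw [swap_apply_def] at h1
  split_ifs at h1 with h2 h3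
  · refine ⟨a, ha, Or.inl ⟨?_, ?_⟩⟩
    · rw [← h2]; simp [← hk]
    · rw [← h1]; simp [← hk]
  · refine ⟨a, ha, Or.inr ⟨?_, ?_⟩⟩
    · rw [← h1]; simp [← hk]
    · rw [← h3]; simp [← hk]
  · exact absurd h1.symm hne

lemma tau_del {B : ℕ → Option ℤ} {n i j : ℕ} {a b : ℤ} (hj : j < n) (hb : B j = some b)
    (hij : i ≠ j) :
    tau (del B j) n i a = if i < j then tau B n j b * tau B n i a * tau B n j b
      else tau B n i a := by
  split_ifs with h
  · rw [tau_eq (del B j), H_del_le B hj hb (show i + 1 ≤ j by omega), mul_inv_rev, tau_eq B n i]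
    have : (tau B n j b)⁻¹ = tau B n j b := by unfold tau; rw [swap_inv]
    rw [this]
    simp only [mul_assoc]
  · unfold tau
    rw [H_del_gt B hj (show j < i + 1 by omega)]

lemma cfg_w (π : Perm ℤ) {v : List ℤ} (u : ℤ) {z : ℤ} {i : ℕ} (hz : z = i + 1)
    (hi : i < v.length) : (cfg π v u).w z = v[i] := by
  show (if 0 < z then v.getD (z-1).toNat 0 else 0) = v[i]
  rw [if_pos (by omega), show (z - 1).toNat = i by omega]
  simp [List.getD_eq_getElem?_getD, hi]

lemma cfg_w_modify (π : Perm ℤ) {v : List ℤ} (u u' : ℤ) {i : ℕ} (hi : i < v.length)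
    (hu : |u'| = i + 1) (z : ℤ) :
    (cfg π (v.modify i (· + 1)) u').w z = if z = |u'| then (cfg π v u).w z + 1
      else (cfg π v u).w z := by
  show (if 0 < z then (v.modify i (· + 1)).getD (z-1).toNat 0 else 0) =
    if z = |u'| then (if 0 < z then v.getD (z-1).toNat 0 else 0) + 1
      else (if 0 < z then v.getD (z-1).toNat 0 else 0)
  by_cases h0 : 0 < z
  · rw [if_pos h0, if_pos h0, getD_modify _ hi]
    by_cases h1 : z = |u'|
    · rw [if_pos (by omega), if_pos h1]
    · rw [if_neg (by omega), if_neg h1]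
  · rw [if_neg h0, if_neg h0, if_neg (by omega)]

/-- if conjugation by `swap a b` fixes `π` then `b = π a` -/
lemma mate_of_conj {π : Perm ℤ} (ne : ∀ a, π a ≠ a) {a b : ℤ} (hab : a ≠ b)
    (h : swap a b * π * swap a b = π) : b = π a := by
  have h1 : swap a b (π a) = π b := by
    have h2 := congrArg (fun f : Perm ℤ => f b) h
    simpa using h2
  by_contra hcon
  rw [swap_apply_of_ne_of_ne (ne a) (Ne.symm hcon)] at h1
  exact hab (π.injective h1)

/-- one push is one step -/
theorem trans {F : Frame} {π : Perm ℤ} {v : List ℤ} {j : ℕ} {u : ℤ} (hF : ∀ a, F.pi a = π a)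
    (hn : F.n = v.length) (hj : j < v.length) (hu : u.natAbs = j + 1)
    (hm : Minl π (del (ofList v) j) v.length) (hV : Valid F (cfg π v u))
    (hfpf : ¬ IsFpfWord v) {b : List ℤ × ℕ} (hp : FPush π (v, j) b) :
    b.1 = v.modify b.2 (· + 1) ∧ b.2 < v.length ∧
    Minl π (del (ofList b.1) b.2) v.length ∧
    ∃ u' : ℤ, u'.natAbs = b.2 + 1 ∧ Step F (cfg π v u) (cfg π b.1 u') ∧
      Valid F (cfg π b.1 u') := by
  obtain ⟨v', j'⟩ := b
  obtain ⟨hp1, hp2⟩ := hp
  simp only at hp1 hp2 ⊢
  subst hp2
  refine ⟨rfl, ?_⟩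
  have sq := hm.pi_sq
  have ne := hm.pi_ne
  have hπq : π F.q = F.p := by rw [← hF]; exact F.hq
  have hπp : π F.p = F.q := by rw [← hF]; exact F.hp
  have hpq := F.hpq
  have htok := hV.tok
  have htok2 : (cfg π v u).L u F.q = (cfg π v u).w |u| := htok
  have habs : |u| = (j : ℤ) + 1 := by rw [Int.abs_eq_natAbs]; omega
  obtain ⟨y, hy⟩ := ((cfg π v u).L u).surjective ((cfg π v u).L u F.q + 1)
  have hτ := tau_line hF hj hu hm htok2 hy
  have hBj : ofList v j = some v[j] := by simp [ofList, hj]
  have hPD := P_del_n (ofList v) hj hBj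
  have hyq : y ≠ F.q := fun hh => by rw [hh] at hy; omega
  -- conjugate of the full word
  have hττ : tau (ofList v) v.length j v[j] * tau (ofList v) v.length j v[j] = 1 := by
    unfold tau; rw [swap_mul_self]
  have hconj : conj (P (ofList v) v.length) =
      tau (ofList v) v.length j v[j] * π * tau (ofList v) v.length j v[j] := by
    have h1 : P (ofList v) v.length = P (del (ofList v) j) v.length * tau (ofList v) v.length j v[j] := by
      rw [hPD, mul_assoc, hττ, mul_one]
    have h2 : (tau (ofList v) v.length j v[j])⁻¹ = tau (ofList v) v.length j v[j] :=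
      inv_eq_of_mul_eq_one_left hττ
    rw [h1, conj_mul, hm.conj_eq, h2]
  -- y = p iff the conjugate is π
  have hyp_of : conj (P (ofList v) v.length) = π → y = F.p := by
    intro hc
    rw [hc] at hconj
    rcases hτ with ⟨_, h2⟩ | ⟨_, h2⟩
    · rw [h2] at hconj
      rw [mate_of_conj ne hyq.symm hconj.symm, hπq]
    · rw [h2] at hconj
      by_cases hpy : F.p = π y
      · exfalso; apply hyq; rw [← sq y, ← hpy, hπp]
      · have h3 := mate_of_conj ne hpy hconj.symm
        exact π.injective h3
  have hlen : (v.modify j' (· + 1)).length = v.length := List.length_modify _ _ _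
  rcases hp1 with ⟨hp1, rfl⟩ | ⟨_, _, hjj, hmk⟩
  · -- stay
    have hsemi : SemiReduced π v := by
      rcases hp1 with h | h
      · exact absurd h hfpf
      · exact h
    obtain ⟨_, σ, _, hσ2, hσ3, _⟩ := hsemi
    have hc : conj (P (ofList v) v.length) = π := by
      rw [P_ofList_length, hσ3]; exact hσ2
    have hyp := hyp_of hc
    subst hyp
    have huneg : u < 0 := by
      by_contra hcon
      have := hV.pq u (by omega)
      omega
    refine ⟨hj, by rw [del_modify]; exact hm, -u, by omega, ?_, ?_⟩
    · left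
      refine ⟨huneg, hy, rfl, ?_, ?_⟩
      · show line _ _ _ = line _ _ _
        rw [hlen, show (-u).natAbs - 1 = j' by omega, show u.natAbs - 1 = j' by omega, del_modify]
      · intro z
        have := cfg_w_modify π u (-u) hj (by rw [abs_neg]; exact habs) z
        rw [this, abs_neg]
        rfl
    · refine valid_cfg hF (by rw [hn, hlen]) (by omega) (by rw [abs_neg, hlen, habs]; omega) ?_ ?_
      · rw [hlen, show (-u).natAbs - 1 = j' by omega, del_modify]; exact hm
      · have h1 := cfg_w_modify π u (-u) hj (by rw [abs_neg]; exact habs) |(-u)|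
        rw [if_pos rfl, abs_neg] at h1
        rw [abs_neg, h1, ← htok2, ← hy]
        show line (del (ofList _) ((-u).natAbs - 1)) (List.length _) π (-u) F.q =
          line (del (ofList v) (u.natAbs - 1)) v.length π u F.p
        rw [hlen, show (-u).natAbs - 1 = j' by omega, show u.natAbs - 1 = j' by omega, del_modify]
        have hbl := hV.blank F.p
        have hbl' : line (del (ofList v) (u.natAbs - 1)) v.length π (u - 1) F.p =
          line (del (ofList v) (u.natAbs - 1)) v.length π u F.p := hbl
        rw [show u.natAbs - 1 = j' by omega] at hbl'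
        rw [← hbl', show -u = -1 - (u - 1) by ring, line_mir sq, hπq]
  · -- jump
    have hj' : j' < v.length := hmk.1
    have hm' := minl_of_marked hmk
    have hBj' : ofList v j' = some v[j'] := by simp [ofList, hj']
    have hPD' := P_del_n (ofList v) hj' hBj'
    have hDj' : del (ofList v) j j' = some v[j'] := by
      unfold del; rw [if_neg hjj]; exact hBj'
    set τ := tau (ofList v) v.length j v[j] with hτdef
    set τ' := tau (ofList v) v.length j' v[j'] with hτ'def
    have hτ'inv : τ'⁻¹ = τ' := by rw [hτ'def]; unfold tau; rw [swap_inv]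
    have hconj' : τ' * (τ * π * τ) * τ' = π := by
      have h1 := hm'.conj_eq
      rw [hPD', conj_mul, hconj, hτ'inv] at h1
      exact h1
    obtain ⟨x1, y1, hxy1, hτ'1⟩ : ∃ x1 y1, x1 ≠ y1 ∧ τ' = swap x1 y1 := by
      refine ⟨_, _, ?_, rfl⟩
      intro hh
      have := (H (ofList v) v.length (j'+1))⁻¹.injective hh
      omega
    -- y ≠ p
    have hyp : y ≠ F.p := by
      intro hyp
      have hτpq : τ = swap F.p F.q := by
        rcases hτ with ⟨_, h2⟩ | ⟨_, h2⟩
        · rw [h2, hyp, swap_comm]
        · rw [h2, hyp, hπp]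
      have hcτ : τ * π * τ = π := by
        rw [hτpq]
        have h5 : π * swap F.p F.q = swap F.p F.q * π := by
          rw [Equiv.mul_swap_eq_swap_mul, hπp, hπq, swap_comm]
        rw [mul_assoc, h5, ← mul_assoc, swap_mul_self, one_mul]
      rw [hcτ, hτ'1] at hconj'
      have hmate := mate_of_conj ne hxy1 hconj'
      have htd := tau_del (a := v[j']) hj hBj hjj
      rw [← hτdef, ← hτ'def] at htd
      have hfinal : ∃ x2, tau (del (ofList v) j) v.length j' v[j'] = swap x2 (π x2) := by
        rw [htd]
        split_ifs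
        · refine ⟨τ x1, ?_⟩
          have e1 : τ (π x1) = π (τ x1) := by
            have h6 := congrArg (fun f : Perm ℤ => f (τ x1)) hcτ
            have h7 : τ (τ x1) = x1 := by
              have : (τ * τ) x1 = x1 := by rw [hττ]; rfl
              exact this
            simp only [Perm.coe_mul, Function.comp_apply] at h6
            rw [h7] at h6
            exact h6
          rw [hτ'1, hmate, Equiv.mul_swap_eq_swap_mul, mul_assoc, hττ, mul_one, e1]
        · exact ⟨x1, by rw [hτ'1, hmate]⟩
      obtain ⟨x2, hx2⟩ := hfinal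
      exact hm.no_mates hj' (at_of_tau hDj' hx2)
    set g := π y with hg
    have hgp : g ≠ F.p := fun hh => hyq (by rw [← sq y, ← hg, hh, hπp])
    have hgq : g ≠ F.q := fun hh => hyp (by rw [← sq y, ← hg, hh, hπq])
    have hgy : g ≠ y := ne y
    have hπg : π g = y := by rw [hg, sq]
    -- the crossing at j'
    have hτ'2 : τ' = swap F.q y ∨ τ' = swap F.p g := by
      rw [hτ'1] at hconj' ⊢
      rcases hτ with ⟨_, h2⟩ | ⟨_, h2⟩
      · rw [h2] at hconj'
        rcases comm_lemma sq ne hyq.symm hconj' (by rw [hπq]; exact hyp) with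
          ⟨h3, h4⟩ | ⟨h3, h4⟩ | ⟨h3, h4⟩ | ⟨h3, h4⟩
        · left; rw [h3, h4]
        · left; rw [h3, h4, swap_comm]
        · right; rw [h3, h4, hπq]
        · right; rw [h3, h4, hπq, swap_comm]
      · rw [h2] at hconj'
        rcases comm_lemma sq ne hgp.symm hconj' (by rw [hπp]; exact hgq) with
          ⟨h3, h4⟩ | ⟨h3, h4⟩ | ⟨h3, h4⟩ | ⟨h3, h4⟩
        · right; rw [h3, h4]
        · right; rw [h3, h4, swap_comm]
        · left; rw [h3, h4, hπp, hπg]
        · left; rw [h3, h4, hπp, hπg, swap_comm]
    have hcomm : swap F.p g * swap F.q y = swap F.q y * swap F.p g := by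
      rw [Equiv.mul_swap_eq_swap_mul, swap_apply_of_ne_of_ne hpq.ne' hgq.symm,
        swap_apply_of_ne_of_ne hyp hgy.symm]
    have hτD : tau (del (ofList v) j) v.length j' v[j'] = τ' := by
      have htd := tau_del (a := v[j']) hj hBj hjj
      rw [← hτdef, ← hτ'def] at htd
      rw [htd]
      split_ifs
      · rcases hτ with ⟨_, h2⟩ | ⟨_, h2⟩ <;> rcases hτ'2 with h3 | h3 <;> rw [h2, h3]
        · rw [swap_mul_self, one_mul]
        · rw [← hcomm, mul_assoc, swap_mul_self, mul_one]
        · rw [hcomm, mul_assoc, swap_mul_self, mul_one]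
        · rw [swap_mul_self, one_mul]
      · rfl
    -- the new token
    obtain ⟨u', hu'1, hu'2⟩ : ∃ u' : ℤ, u'.natAbs = j' + 1 ∧
        ((u' = j' + 1 ∧ τ' = swap F.q y) ∨ (u' = -(j'+1) ∧ τ' = swap F.p g)) := by
      rcases hτ'2 with h | h
      · exact ⟨j' + 1, by omega, Or.inl ⟨rfl, h⟩⟩
      · exact ⟨-(j' + 1), by omega, Or.inr ⟨rfl, h⟩⟩
    have habs' : |u'| = (j' : ℤ) + 1 := by rw [Int.abs_eq_natAbs]; omega
    have ev := eval_del hj hBj hpq.ne hyq hyp hgp hgq hgy hτ
    have ev' := eval_del hj' hBj' hpq.ne hyq hyp hgp hgq hgy hu'2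
    have LA : ∀ s, (cfg π v u).L s = line (del (ofList v) j) v.length π s := by
      intro s
      show line _ _ _ _ = _
      rw [show u.natAbs - 1 = j by omega]
    have LB : ∀ s, (cfg π (v.modify j' (· + 1)) u').L s =
        line (del (ofList v) j') v.length π s := by
      intro s
      show line _ _ _ _ = _
      rw [hlen, show u'.natAbs - 1 = j' by omega, del_modify]
    have hMove : Move F (cfg π v u) (cfg π (v.modify j' (· + 1)) u') y u' := by
      refine ⟨hyp, hyq, hy, by omega, ?_, ?_, rfl, ?_, ?_, ?_, ?_, ?_, ?_, ?_⟩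
      · show u' ≠ u
        omega
      · show u' ≠ -u
        omega
      · intro z
        exact cfg_w_modify π u u' hj' habs' z
      · -- crossing
        have hat := at_of_tau hDj' hτD
        rw [cfg_w π u habs' hj', LA, LA]
        rcases hu'2 with ⟨h1, h2⟩ | ⟨h1, h2⟩
        · have hat : At (del (ofList v) j) v.length j' F.q y := at_of_tau hDj' (hτD.trans h2)
          obtain ⟨a, ha, hat⟩ := hat
          rw [hDj'] at ha
          simp only [Option.some.injEq] at ha
          subst ha
          have e1 : u' = ((j' + 1 : ℕ) : ℤ) := by push_cast; exact h1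
          rw [show u' - 1 = (j' : ℤ) by omega, line_pos]
          rw [e1, line_pos, H_succ, hDj']
          simp only [c, s, Perm.coe_mul, Function.comp_apply]
          rcases hat with ⟨h3, h4⟩ | ⟨h3, h4⟩
          · right
            rw [h3, h4, swap_apply_left, swap_apply_right]
            exact ⟨rfl, rfl, rfl, rfl⟩
          · left
            rw [h3, h4, swap_apply_left, swap_apply_right]
            exact ⟨rfl, rfl, rfl, rfl⟩
        · have hat : At (del (ofList v) j) v.length j' F.p g := at_of_tau hDj' (hτD.trans h2)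
          obtain ⟨a, ha, hat⟩ := hat
          rw [hDj'] at ha
          simp only [Option.some.injEq] at ha
          subst ha
          rw [show u' - 1 = -1 - ((j' + 1 : ℕ) : ℤ) by push_cast; omega, line_neg,
            show u' = -1 - (j' : ℤ) by omega, line_neg, H_succ _ _ j', hDj']
          simp only [c, s, Perm.coe_mul, Function.comp_apply, hπq, ← hg]
          rcases hat with ⟨h3, h4⟩ | ⟨h3, h4⟩
          · left
            rw [h3, h4, swap_apply_left, swap_apply_right]
            exact ⟨rfl, rfl, rfl, rfl⟩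
          · right
            rw [h3, h4, swap_apply_left, swap_apply_right]
            exact ⟨rfl, rfl, rfl, rfl⟩
      · -- m1
        intro s hs
        have hs' : FpfBump.Btw u u' s := hs
        unfold FpfBump.Btw at hs'
        rw [LA, LB]
        rcases le_or_gt 0 s with h0 | h0
        · obtain ⟨t, rfl⟩ := Int.eq_ofNat_of_zero_le h0
          rw [line_pos, line_pos, (ev' t).1, (ev' t).2.1, (ev t).1, (ev t).2.1]
          refine ⟨?_, ?_⟩ <;> congr 1 <;> split_ifs <;> first | rfl | (exfalso; omega)
        · obtain ⟨t, ht⟩ := Int.eq_ofNat_of_zero_le (show 0 ≤ -1 - s by omega)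
          have hst : s = -1 - (t : ℤ) := by omega
          rw [hst, line_neg, line_neg]
          simp only [Perm.coe_mul, Function.comp_apply, hπq, ← hg]
          rw [(ev' t).2.2.1, (ev' t).2.2.2.1, (ev t).2.2.1, (ev t).2.2.2.1]
          refine ⟨?_, ?_⟩ <;> congr 1 <;> split_ifs <;> first | rfl | (exfalso; omega)
      · -- m2
        intro s hs
        have hs' : ¬ FpfBump.Btw u u' s := hs
        unfold FpfBump.Btw at hs'
        rw [LA, LB]
        rcases le_or_gt 0 s with h0 | h0
        · obtain ⟨t, rfl⟩ := Int.eq_ofNat_of_zero_le h0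
          rw [line_pos, line_pos, (ev' t).1, (ev' t).2.1, (ev t).1, (ev t).2.1]
          refine ⟨?_, ?_⟩ <;> congr 1 <;> split_ifs <;> first | rfl | (exfalso; omega)
        · obtain ⟨t, ht⟩ := Int.eq_ofNat_of_zero_le (show 0 ≤ -1 - s by omega)
          have hst : s = -1 - (t : ℤ) := by omega
          rw [hst, line_neg, line_neg]
          simp only [Perm.coe_mul, Function.comp_apply, hπq, ← hg]
          rw [(ev' t).2.2.1, (ev' t).2.2.2.1, (ev t).2.2.1, (ev t).2.2.2.1]
          refine ⟨?_, ?_⟩ <;> congr 1 <;> split_ifs <;> first | rfl | (exfalso; omega)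
      · -- m3
        intro s hs
        have hs' : FpfBump.Btw u u' (-1 - s) := hs
        unfold FpfBump.Btw at hs'
        rw [LA, LB, hF, ← hg]
        rcases le_or_gt 0 s with h0 | h0
        · obtain ⟨t, rfl⟩ := Int.eq_ofNat_of_zero_le h0
          rw [line_pos, line_pos, (ev' t).2.2.1, (ev' t).2.2.2.1, (ev t).2.2.1, (ev t).2.2.2.1]
          refine ⟨?_, ?_⟩ <;> congr 1 <;> split_ifs <;> first | rfl | (exfalso; omega)
        · obtain ⟨t, ht⟩ := Int.eq_ofNat_of_zero_le (show 0 ≤ -1 - s by omega)
          have hst : s = -1 - (t : ℤ) := by omega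
          rw [hst, line_neg, line_neg]
          simp only [Perm.coe_mul, Function.comp_apply, hπp, hπg]
          rw [(ev' t).1, (ev' t).2.1, (ev t).1, (ev t).2.1]
          refine ⟨?_, ?_⟩ <;> congr 1 <;> split_ifs <;> first | rfl | (exfalso; omega)
      · -- m4
        intro s hs
        have hs' : ¬ FpfBump.Btw u u' (-1 - s) := hs
        unfold FpfBump.Btw at hs'
        rw [LA, LB, hF, ← hg]
        rcases le_or_gt 0 s with h0 | h0
        · obtain ⟨t, rfl⟩ := Int.eq_ofNat_of_zero_le h0
          rw [line_pos, line_pos, (ev' t).2.2.1, (ev' t).2.2.2.1, (ev t).2.2.1, (ev t).2.2.2.1]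
          refine ⟨?_, ?_⟩ <;> congr 1 <;> split_ifs <;> first | rfl | (exfalso; omega)
        · obtain ⟨t, ht⟩ := Int.eq_ofNat_of_zero_le (show 0 ≤ -1 - s by omega)
          have hst : s = -1 - (t : ℤ) := by omega
          rw [hst, line_neg, line_neg]
          simp only [Perm.coe_mul, Function.comp_apply, hπp, hπg]
          rw [(ev' t).1, (ev' t).2.1, (ev t).1, (ev t).2.1]
          refine ⟨?_, ?_⟩ <;> congr 1 <;> split_ifs <;> first | rfl | (exfalso; omega)
      · -- m5
        intro s a ap aq ay ag
        rw [hF, ← hg] at ag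
        rw [LA, LB]
        rcases le_or_gt 0 s with h0 | h0
        · obtain ⟨t, rfl⟩ := Int.eq_ofNat_of_zero_le h0
          rw [line_pos, line_pos, (ev' t).2.2.2.2 a ap aq ay ag, (ev t).2.2.2.2 a ap aq ay ag]
        · obtain ⟨t, ht⟩ := Int.eq_ofNat_of_zero_le (show 0 ≤ -1 - s by omega)
          have hst : s = -1 - (t : ℤ) := by omega
          rw [hst, line_neg, line_neg]
          simp only [Perm.coe_mul, Function.comp_apply]
          have h1 : π a ≠ F.p := fun hh => aq (by rw [← sq a, hh, hπp])
          have h2 : π a ≠ F.q := fun hh => ap (by rw [← sq a, hh, hπq])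
          have h3 : π a ≠ y := fun hh => ag (by rw [← sq a, hh])
          have h4 : π a ≠ g := fun hh => ay (by rw [← sq a, hh, hπg])
          rw [(ev' t).2.2.2.2 _ h1 h2 h3 h4, (ev t).2.2.2.2 _ h1 h2 h3 h4]
    refine ⟨hj', by rw [del_modify]; exact hm', u', hu'1, Or.inr ⟨y, u', hMove⟩, ?_⟩
    refine valid_cfg hF (by rw [hn, hlen]) (by omega) (by rw [hlen, habs']; omega) ?_ ?_
    · rw [hlen, show u'.natAbs - 1 = j' by omega, del_modify]; exact hm'
    · have hw := hMove.w' |u'|
      rw [if_pos rfl] at hw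
      rw [hw]
      rcases move_cases hV hMove with h | h
      · have h1 := h.R1 u' le_rfl h.ju
        rw [h1.1]; exact h.c4
      · have h1 := h.R0 u' (Or.inr le_rfl)
        rw [h1.1]; exact h.c2

end FpfLittle
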