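import Pool.Agent.FpfBump.Func

/-!
# `fb_π(w)` is well defined
-/

namespace FpfLittle

open Equiv FpfBump

lemma minl_of_rsp {π : Perm ℤ} {w : List ℤ} (h : w ∈ RSp π) :
    Minl π (ofList w) w.length := by
  obtain ⟨σ, ⟨hσ, hσ2, hσ3⟩, hr1, hr2⟩ := h
  refine ⟨?_, ?_⟩
  · rw [P_ofList_length, hr1]; exact hσ2
  · intro B' hB'
    obtain ⟨l, h1, h2⟩ := realize B' w.length
    have h3 := hσ3 (wordPerm l) (wordPerm_mem_SZ l) (by rw [h1]; exact hB')
    have h4 : len (wordPerm l) ≤ l.length := Nat.sInf_le ⟨l, rfl, rfl⟩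
    have h5 : ∃ w, wordPerm w = σ ∧ w.length = len σ :=
      Nat.sInf_mem (s := {l | ∃ w, wordPerm w = σ ∧ w.length = l}) ⟨_, _, hr1, rfl⟩
    obtain ⟨w', h6, h7⟩ := h5
    have h8 := hr2 w' h6
    rw [cnt_ofList w _ le_rfl]
    omega

/-- two slots carrying the same pair of labels, up to mirroring, coincide -/
lemma slots_eq {π : Perm ℤ} {B : ℕ → Option ℤ} {n i i' : ℕ} (h : Minl π B n)
    (hB : ∀ t, n ≤ t → B t = none) {x y : ℤ}
    (h1 : At B n i x y ∨ At B n i (π x) (π y)) (h2 : At B n i' x y ∨ At B n i' (π x) (π y)) :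
    i = i' := by
  have sq := h.pi_sq
  have key : ∀ i i' : ℕ, i < i' → (At B n i x y ∨ At B n i (π x) (π y)) →
      (At B n i' x y ∨ At B n i' (π x) (π y)) → False := by
    intro i i' hii h1 h2
    rcases h1 with h1 | h1 <;> rcases h2 with h2 | h2
    · exact h.no_double hii (h2.lt hB) h1 h2
    · exact h.no_double' hii (h2.lt hB) (by rw [sq, sq]; exact h1) h2
    · exact h.no_double' hii (h2.lt hB) h1 h2
    · exact h.no_double hii (h2.lt hB) h1 h2
  rcases lt_trichotomy i i' with h3 | h3 | h3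
  · exact absurd (key i i' h3 h1 h2) not_false
  · exact h3
  · exact absurd (key i' i h3 h2 h1) not_false

lemma tau_ne (B : ℕ → Option ℤ) (n z : ℕ) (a : ℤ) :
    ∃ x y, x ≠ y ∧ tau B n z a = swap x y := by
  refine ⟨_, _, ?_, rfl⟩
  intro hh
  have := (H B n (z+1))⁻¹.injective hh
  omega

lemma tau_inv (B : ℕ → Option ℤ) (n z : ℕ) (a : ℤ) : (tau B n z a)⁻¹ = tau B n z a := by
  unfold tau; rw [swap_inv]

lemma tau_sq (B : ℕ → Option ℤ) (n z : ℕ) (a : ℤ) : tau B n z a * tau B n z a = 1 := by
  unfold tau; rw [swap_mul_self]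

/-- conjugate of the full word from the one with a blank -/
lemma conj_full {π : Perm ℤ} {v : List ℤ} {j : ℕ} (hj : j < v.length)
    (hm : Minl π (del (ofList v) j) v.length) :
    conj (P (ofList v) v.length) =
      tau (ofList v) v.length j v[j] * π * tau (ofList v) v.length j v[j] := by
  have hBj : ofList v j = some v[j] := by simp [ofList, hj]
  have hPD := P_del_n (ofList v) hj hBj
  have hPB : P (ofList v) v.length =
      P (del (ofList v) j) v.length * tau (ofList v) v.length j v[j] := by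
    rw [hPD, mul_assoc, tau_sq, mul_one]
  rw [hPB, conj_mul, hm.conj_eq, tau_inv]

/-- at most one index of an fpf-involution word is `π`-marked -/
theorem marked_unique {π : Perm ℤ} {w : List ℤ} (hw : IsFpfWord w) {i k : ℕ}
    (h : Marked π w i) (h' : Marked π w k) : i = k := by
  obtain ⟨π', _, hw'⟩ := hw
  have hM := minl_of_rsp hw'
  have hm := minl_of_marked h
  have hm' := minl_of_marked h'
  have hBi : ofList w i = some (w[i]'(h.1)) := by simp [ofList, h.1]
  have hBk : ofList w k = some (w[k]'(h'.1)) := by simp [ofList, h'.1]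
  have c1 := conj_full h.1 hm
  have c2 := conj_full h'.1 hm'
  rw [hM.conj_eq] at c1 c2
  obtain ⟨x, y, hxy, hτ⟩ := tau_ne (ofList w) w.length i (w[i]'(h.1))
  obtain ⟨x', y', hxy', hτ'⟩ := tau_ne (ofList w) w.length k (w[k]'(h'.1))
  rw [hτ] at c1
  rw [hτ'] at c2
  have a1 := at_of_tau hBi hτ
  have a2 := at_of_tau hBk hτ'
  have e1 : swap x y * π' * swap x y = π := by
    rw [c1]
    simp only [← mul_assoc]
    rw [swap_mul_self, one_mul, mul_assoc, swap_mul_self, mul_one]
  have hyx : y ≠ π' x := by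
    rintro rfl
    exact hM.no_mates h.1 a1
  refine slots_eq hM (ofList_none w) (Or.inl a1) ?_
  rcases comm_lemma hM.pi_sq hM.pi_ne hxy (a := x') (b := y') (by rw [e1]; exact c2.symm) hyx with
    ⟨h3, h4⟩ | ⟨h3, h4⟩ | ⟨h3, h4⟩ | ⟨h3, h4⟩
  · rw [h3, h4] at a2; exact Or.inl a2
  · rw [h3, h4] at a2; exact Or.inl a2.symm
  · rw [h3, h4] at a2; exact Or.inr a2
  · rw [h3, h4] at a2; exact Or.inr a2.symm

/-- the second index is unique -/
theorem second_unique {π : Perm ℤ} {v : List ℤ} {j j' j'' : ℕ} (hj : j < v.length)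
    (hm : Minl π (del (ofList v) j) v.length) (h1 : ¬ IsFpfWord v) (h2 : ¬ SemiReduced π v)
    (hj' : j' ≠ j) (hmk' : Marked π v j') (hj'' : j'' ≠ j) (hmk'' : Marked π v j'') :
    j' = j'' := by
  have sq := hm.pi_sq
  have ne := hm.pi_ne
  obtain ⟨x, y, hxy, hτ⟩ := tau_ne (ofList v) v.length j v[j]
  have hBj : ofList v j = some v[j] := by simp [ofList, hj]
  have hconj := conj_full hj hm
  rw [hτ] at hconj
  -- both other indices carry the labels `x, y` or their mates, in the diagram with a blank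
  have key : ∀ i, i ≠ j → Marked π v i → y ≠ π x →
      At (del (ofList v) j) v.length i x y ∨ At (del (ofList v) j) v.length i (π x) (π y) := by
    intro i hij hmk hyx
    have hmi := minl_of_marked hmk
    have ci := conj_full hmk.1 hmi
    rw [hconj] at ci
    have hDi : del (ofList v) j i = some (v[i]'(hmk.1)) := by
      unfold del; rw [if_neg hij]; simp [ofList, hmk.1]
    obtain ⟨x', y', hxy', hτ'⟩ := tau_ne (ofList v) v.length i (v[i]'(hmk.1))
    rw [hτ'] at ci
    have e1 : swap x' y' * (swap x y * π * swap x y) * swap x' y' = π := by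
      rw [ci]
      simp only [← mul_assoc]
      rw [swap_mul_self, one_mul, mul_assoc, swap_mul_self, mul_one]
    have hx' : x ≠ π y := fun hh => hyx (by rw [hh, sq])
    have comm : swap x y * swap (π x) (π y) = swap (π x) (π y) * swap x y := by
      rw [Equiv.mul_swap_eq_swap_mul (swap x y), swap_apply_of_ne_of_ne (ne x) (Ne.symm hyx),
        swap_apply_of_ne_of_ne hx'.symm (ne y)]
    have htd := tau_del (a := v[i]'(hmk.1)) hj hBj hij
    rw [hτ, hτ'] at htd
    have hcl : swap x' y' = swap x y ∨ swap x' y' = swap (π x) (π y) := by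
      rcases comm_lemma sq ne hxy e1 hyx with ⟨h3, h4⟩ | ⟨h3, h4⟩ | ⟨h3, h4⟩ | ⟨h3, h4⟩
      · left; rw [h3, h4]
      · left; rw [h3, h4, swap_comm]
      · right; rw [h3, h4]
      · right; rw [h3, h4, swap_comm]
    have htD : tau (del (ofList v) j) v.length i (v[i]'(hmk.1)) = swap x' y' := by
      rw [htd]
      split_ifs
      · rcases hcl with h | h <;> rw [h]
        · rw [swap_mul_self, one_mul]
        · rw [comm, mul_assoc, swap_mul_self, mul_one]
      · rfl
    rcases hcl with h | h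
    · left; exact at_of_tau hDi (htD.trans h)
    · right; exact at_of_tau hDi (htD.trans h)
  have hyx : y ≠ π x := by
    intro hyx
    -- then the word is semi-reduced or there is a contradiction with a crossing of mates
    have hcπ : swap x y * π * swap x y = π := by
      rw [hyx]
      have h5 : π * swap x (π x) = swap x (π x) * π := by
        rw [Equiv.mul_swap_eq_swap_mul, sq, swap_comm]
      rw [mul_assoc, h5, ← mul_assoc, swap_mul_self, one_mul]
    have hmi := minl_of_marked hmk'
    have ci := conj_full hmk'.1 hmi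
    rw [hconj, hcπ] at ci
    have hDi : del (ofList v) j j' = some (v[j']'(hmk'.1)) := by
      unfold del; rw [if_neg hj']; simp [ofList, hmk'.1]
    obtain ⟨x', y', hxy', hτ'⟩ := tau_ne (ofList v) v.length j' (v[j']'(hmk'.1))
    rw [hτ'] at ci
    have hmate := mate_of_conj ne hxy' ci.symm
    have htd := tau_del (a := v[j']'(hmk'.1)) hj hBj hj'
    rw [hτ, hτ'] at htd
    have hfinal : ∃ x2, tau (del (ofList v) j) v.length j' (v[j']'(hmk'.1)) =
        swap x2 (π x2) := by
      rw [htd]
      split_ifs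
      · refine ⟨swap x y x', ?_⟩
        have e1 : swap x y (π x') = π (swap x y x') := by
          have h6 := congrArg (fun f : Perm ℤ => f (swap x y x')) hcπ
          simp only [Perm.coe_mul, Function.comp_apply, swap_apply_self] at h6
          exact h6
        rw [hmate, Equiv.mul_swap_eq_swap_mul (swap x y) x' (π x'), mul_assoc, swap_mul_self,
          mul_one, e1]
      · exact ⟨x', by rw [hmate]⟩
    obtain ⟨x2, hx2⟩ := hfinal
    exact hm.no_mates hmk'.1 (at_of_tau hDi hx2)
  exact slots_eq hm (del_none j) (key j' hj' hmk' hyx) (key j'' hj'' hmk'' hyx)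

lemma FPush_unique {π : Perm ℤ} {v : List ℤ} {j : ℕ} (hj : j < v.length)
    (hm : Minl π (del (ofList v) j) v.length) {b b' : List ℤ × ℕ}
    (h : FPush π (v, j) b) (h' : FPush π (v, j) b') : b = b' := by
  have key : b.2 = b'.2 := by
    rcases h.1 with ⟨h1, h2⟩ | ⟨h1, h2, h3, h4⟩ <;>
      rcases h'.1 with ⟨h1', h2'⟩ | ⟨h1', h2', h3', h4'⟩
    · rw [h2, h2']
    · exact absurd h1 (not_or.mpr ⟨h1', h2'⟩)
    · exact absurd h1' (not_or.mpr ⟨h1, h2⟩)
    · exact second_unique hj hm h1 h2 h3 h4 h3' h4'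
  refine Prod.ext ?_ key
  rw [h.2, h'.2, key]

/-- every chain of pushes is the orbit of `fpush` -/
lemma chain_eq_iter {π : Perm ℤ} {w : List ℤ} {i N : ℕ} {x : ℕ → List ℤ × ℕ}
    (hmk : Marked π w i) (hx0 : x 0 = (w, i)) (hx : ∀ t < N, FPush π (x t) (x (t+1))) :
    ∀ t ≤ N, x t = (fpush π)^[t] (w, i) := by
  intro t
  induction t with
  | zero => intro _; exact hx0
  | succ t ih =>
    intro ht
    have h1 := hx t (by omega)
    rw [ih (by omega)] at h1
    obtain ⟨h2, h3, h4⟩ := iter_spec hmk t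
    exact FPush_unique (π := π) (v := ((fpush π)^[t] (w, i)).1)
      (j := ((fpush π)^[t] (w, i)).2) (by rw [h3]; exact h2) (by rw [h3]; exact h4) h1
      (iter_FPush hmk t)

/-- `fb_π(w)` satisfies its defining property -/
theorem fb_spec (π : Perm ℤ) (w : List ℤ) (hw : IsFpfWord w) : FBump π w (fb π w) := by
  classical
  by_cases h : ∃ i, Marked π w i
  · set i := Classical.epsilon (Marked π w) with hi
    have hmk : Marked π w i := Classical.epsilon_spec h
    set A := {N | 0 < N ∧ IsFpfWord ((fpush π)^[N] (w, i)).1} with hA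
    have hne : A.Nonempty := by
      obtain ⟨N, h1, _, h2⟩ := terminates hw hmk
      exact ⟨N, h1, h2⟩
    have hmem : sInf A ∈ A := Nat.sInf_mem hne
    have hfb : fb π w = ((fpush π)^[sInf A] (w, i)).1 := by
      unfold fb
      rw [if_pos h]
    rw [hfb]
    refine Or.inl ⟨i, sInf A, fun t => (fpush π)^[t] (w, i),
      hmk, hmem.1, rfl, fun t _ => iter_FPush hmk t, ?_, hmem.2, rfl⟩
    intro t h1 h2 h3
    exact Nat.notMem_of_lt_sInf h2 ⟨h1, h3⟩
  · have hfb : fb π w = w := by
      unfold fb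
      rw [if_neg h]
    exact Or.inr ⟨h, hfb⟩

/-- the relation `fb_π(w) = v` determines `v` -/
theorem FBump_unique {π : Perm ℤ} {w v v' : List ℤ} (hw : IsFpfWord w) (h : FBump π w v)
    (h' : FBump π w v') : v = v' := by
  rcases h with ⟨i, N, x, h1, h2, h3, h4, h5, h6, rfl⟩ | ⟨h1, rfl⟩ <;>
    rcases h' with ⟨i', N', x', h1', h2', h3', h4', h5', h6', rfl⟩ | ⟨h1', rfl⟩
  · have hii := marked_unique hw h1 h1'
    subst hii
    have e := chain_eq_iter h1 h3 h4
    have e' := chain_eq_iter h1' h3' h4'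
    rcases lt_trichotomy N N' with hN | hN | hN
    · exfalso
      apply h5' N h2 hN
      rw [e' N hN.le, ← e N le_rfl]; exact h6
    · subst hN
      rw [e N le_rfl, e' N le_rfl]
    · exfalso
      apply h5 N' h2' hN
      rw [e N' hN.le, ← e' N' le_rfl]; exact h6'
  · exact absurd ⟨i, h1⟩ h1'
  · exact absurd ⟨i', h1'⟩ h1
  · rfl

end FpfLittle
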