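import Pool.Agent.FpfBump.Defs

/-!
# Words with blanks, minimality, and the doubled wiring diagram
-/

namespace FpfLittle

open Equiv

/-- contribution of a slot -/
def c : Option ℤ → Perm ℤ
  | none => 1
  | some a => s a

/-- prefix products -/
def P (B : ℕ → Option ℤ) : ℕ → Perm ℤ
  | 0 => 1
  | t + 1 => P B t * c (B t)

/-- label ↦ height at time `t` -/
def H (B : ℕ → Option ℤ) (n t : ℕ) : Perm ℤ := (P B t)⁻¹ * P B n

/-- blank out the slot `z` -/
def del (B : ℕ → Option ℤ) (z : ℕ) : ℕ → Option ℤ := fun t => if t = z then none else B t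

/-- number of letters -/
def cnt (B : ℕ → Option ℤ) : ℕ → ℕ
  | 0 => 0
  | t + 1 => cnt B t + (if B t = none then 0 else 1)

/-- conjugate of `1_fpf` -/
def conj (σ : Perm ℤ) : Perm ℤ := σ⁻¹ * oneFpf * σ

lemma c_mul_self (o : Option ℤ) : c o * c o = 1 := by
  cases o with
  | none => simp [c]
  | some a => simp [c, s]

lemma c_inv (o : Option ℤ) : (c o)⁻¹ = c o := inv_eq_of_mul_eq_one_left (c_mul_self o)

lemma H_self (B : ℕ → Option ℤ) (n : ℕ) : H B n n = 1 := by simp [H]

lemma H_succ (B : ℕ → Option ℤ) (n t : ℕ) : H B n t = c (B t) * H B n (t + 1) := by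
  unfold H
  rw [P, mul_inv_rev, c_inv, ← mul_assoc, ← mul_assoc, c_mul_self, one_mul]

lemma P_del_le (B : ℕ → Option ℤ) (z : ℕ) {t : ℕ} (h : t ≤ z) : P (del B z) t = P B t := by
  induction t with
  | zero => rfl
  | succ t ih =>
    rw [P, P, ih (by omega)]
    congr 1
    simp [del, show t ≠ z by omega]

lemma P_del_gt (B : ℕ → Option ℤ) (z : ℕ) {t : ℕ} (h : z < t) :
    P (del B z) t = P B z * (P B (z+1))⁻¹ * P B t := by
  induction t, h using Nat.le_induction with
  | base =>
    rw [P, P_del_le B z le_rfl]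
    simp [del, c]
  | succ t h ih =>
    have h' : z + 1 ≤ t := h
    have e : P B (t+1) = P B t * c (B t) := rfl
    have e' : P (del B z) (t+1) = P (del B z) t * c (del B z t) := rfl
    rw [e', ih, e]
    simp only [del, if_neg (show t ≠ z by omega), mul_assoc]

/-- the transposition of labels belonging to a letter `a` at slot `z` -/
def tau (B : ℕ → Option ℤ) (n z : ℕ) (a : ℤ) : Perm ℤ :=
  swap ((H B n (z+1))⁻¹ a) ((H B n (z+1))⁻¹ (a+1))

lemma tau_eq (B : ℕ → Option ℤ) (n z : ℕ) (a : ℤ) :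
    tau B n z a = (H B n (z+1))⁻¹ * s a * H B n (z+1) := by
  unfold tau s
  rw [mul_assoc, Equiv.swap_mul_eq_mul_swap, ← mul_assoc, inv_mul_cancel, one_mul]

lemma H_del_gt (B : ℕ → Option ℤ) {n z t : ℕ} (hz : z < n) (ht : z < t) :
    H (del B z) n t = H B n t := by
  unfold H
  rw [P_del_gt B z ht, P_del_gt B z hz]
  group

lemma H_del_le (B : ℕ → Option ℤ) {n z t : ℕ} {a : ℤ} (hz : z < n) (ha : B z = some a)
    (ht : t ≤ z) : H (del B z) n t = H B n t * tau B n z a := by
  rw [tau_eq]
  unfold H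
  rw [P_del_le B z ht, P_del_gt B z hz, P, ha]
  simp only [c, mul_inv_rev, inv_inv]
  have : s a * s a = 1 := c_mul_self (some a)
  have h' : (s a)⁻¹ = s a := c_inv (some a)
  rw [h']
  simp only [mul_assoc]
  rw [mul_inv_cancel_left, ← mul_assoc (s a) (s a), this, one_mul]

lemma P_del_n (B : ℕ → Option ℤ) {n z : ℕ} {a : ℤ} (hz : z < n) (ha : B z = some a) :
    P (del B z) n = P B n * tau B n z a := by
  have h := H_del_le B hz ha (Nat.zero_le z)
  simpa [H, P] using h

lemma cnt_del_le (B : ℕ → Option ℤ) (z : ℕ) {t : ℕ} (h : t ≤ z) : cnt (del B z) t = cnt B t := by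
  induction t with
  | zero => rfl
  | succ t ih =>
    rw [cnt, cnt, ih (by omega)]
    simp [del, show t ≠ z by omega]

lemma cnt_del (B : ℕ → Option ℤ) {n z : ℕ} {a : ℤ} (hz : z < n) (ha : B z = some a) :
    cnt (del B z) n + 1 = cnt B n := by
  induction n, hz using Nat.le_induction with
  | base =>
    rw [cnt, cnt, cnt_del_le B z le_rfl, ha]
    simp [del]
  | succ n h ih =>
    rw [cnt, cnt, ← ih]
    simp only [del, if_neg (show n ≠ z by omega)]
    ring

lemma wordPerm_append (l l' : List ℤ) : wordPerm (l ++ l') = wordPerm l * wordPerm l' := by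
  simp [wordPerm]

lemma realize (B : ℕ → Option ℤ) (n : ℕ) : ∃ l, wordPerm l = P B n ∧ l.length = cnt B n := by
  induction n with
  | zero => exact ⟨[], by simp [wordPerm, P], by simp [cnt]⟩
  | succ n ih =>
    obtain ⟨l, h1, h2⟩ := ih
    cases h : B n with
    | none => exact ⟨l, by simp [P, h1, h, c], by simp [cnt, h2, h]⟩
    | some a => exact ⟨l ++ [a], by rw [wordPerm_append, h1, P, h]; simp [wordPerm, c],
        by simp [cnt, h2, h]⟩

/-- the slots of a list -/
def ofList (v : List ℤ) : ℕ → Option ℤ := fun z => v[z]?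

lemma P_ofList (v : List ℤ) (t : ℕ) : P (ofList v) t = wordPerm (v.take t) := by
  induction t with
  | zero => simp [P, wordPerm]
  | succ t ih =>
    rw [P, ih, List.take_add_one, wordPerm_append]
    congr 1
    unfold ofList
    cases h : v[t]? with
    | none => simp [c, wordPerm]
    | some a => simp [c, wordPerm]

lemma P_ofList_length (v : List ℤ) : P (ofList v) v.length = wordPerm v := by
  rw [P_ofList, List.take_length]

lemma P_eraseIdx (v : List ℤ) {j : ℕ} (hj : j < v.length) :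
    P (del (ofList v) j) v.length = wordPerm (v.eraseIdx j) := by
  rw [P_del_gt _ _ hj, P_ofList, P_ofList, P_ofList, List.take_length,
    List.eraseIdx_eq_take_drop_succ, wordPerm_append]
  conv_lhs => rw [← List.take_append_drop (j+1) v]
  rw [wordPerm_append]
  have h : (v.take (j+1) ++ v.drop (j+1)) = v := List.take_append_drop _ _
  rw [h]
  group

lemma cnt_ofList (v : List ℤ) (t : ℕ) (ht : t ≤ v.length) : cnt (ofList v) t = t := by
  induction t with
  | zero => rfl
  | succ t ih =>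
    rw [cnt, ih (by omega)]
    have : ofList v t ≠ none := by
      unfold ofList
      rw [List.getElem?_eq_getElem (by omega)]
      simp
    simp [this]

/-- minimality of a word with blanks among all words (with blanks) with the same conjugate -/
structure Minl (π : Perm ℤ) (B : ℕ → Option ℤ) (n : ℕ) : Prop where
  conj_eq : conj (P B n) = π
  min : ∀ B' : ℕ → Option ℤ, conj (P B' n) = π → cnt B n ≤ cnt B' n

lemma conj_mul (σ τ : Perm ℤ) : conj (σ * τ) = τ⁻¹ * conj σ * τ := by
  unfold conj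
  rw [mul_inv_rev]
  simp only [mul_assoc]

lemma oneFpf_mul_self : oneFpf * oneFpf = 1 := by
  ext i
  exact oneFun_invol i

lemma conj_mul_self (σ : Perm ℤ) : conj σ * conj σ = 1 := by
  unfold conj
  have := oneFpf_mul_self
  calc σ⁻¹ * oneFpf * σ * (σ⁻¹ * oneFpf * σ) = σ⁻¹ * (oneFpf * oneFpf) * σ := by group
    _ = 1 := by rw [this]; group

lemma oneFpf_ne (i : ℤ) : oneFpf i ≠ i := by
  show oneFun i ≠ i
  unfold oneFun
  split_ifs <;> omega

lemma conj_ne (σ : Perm ℤ) (i : ℤ) : conj σ i ≠ i := by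
  intro h
  have h1 : oneFpf (σ i) = σ i := by
    have : σ ((conj σ) i) = oneFpf (σ i) := by simp [conj]
    rw [← this, h]
  exact oneFpf_ne _ h1

/-- the labels `x` and `y` cross at slot `i` -/
def At (B : ℕ → Option ℤ) (n i : ℕ) (x y : ℤ) : Prop :=
  ∃ a, B i = some a ∧ ((H B n (i+1) x = a ∧ H B n (i+1) y = a + 1) ∨
    (H B n (i+1) x = a + 1 ∧ H B n (i+1) y = a))

lemma At.symm {B : ℕ → Option ℤ} {n i : ℕ} {x y : ℤ} (h : At B n i x y) : At B n i y x := by
  obtain ⟨a, h1, h2⟩ := h
  exact ⟨a, h1, h2.symm.imp (fun h => ⟨h.2, h.1⟩) (fun h => ⟨h.2, h.1⟩)⟩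

lemma At.tau {B : ℕ → Option ℤ} {n i : ℕ} {x y : ℤ} (h : At B n i x y) :
    ∃ a, B i = some a ∧ tau B n i a = swap x y := by
  obtain ⟨a, h1, h2⟩ := h
  refine ⟨a, h1, ?_⟩
  unfold FpfLittle.tau
  rcases h2 with ⟨h2, h3⟩ | ⟨h2, h3⟩
  · rw [← h2, ← show H B n (i+1) y = H B n (i+1) x + 1 by rw [h3, h2]]
    simp
  · rw [← h3, ← show H B n (i+1) x = H B n (i+1) y + 1 by rw [h3, h2]]
    simp [swap_comm]

lemma At.unique {B : ℕ → Option ℤ} {n i : ℕ} {x y x' y' : ℤ} (h : At B n i x y)
    (h' : At B n i x' y') : (x = x' ∧ y = y') ∨ (x = y' ∧ y = x') := by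
  obtain ⟨a, h1, h2⟩ := h
  obtain ⟨a', h1', h2'⟩ := h'
  rw [h1] at h1'
  simp only [Option.some.injEq] at h1'
  subst h1'
  have inj := (H B n (i+1)).injective
  rcases h2 with ⟨h2, h3⟩ | ⟨h2, h3⟩ <;> rcases h2' with ⟨h4, h5⟩ | ⟨h4, h5⟩
  · left; exact ⟨inj (by rw [h2, h4]), inj (by rw [h3, h5])⟩
  · right; exact ⟨inj (by rw [h2, h5]), inj (by rw [h3, h4])⟩
  · right; exact ⟨inj (by rw [h2, h5]), inj (by rw [h3, h4])⟩
  · left; exact ⟨inj (by rw [h2, h4]), inj (by rw [h3, h5])⟩

lemma At.ne {B : ℕ → Option ℤ} {n i : ℕ} {x y : ℤ} (h : At B n i x y) : x ≠ y := by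
  obtain ⟨a, _, h2⟩ := h
  rintro rfl
  omega

lemma Minl.pi_sq {π : Perm ℤ} {B : ℕ → Option ℤ} {n : ℕ} (h : Minl π B n) (a : ℤ) :
    π (π a) = a := by
  have h1 := conj_mul_self (P B n)
  rw [h.conj_eq] at h1
  have : (π * π) a = a := by rw [h1]; rfl
  exact this

lemma Minl.pi_ne {π : Perm ℤ} {B : ℕ → Option ℤ} {n : ℕ} (h : Minl π B n) (a : ℤ) :
    π a ≠ a := by
  rw [← h.conj_eq]; exact conj_ne _ _

lemma Minl.pi_mul {π : Perm ℤ} {B : ℕ → Option ℤ} {n : ℕ} (h : Minl π B n) : π * π = 1 := by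
  rw [← h.conj_eq]; exact conj_mul_self _

/-- mates never cross -/
lemma Minl.no_mates {π : Perm ℤ} {B : ℕ → Option ℤ} {n i : ℕ} (h : Minl π B n) (hi : i < n)
    {x : ℤ} (hat : At B n i x (π x)) : False := by
  obtain ⟨a, h1, h2⟩ := hat.tau
  have h3 := P_del_n B hi h1
  have h4 : conj (P (del B i) n) = π := by
    rw [h3, conj_mul, h.conj_eq, h2, swap_inv]
    have h5 : π * swap x (π x) = swap x (π x) * π := by
      rw [Equiv.mul_swap_eq_swap_mul, h.pi_sq, swap_comm]
    rw [mul_assoc, h5, ← mul_assoc, swap_mul_self, one_mul]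
  have h5 := h.min _ h4
  have h6 := cnt_del B hi h1
  omega

/-- no two labels cross twice -/
lemma Minl.no_double {π : Perm ℤ} {B : ℕ → Option ℤ} {n i i' : ℕ} (h : Minl π B n)
    (hii : i < i') (hi : i' < n) {x y : ℤ} (h1 : At B n i x y) (h2 : At B n i' x y) : False := by
  obtain ⟨a, ha, hτ⟩ := h1.tau
  obtain ⟨b, hb, hτ'⟩ := h2.tau
  have e1 := P_del_n B (show i < n by omega) ha
  have hb' : del B i i' = some b := by simp [del, show i' ≠ i by omega, hb]
  have e2 := P_del_n (del B i) hi hb'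
  have e3 : tau (del B i) n i' b = tau B n i' b := by
    unfold tau
    rw [H_del_gt B (show i < n by omega) (by omega)]
  have h4 : conj (P (del (del B i) i') n) = π := by
    rw [e2, e3, e1, hτ, hτ', mul_assoc, swap_mul_self, mul_one]
    exact h.conj_eq
  have h5 := h.min _ h4
  have h6 := cnt_del B (show i < n by omega) ha
  have h7 := cnt_del (del B i) hi hb'
  omega

/-- no two labels and their mates cross at two different slots -/
lemma Minl.no_double' {π : Perm ℤ} {B : ℕ → Option ℤ} {n i i' : ℕ} (h : Minl π B n)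
    (hii : i < i') (hi : i' < n) {x y : ℤ} (h1 : At B n i (π x) (π y)) (h2 : At B n i' x y) :
    False := by
  have hxy := h2.ne
  have hy : y ≠ π x := by
    rintro rfl
    exact h.no_mates hi h2
  obtain ⟨a, ha, hτ⟩ := h1.tau
  obtain ⟨b, hb, hτ'⟩ := h2.tau
  have e1 := P_del_n B (show i < n by omega) ha
  have hb' : del B i i' = some b := by simp [del, show i' ≠ i by omega, hb]
  have e2 := P_del_n (del B i) hi hb'
  have e3 : tau (del B i) n i' b = tau B n i' b := by
    unfold tau
    rw [H_del_gt B (show i < n by omega) (by omega)]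
  have sq := h.pi_sq
  have hx' : x ≠ π y := fun hh => hy (by rw [hh, sq])
  have comm : swap (π x) (π y) * swap x y = swap x y * swap (π x) (π y) := by
    have h5 : swap x y * swap (π x) (π y) = swap (swap x y (π x)) (swap x y (π y)) * swap x y := by
      rw [Equiv.mul_swap_eq_swap_mul]
    rw [h5, swap_apply_of_ne_of_ne (h.pi_ne x) hy.symm,
      swap_apply_of_ne_of_ne hx'.symm (h.pi_ne y)]
  have e5 : π * swap x y = swap (π x) (π y) * π := by rw [Equiv.mul_swap_eq_swap_mul]
  have e6 : π * swap (π x) (π y) = swap x y * π := by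
    rw [Equiv.mul_swap_eq_swap_mul, sq, sq]
  have h4 : conj (P (del (del B i) i') n) = π := by
    rw [e2, e3, e1, hτ, hτ', mul_assoc, conj_mul, h.conj_eq, mul_inv_rev, swap_inv, swap_inv]
    calc swap x y * swap (π x) (π y) * π * (swap (π x) (π y) * swap x y)
        = swap x y * swap (π x) (π y) * (π * swap (π x) (π y)) * swap x y := by
          simp only [mul_assoc]
      _ = swap x y * swap (π x) (π y) * (swap x y * (π * swap x y)) := by
          rw [e6]; simp only [mul_assoc]
      _ = swap x y * (swap (π x) (π y) * swap x y) * (swap (π x) (π y) * π) := by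
          rw [e5]; simp only [mul_assoc]
      _ = (swap x y * swap x y) * (swap (π x) (π y) * swap (π x) (π y)) * π := by
          rw [comm]; simp only [mul_assoc]
      _ = π := by rw [swap_mul_self, swap_mul_self, one_mul, one_mul]
  have h5 := h.min _ h4
  have h6 := cnt_del B (show i < n by omega) ha
  have h7 := cnt_del (del B i) hi hb'
  omega

end FpfLittle
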